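import Pool.Agent.Lib.MP_f8fa1d_co.Glue

/-!
# The supremum of the densities is attained
-/

namespace Pool.Agent.Lib.MP_f8fa1d_co

open Filter Topology

theorem sK_le_one (K : ℕ) : sK K ≤ 1 := by
  have hp := phi_pos K
  have h : W K ≤ (phi K)⁻¹ := by
    apply csSup_le (Wset_nonempty K)
    rintro x ⟨B, hB, _, rfl⟩
    exact rs_le hB
  unfold sK
  calc phi K * W K ≤ phi K * (phi K)⁻¹ := mul_le_mul_of_nonneg_left h hp.le
    _ = 1 := mul_inv_cancel₀ hp.ne'

theorem exists_good (K : ℕ) : ∃ B : Finset ℕ, (B : Set ℕ) ⊆ K.smoothNumbers ∧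
    GPFree (B : Set ℕ) ∧ sK K - 1 / ((K : ℝ) + 1) ≤ phi K * rs B := by
  have hp := phi_pos K
  have h1 : W K - 1 / ((K : ℝ) + 1) < W K := by
    have : (0 : ℝ) < 1 / ((K : ℝ) + 1) := by positivity
    linarith
  obtain ⟨x, ⟨B, hB, hG, rfl⟩, hx⟩ := exists_lt_of_lt_csSup (Wset_nonempty K) h1
  refine ⟨B, hB, hG, ?_⟩
  have h2 : phi K * (W K - 1 / ((K : ℝ) + 1)) ≤ phi K * rs B := mul_le_mul_of_nonneg_left hx.le hp.le
  have h3 : phi K * (1 / ((K : ℝ) + 1)) ≤ 1 * (1 / ((K : ℝ) + 1)) :=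
    mul_le_mul_of_nonneg_right (phi_le_one K) (by positivity)
  unfold sK
  linarith

/-- A nearly optimal finite GP-free set of `K`-smooth numbers. -/
noncomputable def Bst (K : ℕ) : Finset ℕ := (exists_good K).choose

theorem Bst_sub (K : ℕ) : (Bst K : Set ℕ) ⊆ K.smoothNumbers := (exists_good K).choose_spec.1

theorem Bst_free (K : ℕ) : GPFree (Bst K : Set ℕ) := (exists_good K).choose_spec.2.1

theorem Bst_lower (K : ℕ) : sK K - 1 / ((K : ℝ) + 1) ≤ phi K * rs (Bst K) :=
  (exists_good K).choose_spec.2.2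

theorem Bst_upper (K : ℕ) : phi K * rs (Bst K) ≤ sK K :=
  mul_le_mul_of_nonneg_left (rs_le_W (Bst_sub K) (Bst_free K)) (phi_pos K).le

/-- The class of `n` at level `K`. -/
noncomputable def cls (K n : ℕ) : ℕ := (ro (K + 1) n / P (K + 1)) % K

open Classical in
/-- Mixture of two consecutive nice sets. -/
noncomputable def Mix (K l : ℕ) : Set ℕ :=
  {n | if cls K n < l then n ∈ Nice (K + 1) (Bst (K + 1)) else n ∈ Nice K (Bst K)}

theorem Mix_sq {K l n : ℕ} (h : n ∈ Mix K l) : n ∉ Sq (K + 1) := by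
  unfold Mix at h
  simp only [Set.mem_ofPred_eq] at h
  split_ifs at h
  · exact h.2.2
  · exact not_sq_mono (Nat.le_succ K) h.2.2

theorem Mix_pos {K l n : ℕ} (h : n ∈ Mix K l) : 0 < n := by
  unfold Mix at h
  simp only [Set.mem_ofPred_eq] at h
  split_ifs at h
  · exact h.1
  · exact h.1

theorem Mix_free (K l : ℕ) : GPFree (Mix K l) := by
  rw [gpFree_iff]
  refine ⟨fun n hn => Mix_pos hn, ?_⟩
  intro a ha b hb c hc h
  obtain ⟨h1, h2⟩ := ro_eq_of_gp (Mix_pos ha).ne' (Mix_pos hb).ne' (Mix_pos hc).ne' h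
    (not_sq (Mix_sq ha)) (not_sq (Mix_sq hb)) (not_sq (Mix_sq hc))
  have ha' : cls K a = cls K b := by unfold cls; rw [h1]
  have hc' : cls K c = cls K b := by unfold cls; rw [h2]
  unfold Mix at ha hb hc
  simp only [Set.mem_ofPred_eq] at ha hb hc
  rw [ha'] at ha
  rw [hc'] at hc
  by_cases hl : cls K b < l
  · rw [if_pos hl] at ha hb hc
    exact (Nice_free (Bst_free (K + 1))).eq ha hb hc h
  · rw [if_neg hl] at ha hb hc
    exact (Nice_free (Bst_free K)).eq ha hb hc h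

theorem Mix_top (K : ℕ) (hK : 0 < K) : Mix K K = Mix (K + 1) 0 := by
  ext n
  unfold Mix
  simp only [Set.mem_ofPred_eq]
  have h1 : cls K n < K := Nat.mod_lt _ hK
  rw [if_pos h1, if_neg (Nat.not_lt_zero _)]

/-- The exceptional set at level `K`. -/
def Exc (K : ℕ) : Set ℕ := Sq K ∪ {n | K ∣ n}

theorem cnt_Exc {K : ℕ} (hK : 2 ≤ K) (x : ℕ) : (cnt (Exc K) x : ℝ) ≤ 2 / (K - 1) * x := by
  have h1 : (cnt (Exc K) x : ℝ) ≤ cnt (Sq K) x + cnt {n | K ∣ n} x := by
    exact_mod_cast cnt_union_le _ _ _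
  have h2 := cnt_Sq hK x
  have hK1 : (0 : ℝ) < (K : ℝ) - 1 := by
    have : (2 : ℝ) ≤ K := by exact_mod_cast hK
    linarith
  have h3 : (cnt {n | K ∣ n} x : ℝ) ≤ x / (K - 1) := by
    classical
    have h4 : cnt {n | K ∣ n} x = x / K := by
      rw [cnt_eq, ← Nat.Ioc_filter_dvd_card_eq_div]
      congr 1
      ext m
      simp only [Finset.mem_filter, Finset.mem_Icc, Finset.mem_Ioc, Set.mem_ofPred_eq]
      omega
    rw [h4]
    refine le_trans Nat.cast_div_le ?_
    apply div_le_div_of_nonneg_left (by positivity) hK1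
    linarith
  have h5 : (2 : ℝ) / (K - 1) * x = x / (K - 1) + x / (K - 1) := by ring
  linarith

theorem sm_succ {K n : ℕ} (hn : ¬ K ∣ n) : sm (K + 1) n = sm K n := by
  apply Nat.eq_of_factorization_eq (sm_pos _ _).ne' (sm_pos _ _).ne'
  intro p
  rcases lt_trichotomy p K with h | h | h
  · rw [factorization_sm_of_lt (by omega), factorization_sm_of_lt h]
  · subst h
    rw [factorization_sm_of_lt (by omega), factorization_sm_of_le le_rfl]
    exact Nat.factorization_eq_zero_of_not_dvd hn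
  · rw [factorization_sm_of_le (by omega), factorization_sm_of_le (by omega)]

theorem phi_succ_le (K : ℕ) : phi (K + 1) ≤ phi K := by
  unfold phi
  by_cases hK : K.Prime
  · rw [Nat.primesBelow_succ, if_pos hK, Finset.prod_insert (by simp [Nat.primesBelow])]
    have h1 : (0 : ℝ) ≤ 1 / (K : ℝ) := by positivity
    have h2 := (phi_pos K).le
    unfold phi at h2
    nlinarith
  · rw [Nat.primesBelow_succ, if_neg hK]

theorem le_phi_succ {K : ℕ} (hK : 2 ≤ K) : phi K * (1 - 1 / (K : ℝ)) ≤ phi (K + 1) := by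
  unfold phi
  by_cases hKp : K.Prime
  · rw [Nat.primesBelow_succ, if_pos hKp, Finset.prod_insert (by simp [Nat.primesBelow]), mul_comm]
  · rw [Nat.primesBelow_succ, if_neg hKp]
    have h1 : (0 : ℝ) ≤ 1 / (K : ℝ) := by positivity
    have h2 := (phi_pos K).le
    unfold phi at h2
    nlinarith

theorem smooth_succ {K : ℕ} : K.smoothNumbers ⊆ (K + 1).smoothNumbers :=
  Nat.smoothNumbers_mono (Nat.le_succ K)

theorem count_lt_eq {L l : ℕ} (inst : DecidablePred (fun i => i < l)) (h : l ≤ L) :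
    @Nat.count (fun i => i < l) inst L = l := by
  rw [Nat.count_eq_card_filter_range]
  have h2 : @Finset.filter ℕ (fun i => i < l) inst (Finset.range L) = Finset.range l := by
    ext i
    simp only [Finset.mem_filter, Finset.mem_range]
    omega
  rw [h2, Finset.card_range]

theorem count_not_lt_eq {L l : ℕ} (inst : DecidablePred (fun i => ¬ i < l)) :
    @Nat.count (fun i => ¬ i < l) inst L = L - l := by
  rw [Nat.count_eq_card_filter_range]
  have h2 : @Finset.filter ℕ (fun i => ¬ i < l) inst (Finset.range L) = Finset.Ico l L := by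
    ext i
    simp only [Finset.mem_filter, Finset.mem_range, Finset.mem_Ico]
    omega
  rw [h2, Nat.card_Ico]

theorem count_eq_eq {L l : ℕ} (inst : DecidablePred (fun i => i = l)) (h : l < L) :
    @Nat.count (fun i => i = l) inst L = 1 := by
  rw [Nat.count_eq_card_filter_range]
  have h2 : @Finset.filter ℕ (fun i => i = l) inst (Finset.range L) = {l} := by
    ext i
    simp only [Finset.mem_filter, Finset.mem_range, Finset.mem_singleton]
    omega
  rw [h2, Finset.card_singleton]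

/-- The idealised form of the mixture. -/
theorem mem_Mix_iff {K l n : ℕ} (hn : 0 < n) (hE : n ∉ Exc K) :
    n ∈ Mix K l ↔ (cls K n < l ∧ sm (K + 1) n ∈ (Bst (K + 1) : Set ℕ)) ∨
      (¬ cls K n < l ∧ sm (K + 1) n ∈ (Bst K : Set ℕ)) := by
  have h1 : n ∉ Sq K := fun h => hE (Or.inl h)
  have h2 : ¬ K ∣ n := fun h => hE (Or.inr h)
  have h3 : n ∉ Sq (K + 1) := not_sq_mono (Nat.le_succ K) h1
  unfold Mix Nice
  simp only [Set.mem_ofPred_eq]
  rw [sm_succ h2]
  by_cases hl : cls K n < l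
  · rw [if_pos hl]
    simp only [hl, true_and, not_true_eq_false, false_and, or_false]
    exact ⟨fun h => h.2.1, fun h => ⟨hn, h, h3⟩⟩
  · rw [if_neg hl]
    simp only [hl, false_and, not_false_eq_true, true_and, false_or]
    exact ⟨fun h => h.2.1, fun h => ⟨hn, h, h1⟩⟩

theorem eventually_const_le {C ε : ℝ} (hε : 0 < ε) : ∀ᶠ x : ℕ in atTop, C ≤ ε * x := by
  have h1 : Tendsto (fun x : ℕ => ε * (x : ℝ)) atTop atTop :=
    tendsto_natCast_atTop_atTop.const_mul_atTop hε
  exact h1.eventually_ge_atTop C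

/-- The two nearly optimal densities at level `K + 1` are close to `sigma`. -/
theorem dens_bounds {K : ℕ} (hK : 2 ≤ K) :
    (sigma - 2 / (K - 1) ≤ phi (K + 1) * rs (Bst (K + 1)) ∧
      phi (K + 1) * rs (Bst (K + 1)) ≤ sigma + 2 / (K - 1)) ∧
    (sigma - 2 / (K - 1) ≤ phi (K + 1) * rs (Bst K) ∧
      phi (K + 1) * rs (Bst K) ≤ sigma + 2 / (K - 1)) := by
  have hK2 : (2 : ℝ) ≤ K := by exact_mod_cast hK
  have hK1 : (0 : ℝ) < (K : ℝ) - 1 := by linarith
  have hK0 : (0 : ℝ) < (K : ℝ) := by linarith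
  have e1 : 1 / (K : ℝ) ≤ 1 / (K - 1) := one_div_le_one_div_of_le hK1 (by linarith)
  have e2 : 1 / ((K : ℝ) + 1) ≤ 1 / (K - 1) := one_div_le_one_div_of_le hK1 (by linarith)
  have e3 : 1 / (((K : ℝ) + 1) + 1) ≤ 1 / (K - 1) := one_div_le_one_div_of_le hK1 (by linarith)
  have e4 : (2 : ℝ) / (K - 1) = 2 * (1 / (K - 1)) := by ring
  have e5 : (0 : ℝ) < 1 / (K - 1) := by positivity
  have e6 : (0 : ℝ) < 1 / (K : ℝ) := by positivity
  have h1 := Bst_lower (K + 1)
  have h2 := Bst_upper (K + 1)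
  have h3 := Bst_lower K
  have h4 := Bst_upper K
  have h5 := sigma_le K
  have h6 := sigma_le (K + 1)
  have h7 := sK_sub_le_sigma (K := K + 1) (by omega)
  have h8 := sK_sub_le_sigma hK
  push_cast at h1 h7
  have e7 : (K : ℝ) + 1 - 1 = K := by ring
  rw [e7] at h7
  refine ⟨⟨by linarith, by linarith⟩, ?_, ?_⟩
  · have h9 := mul_le_mul_of_nonneg_right (le_phi_succ hK) (rs_nonneg (Bst K))
    have h10 : phi K * (1 - 1 / (K : ℝ)) * rs (Bst K) =
        phi K * rs (Bst K) - 1 / (K : ℝ) * (phi K * rs (Bst K)) := by ring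
    have h11 : 1 / (K : ℝ) * (phi K * rs (Bst K)) ≤ 1 / (K : ℝ) * 1 := by
      apply mul_le_mul_of_nonneg_left _ e6.le
      exact le_trans h4 (sK_le_one K)
    linarith
  · have h9 := mul_le_mul_of_nonneg_right (phi_succ_le K) (rs_nonneg (Bst K))
    linarith

theorem Mix_approx {K l : ℕ} (hK : 2 ≤ K) (hl : l ≤ K) : Approx (Mix K l) sigma (5 / (K - 1)) := by
  classical
  have hK2 : (2 : ℝ) ≤ K := by exact_mod_cast hK
  have hK1 : (0 : ℝ) < (K : ℝ) - 1 := by linarith
  have hK0 : (0 : ℝ) < (K : ℝ) := by linarith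
  obtain ⟨C1, hC1⟩ := cnt_Lev_class (K + 1) (L := K) (by omega) (fun i => i < l) (Bst (K + 1))
    (Bst_sub (K + 1))
  obtain ⟨C2, hC2⟩ := cnt_Lev_class (K + 1) (L := K) (by omega) (fun i => ¬ i < l) (Bst K)
    ((Bst_sub K).trans smooth_succ)
  have hc1 : ∀ inst : DecidablePred (fun i => i < l), @Nat.count (fun i => i < l) inst K = l :=
    fun inst => count_lt_eq inst hl
  have hc2 : ∀ inst : DecidablePred (fun i => ¬ i < l),
      @Nat.count (fun i => ¬ i < l) inst K = K - l := fun inst => count_not_lt_eq inst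
  set L1 := Lev (K + 1) (Bst (K + 1) : Set ℕ) (fun m => (fun i => i < l) ((m / P (K + 1)) % K)) with hL1
  set L2 := Lev (K + 1) (Bst K : Set ℕ) (fun m => (fun i => ¬ i < l) ((m / P (K + 1)) % K)) with hL2
  have hdisj : Disjoint L1 L2 := by
    rw [Set.disjoint_left]
    intro n h1 h2
    exact h2.2.2 h1.2.2
  have hle1 : ∀ x, cnt (Mix K l) x ≤ cnt (L1 ∪ L2) x + cnt (Exc K) x := by
    intro x
    apply cnt_le_add
    intro n hn hM hE
    rcases (mem_Mix_iff hn hE).1 hM with h | h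
    · exact Or.inl ⟨hn, h.2, h.1⟩
    · exact Or.inr ⟨hn, h.2, h.1⟩
  have hle2 : ∀ x, cnt (L1 ∪ L2) x ≤ cnt (Mix K l) x + cnt (Exc K) x := by
    intro x
    apply cnt_le_add
    intro n hn hM hE
    rw [mem_Mix_iff hn hE]
    rcases hM with h | h
    · exact Or.inl ⟨h.2.2, h.2.1⟩
    · exact Or.inr ⟨h.2.2, h.2.1⟩
  obtain ⟨⟨b1, b2⟩, b3, b4⟩ := dens_bounds hK
  set T := phi (K + 1) * rs (Bst (K + 1)) with hT
  set T' := phi (K + 1) * rs (Bst K) with hT'
  unfold Approx
  filter_upwards [eventually_const_le (C := C1 + C2) (ε := 1 / (K - 1)) (by positivity)] with x hx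
  have h1 := hC1 x
  have h2 := hC2 x
  rw [hc1, abs_le] at h1
  rw [hc2, abs_le] at h2
  have h3 := cnt_Exc hK x
  have h4 : (cnt (Mix K l) x : ℝ) ≤ cnt (L1 ∪ L2) x + cnt (Exc K) x := by exact_mod_cast hle1 x
  have h5 : (cnt (L1 ∪ L2) x : ℝ) ≤ cnt (Mix K l) x + cnt (Exc K) x := by exact_mod_cast hle2 x
  have h6 : (cnt (L1 ∪ L2) x : ℝ) = cnt L1 x + cnt L2 x := by exact_mod_cast cnt_union hdisj x
  rw [h6] at h4 h5
  have hlK : (l : ℝ) ≤ K := by exact_mod_cast hl
  have hsub : ((K - l : ℕ) : ℝ) = (K : ℝ) - l := by rw [Nat.cast_sub hl]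
  rw [hsub] at h2
  -- the convex combination
  set t : ℝ := (l : ℝ) / K with ht
  have ht0 : 0 ≤ t := by positivity
  have ht1 : t ≤ 1 := by rw [ht, div_le_one hK0]; exact hlK
  have ht2 : ((K : ℝ) - l) / K = 1 - t := by rw [ht]; field_simp
  rw [ht2] at h2
  have hxnn : (0 : ℝ) ≤ x := by positivity
  have e1 : phi (K + 1) * t * rs (Bst (K + 1)) * x = t * (T * x) := by rw [hT]; ring
  have e2 : phi (K + 1) * (1 - t) * rs (Bst K) * x = (1 - t) * (T' * x) := by rw [hT']; ring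
  rw [e1] at h1
  rw [e2] at h2
  set δ : ℝ := 1 / (K - 1) with hδ
  have e3 : (2 : ℝ) / (K - 1) = 2 * δ := by rw [hδ]; ring
  have e4 : (5 : ℝ) / (K - 1) = 5 * δ := by rw [hδ]; ring
  rw [e3] at b1 b2 b3 b4 h3
  rw [e4]
  have f1 := mul_le_mul_of_nonneg_right b1 hxnn
  have f2 := mul_le_mul_of_nonneg_right b2 hxnn
  have f3 := mul_le_mul_of_nonneg_right b3 hxnn
  have f4 := mul_le_mul_of_nonneg_right b4 hxnn
  have g1 := mul_le_mul_of_nonneg_left f1 ht0
  have g2 := mul_le_mul_of_nonneg_left f2 ht0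
  have g3 := mul_le_mul_of_nonneg_left f3 (sub_nonneg.2 ht1)
  have g4 := mul_le_mul_of_nonneg_left f4 (sub_nonneg.2 ht1)
  rw [abs_le]
  constructor
  · nlinarith [h1.1, h1.2, h2.1, h2.2]
  · nlinarith [h1.1, h1.2, h2.1, h2.2]

theorem Mix_step {K l : ℕ} (hK : 2 ≤ K) (hl : l < K) :
    ∀ᶠ x : ℕ in atTop, (cnt (symmDiff (Mix K l) (Mix K (l + 1))) x : ℝ) ≤ 5 / (K - 1) * x := by
  classical
  have hK2 : (2 : ℝ) ≤ K := by exact_mod_cast hK
  have hK1 : (0 : ℝ) < (K : ℝ) - 1 := by linarith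
  have hK0 : (0 : ℝ) < (K : ℝ) := by linarith
  obtain ⟨C1, hC1⟩ := cnt_Lev_class (K + 1) (L := K) (by omega) (fun i => i = l) (Bst (K + 1))
    (Bst_sub (K + 1))
  obtain ⟨C2, hC2⟩ := cnt_Lev_class (K + 1) (L := K) (by omega) (fun i => i = l) (Bst K)
    ((Bst_sub K).trans smooth_succ)
  have hc1 : ∀ inst : DecidablePred (fun i => i = l), @Nat.count (fun i => i = l) inst K = 1 :=
    fun inst => count_eq_eq inst hl
  set L1 := Lev (K + 1) (Bst (K + 1) : Set ℕ) (fun m => (fun i => i = l) ((m / P (K + 1)) % K)) with hL1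
  set L2 := Lev (K + 1) (Bst K : Set ℕ) (fun m => (fun i => i = l) ((m / P (K + 1)) % K)) with hL2
  have hle : ∀ x, cnt (symmDiff (Mix K l) (Mix K (l + 1))) x ≤
      (cnt L1 x + cnt L2 x) + cnt (Exc K) x := by
    intro x
    refine le_trans (cnt_le_add (B := L1 ∪ L2) (E := Exc K) ?_ x)
      (Nat.add_le_add_right (cnt_union_le _ _ _) _)
    intro n hn hM hE
    rw [Set.mem_symmDiff, mem_Mix_iff hn hE, mem_Mix_iff hn hE] at hM
    have hcl : cls K n = l := by
      by_contra hne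
      have h1 : cls K n < l + 1 ↔ cls K n < l := by omega
      rw [h1] at hM
      tauto
    have hmem : sm (K + 1) n ∈ (Bst (K + 1) : Set ℕ) ∨ sm (K + 1) n ∈ (Bst K : Set ℕ) := by
      tauto
    rcases hmem with h | h
    · exact Or.inl ⟨hn, h, hcl⟩
    · exact Or.inr ⟨hn, h, hcl⟩
  have hT1 : phi (K + 1) * rs (Bst (K + 1)) ≤ 1 := le_trans (Bst_upper (K + 1)) (sK_le_one (K + 1))
  have hT2 : phi (K + 1) * rs (Bst K) ≤ 1 :=
    le_trans (mul_le_mul_of_nonneg_right (phi_succ_le K) (rs_nonneg _))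
      (le_trans (Bst_upper K) (sK_le_one K))
  filter_upwards [eventually_const_le (C := C1 + C2) (ε := 1 / (K - 1)) (by positivity)] with x hx
  have h1 := hC1 x
  have h2 := hC2 x
  rw [hc1, abs_le] at h1 h2
  have h3 := cnt_Exc hK x
  have h4 : (cnt (symmDiff (Mix K l) (Mix K (l + 1))) x : ℝ) ≤
      (cnt L1 x + cnt L2 x) + cnt (Exc K) x := by exact_mod_cast hle x
  have hxnn : (0 : ℝ) ≤ x := by positivity
  have e0 : (0 : ℝ) ≤ 1 / (K : ℝ) := by positivity
  have e1 : phi (K + 1) * (((1 : ℕ) : ℝ) / K) * rs (Bst (K + 1)) * x ≤ 1 / (K - 1) * x := by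
    apply mul_le_mul_of_nonneg_right _ hxnn
    have e3 : 1 / (K : ℝ) ≤ 1 / (K - 1) := one_div_le_one_div_of_le hK1 (by linarith)
    have e4 := mul_le_mul_of_nonneg_left hT1 e0
    push_cast
    nlinarith
  have e2 : phi (K + 1) * (((1 : ℕ) : ℝ) / K) * rs (Bst K) * x ≤ 1 / (K - 1) * x := by
    apply mul_le_mul_of_nonneg_right _ hxnn
    have e3 : 1 / (K : ℝ) ≤ 1 / (K - 1) := one_div_le_one_div_of_le hK1 (by linarith)
    have e4 := mul_le_mul_of_nonneg_left hT2 e0
    push_cast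
    nlinarith
  have e5 : (5 : ℝ) / (K - 1) * x = 5 * (1 / (K - 1) * x) := by ring
  have e6 : (2 : ℝ) / (K - 1) * x = 2 * (1 / (K - 1) * x) := by ring
  rw [e5]
  rw [e6] at h3
  have h5 := h1.2
  have h6 := h2.2
  linarith

/-- The sequence of pairs `(K, l)` with `l < K`, in order. -/
def st : ℕ → ℕ × ℕ
  | 0 => (2, 0)
  | j + 1 => if (st j).2 + 1 < (st j).1 then ((st j).1, (st j).2 + 1) else ((st j).1 + 1, 0)

theorem st_inv (j : ℕ) : 2 ≤ (st j).1 ∧ (st j).2 < (st j).1 ∧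
    2 * j + 2 + (st j).1 = (st j).1 * (st j).1 + 2 * (st j).2 := by
  induction j with
  | zero => simp [st]
  | succ j ih =>
    obtain ⟨h1, h2, h3⟩ := ih
    by_cases h : (st j).2 + 1 < (st j).1
    · have h4 : st (j + 1) = ((st j).1, (st j).2 + 1) := by
        rw [st, if_pos h]
      rw [h4]
      refine ⟨h1, h, ?_⟩
      simp only
      omega
    · have h4 : st (j + 1) = ((st j).1 + 1, 0) := by
        rw [st, if_neg h]
      rw [h4]
      refine ⟨by simp only; omega, by simp only; omega, ?_⟩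
      simp only
      have h5 : (st j).2 + 1 = (st j).1 := by omega
      nlinarith

theorem st_mono : Monotone (fun j => (st j).1) := by
  apply monotone_nat_of_le_succ
  intro j
  simp only [st]
  split_ifs <;> simp

theorem st_tendsto : Tendsto (fun j => (st j).1) atTop atTop := by
  apply tendsto_atTop_atTop_of_monotone st_mono
  intro b
  refine ⟨b * b, ?_⟩
  by_contra hcon
  push Not at hcon
  obtain ⟨h1, h2, h3⟩ := st_inv (b * b)
  nlinarith

/-- **Attainment**: there is a GP-free set whose density is exactly `sigma`. -/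
theorem attained : ∃ S : Set ℕ, GPFree S ∧ HasDensity S sigma := by
  have hη : Tendsto (fun j => 5 / (((st j).1 : ℝ) - 1)) atTop (𝓝 0) := by
    have h1 : Tendsto (fun K : ℕ => (K : ℝ) - 1) atTop atTop :=
      tendsto_atTop_add_const_right _ (-1) tendsto_natCast_atTop_atTop
    exact (h1.comp st_tendsto).const_div_atTop 5
  refine glue (A := fun j => Mix (st j).1 (st j).2) (K := fun j => (st j).1 + 1)
    (η := fun j => 5 / (((st j).1 : ℝ) - 1)) (σ := sigma) ?_ ?_ ?_ ?_ ?_ hη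
  · intro i j hij
    exact Nat.succ_le_succ (st_mono hij)
  · intro j; exact Mix_free _ _
  · intro j n hn; exact Mix_sq hn
  · intro j
    obtain ⟨h1, h2, _⟩ := st_inv j
    exact Mix_approx h1 h2.le
  · intro j
    obtain ⟨h1, h2, _⟩ := st_inv j
    have h3 := Mix_step h1 h2
    by_cases h : (st j).2 + 1 < (st j).1
    · have h4 : st (j + 1) = ((st j).1, (st j).2 + 1) := by rw [st, if_pos h]
      rw [h4]
      exact h3
    · have h4 : st (j + 1) = ((st j).1 + 1, 0) := by rw [st, if_neg h]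
      have h5 : (st j).2 + 1 = (st j).1 := by omega
      rw [h4]
      simp only
      rw [← Mix_top _ (by omega)]
      rw [h5] at h3
      exact h3

end Pool.Agent.Lib.MP_f8fa1d_co
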