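import Pool.Agent.Lib.MP_f8fa1d_co.Split

/-!
# Counting integers with prescribed smooth part
-/

namespace Pool.Agent.Lib.MP_f8fa1d_co

open Filter Topology

/-- The product of the primes below `K`. -/
def P (K : ℕ) : ℕ := ∏ p ∈ K.primesBelow, p

/-- `∏ (1 - 1/p)` over the primes `p < K`. -/
noncomputable def phi (K : ℕ) : ℝ := ∏ p ∈ K.primesBelow, (1 - 1 / (p : ℝ))

theorem P_pos (K : ℕ) : 0 < P K :=
  Finset.prod_pos fun _ hp => (Nat.prime_of_mem_primesBelow hp).pos

theorem primeFactors_P (K : ℕ) : (P K).primeFactors = K.primesBelow :=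
  Nat.primeFactors_prod fun _ hp => Nat.prime_of_mem_primesBelow hp

theorem totient_P (K : ℕ) : ((P K).totient : ℝ) = P K * phi K := by
  have h := Nat.totient_eq_mul_prod_factors (P K)
  rw [primeFactors_P] at h
  have h2 : (((P K).totient : ℚ) : ℝ) = ((P K * ∏ p ∈ K.primesBelow, (1 - (p : ℚ)⁻¹) : ℚ) : ℝ) := by
    rw [h]
  push_cast at h2
  rw [h2]
  unfold phi
  congr 1
  apply Finset.prod_congr rfl
  intro p _
  rw [one_div]

theorem rough_iff {K m : ℕ} : Rough K m ↔ m ≠ 0 ∧ (P K).Coprime m := by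
  unfold Rough
  constructor
  · rintro ⟨h0, h⟩
    refine ⟨h0, ?_⟩
    unfold P
    apply Nat.Coprime.prod_left
    intro p hp
    rw [(Nat.prime_of_mem_primesBelow hp).coprime_iff_not_dvd]
    intro hd
    have := h p (Nat.prime_of_mem_primesBelow hp) hd
    have := Nat.lt_of_mem_primesBelow hp
    omega
  · rintro ⟨h0, h⟩
    refine ⟨h0, fun p hp hd => ?_⟩
    by_contra hK
    have h1 : p ∈ K.primesBelow := Nat.mem_primesBelow.2 ⟨by omega, hp⟩
    have h2 : p ∣ P K := Finset.dvd_prod_of_mem _ h1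
    exact (Nat.not_coprime_of_dvd_of_dvd hp.one_lt h2 hd) h

theorem count_mul_period {q : ℕ → Prop} [DecidablePred q] {T : ℕ} (hq : Function.Periodic q T)
    (k : ℕ) : Nat.count q (T * k) = k * Nat.count q T := by
  induction k with
  | zero => simp
  | succ k ih =>
    have h1 : ∀ j, q (T * k + j) = q j := by
      intro j
      have := (hq.nat_mul k) j
      simp only [Nat.cast_id] at this
      rw [add_comm, mul_comm]; exact this
    rw [mul_add, mul_one, Nat.count_add, ih]
    simp only [h1]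
    ring

theorem count_period_bound {q : ℕ → Prop} [DecidablePred q] {T : ℕ} (hT : 0 < T)
    (hq : Function.Periodic q T) (x : ℕ) :
    |(Nat.count q x : ℝ) - (Nat.count q T : ℝ) / T * x| ≤ T := by
  have hx : x = T * (x / T) + x % T := (Nat.div_add_mod x T).symm
  set k := x / T with hk
  set r := x % T with hr
  have hrT : r < T := Nat.mod_lt _ hT
  have h1 : ∀ j, q (T * k + j) = q j := by
    intro j
    have := (hq.nat_mul k) j
    simp only [Nat.cast_id] at this
    rw [add_comm, mul_comm]; exact this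
  have h2 : Nat.count q x = k * Nat.count q T + Nat.count q r := by
    rw [hx, Nat.count_add, count_mul_period hq]
    simp only [h1]
  have hT' : (0 : ℝ) < T := by exact_mod_cast hT
  have h3 : (x : ℝ) = T * k + r := by exact_mod_cast hx
  rw [h2, h3]
  push_cast
  have h4 : (k : ℝ) * (Nat.count q T : ℝ) + (Nat.count q r : ℝ) -
      (Nat.count q T : ℝ) / T * (T * k + r) = (Nat.count q r : ℝ) - (Nat.count q T : ℝ) / T * r := by
    field_simp
    ring
  rw [h4]
  have h5 : (Nat.count q r : ℝ) ≤ T := by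
    have : Nat.count q r ≤ T := le_trans (Nat.count_le _) hrT.le
    exact_mod_cast this
  have h6 : (0 : ℝ) ≤ (Nat.count q T : ℝ) / T * r := by positivity
  have h7 : (Nat.count q T : ℝ) / T * r ≤ T := by
    have h8 : (Nat.count q T : ℝ) / T ≤ 1 := by
      rw [div_le_one hT']
      exact_mod_cast (Nat.count_le q : Nat.count q T ≤ T)
    have h9 : (r : ℝ) ≤ T := by exact_mod_cast hrT.le
    calc (Nat.count q T : ℝ) / T * r ≤ 1 * T := by
          apply mul_le_mul h8 h9 (by positivity) (by norm_num)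
      _ = T := one_mul _
  rw [abs_le]
  constructor
  · have : (0 : ℝ) ≤ (Nat.count q r : ℝ) := by positivity
    linarith
  · linarith

open Classical in
/-- Count over a full period of the rough integers whose block index satisfies `c`. -/
theorem count_class (K L : ℕ) (c : ℕ → Prop) (i : ℕ) (hi : i ≤ L) :
    Nat.count (fun m => (P K).Coprime m ∧ c ((m / P K) % L)) (P K * i) =
      (P K).totient * Nat.count c i := by
  induction i with
  | zero => simp
  | succ i ih =>
    rw [mul_add, mul_one, Nat.count_add, ih (by omega), Nat.count_succ, mul_add]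
    congr 1
    have h1 : Nat.count (fun k => (P K).Coprime (P K * i + k) ∧ c ((P K * i + k) / P K % L)) (P K) =
        Nat.count (fun k => (P K).Coprime k ∧ c i) (P K) := by
      rw [Nat.count_eq_card_filter_range, Nat.count_eq_card_filter_range]
      congr 1
      apply Finset.filter_congr
      intro k hk
      rw [Finset.mem_range] at hk
      have h2 : (P K * i + k) / P K = i := by
        rw [Nat.mul_add_div (P_pos K), Nat.div_eq_of_lt hk, add_zero]
      rw [h2, Nat.mod_eq_of_lt (by omega : i < L)]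
      have h3 : (P K).Coprime (P K * i + k) ↔ (P K).Coprime k := by
        rw [add_comm]
        exact Nat.coprime_add_mul_left_right (P K) k i
      rw [h3]
    rw [h1]
    by_cases hc : c i
    · simp only [hc, and_true, if_true, mul_one]
      rw [Nat.totient, Nat.count_eq_card_filter_range]
    · simp only [hc, and_false, if_false, mul_zero]
      exact Nat.count_false _

open Classical in
theorem class_periodic (K L : ℕ) (c : ℕ → Prop) :
    Function.Periodic (fun m => (P K).Coprime m ∧ c ((m / P K) % L)) (P K * L) := by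
  intro m
  simp only [eq_iff_iff]
  have h1 : (P K).Coprime (m + P K * L) ↔ (P K).Coprime m :=
    Nat.coprime_add_mul_left_right (P K) m L
  rw [h1, Nat.add_mul_div_left _ _ (P_pos K), Nat.add_mod_right]

open Classical in
/-- Rough integers whose block index satisfies `c`. -/
theorem cnt_class (K : ℕ) {L : ℕ} (hL : 0 < L) (c : ℕ → Prop) (y : ℕ) :
    |(cnt {m | Rough K m ∧ c ((m / P K) % L)} y : ℝ) -
      phi K * ((Nat.count c L : ℝ) / L) * y| ≤ P K * L + 2 := by
  have hPL : 0 < P K * L := Nat.mul_pos (P_pos K) hL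
  have h1 := count_period_bound hPL (class_periodic K L c) (y + 1)
  have h2 : (Nat.count (fun m => (P K).Coprime m ∧ c ((m / P K) % L)) (P K * L) : ℝ) /
      ((P K * L : ℕ) : ℝ) = phi K * ((Nat.count c L : ℝ) / L) := by
    rw [count_class K L c L le_rfl]
    push_cast
    rw [totient_P]
    have := P_pos K
    have h3 : (P K : ℝ) ≠ 0 := by exact_mod_cast this.ne'
    have h4 : (L : ℝ) ≠ 0 := by exact_mod_cast hL.ne'
    field_simp
  rw [h2] at h1
  have h5 : (cnt {m | Rough K m ∧ c ((m / P K) % L)} y : ℝ) ≤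
      Nat.count (fun m => (P K).Coprime m ∧ c ((m / P K) % L)) (y + 1) := by
    rw [cnt_eq, Nat.count_eq_card_filter_range]
    norm_cast
    apply Finset.card_le_card
    intro m hm
    simp only [Finset.mem_filter, Finset.mem_Icc, Set.mem_ofPred_eq, Finset.mem_range] at hm ⊢
    exact ⟨by omega, (rough_iff.1 hm.2.1).2, hm.2.2⟩
  have h6 : (Nat.count (fun m => (P K).Coprime m ∧ c ((m / P K) % L)) (y + 1) : ℝ) ≤
      cnt {m | Rough K m ∧ c ((m / P K) % L)} y + 1 := by
    rw [cnt_eq, Nat.count_eq_card_filter_range]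
    norm_cast
    refine le_trans (Finset.card_le_card
      (t := (Finset.Icc 1 y).filter (· ∈ {m | Rough K m ∧ c ((m / P K) % L)}) ∪ {0}) ?_)
      (le_trans (Finset.card_union_le _ _) (by simp))
    intro m hm
    simp only [Finset.mem_filter, Finset.mem_Icc, Set.mem_ofPred_eq, Finset.mem_range,
      Finset.mem_union, Finset.mem_singleton] at hm ⊢
    by_cases hm0 : m = 0
    · right; exact hm0
    · left
      exact ⟨⟨by omega, by omega⟩, rough_iff.2 ⟨hm0, hm.2.1⟩, hm.2.2⟩
  have h7 : 0 ≤ phi K * ((Nat.count c L : ℝ) / L) ∧ phi K * ((Nat.count c L : ℝ) / L) ≤ 1 := by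
    have ha : 0 ≤ phi K := by
      unfold phi
      apply Finset.prod_nonneg
      intro p hp
      have : (1 : ℝ) ≤ p := by exact_mod_cast (Nat.prime_of_mem_primesBelow hp).one_lt.le
      have : 1 / (p : ℝ) ≤ 1 := by rw [div_le_one (by linarith)]; exact this
      linarith
    have hb : phi K ≤ 1 := by
      unfold phi
      apply Finset.prod_le_one
      · intro p hp
        have : (1 : ℝ) ≤ p := by exact_mod_cast (Nat.prime_of_mem_primesBelow hp).one_lt.le
        have : 1 / (p : ℝ) ≤ 1 := by rw [div_le_one (by linarith)]; exact this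
        linarith
      · intro p hp
        have : 0 ≤ 1 / (p : ℝ) := by positivity
        linarith
    have hc : (Nat.count c L : ℝ) / L ≤ 1 := by
      have hL' : (0 : ℝ) < L := by exact_mod_cast hL
      rw [div_le_one hL']
      exact_mod_cast (Nat.count_le c : Nat.count c L ≤ L)
    have hd : 0 ≤ (Nat.count c L : ℝ) / L := by positivity
    exact ⟨mul_nonneg ha hd, mul_le_one₀ hb hd hc⟩
  push_cast at h1
  rw [abs_le] at h1 ⊢
  constructor
  · nlinarith [h1.1, h1.2]
  · nlinarith [h1.1, h1.2]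

theorem phi_pos (K : ℕ) : 0 < phi K := by
  unfold phi
  apply Finset.prod_pos
  intro p hp
  have : (1 : ℝ) < p := by exact_mod_cast (Nat.prime_of_mem_primesBelow hp).one_lt
  have : 1 / (p : ℝ) < 1 := by rw [div_lt_one (by linarith)]; exact this
  linarith

theorem phi_le_one (K : ℕ) : phi K ≤ 1 := by
  unfold phi
  apply Finset.prod_le_one
  · intro p hp
    have : (1 : ℝ) ≤ p := by exact_mod_cast (Nat.prime_of_mem_primesBelow hp).one_lt.le
    have : 1 / (p : ℝ) ≤ 1 := by rw [div_le_one (by linarith)]; exact this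
    linarith
  · intro p hp
    have : 0 ≤ 1 / (p : ℝ) := by positivity
    linarith

/-- Positive integers whose `K`-smooth part lies in `B` and whose `K`-rough part satisfies `q`. -/
def Lev (K : ℕ) (B : Set ℕ) (q : ℕ → Prop) : Set ℕ := {n | 0 < n ∧ sm K n ∈ B ∧ q (ro K n)}

open Classical in
theorem cnt_Lev (K : ℕ) (B : Finset ℕ) (hB : (B : Set ℕ) ⊆ K.smoothNumbers) (q : ℕ → Prop) (x : ℕ) :
    cnt (Lev K B q) x = ∑ b ∈ B, cnt {m | Rough K m ∧ q m} (x / b) := by
  have hcard : ∀ b ∈ B, cnt {m | Rough K m ∧ q m} (x / b) =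
      (((Finset.Icc 1 (x / b)).filter (fun m => Rough K m ∧ q m)).image (fun m => b * m)).card := by
    intro b hb
    rw [Finset.card_image_of_injective, cnt_eq]
    · congr 1
      ext m
      simp only [Finset.mem_filter, Set.mem_ofPred_eq]
    · intro m m' h
      have hb0 : b ≠ 0 := Nat.ne_zero_of_mem_smoothNumbers (hB hb)
      exact Nat.eq_of_mul_eq_mul_left (Nat.pos_of_ne_zero hb0) h
  rw [Finset.sum_congr rfl hcard, ← Finset.card_biUnion, cnt_eq]
  · congr 1
    ext n
    simp only [Finset.mem_filter, Finset.mem_Icc, Lev, Set.mem_ofPred_eq, Finset.mem_biUnion,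
      Finset.mem_image, Finset.mem_coe]
    constructor
    · rintro ⟨⟨h1, h2⟩, h3, h4, h5⟩
      refine ⟨sm K n, h4, ro K n, ⟨⟨ro_pos _ _, ?_⟩, ro_rough K n, h5⟩, sm_mul_ro h3.ne'⟩
      rw [Nat.le_div_iff_mul_le (sm_pos _ _), mul_comm, sm_mul_ro h3.ne']
      exact h2
    · rintro ⟨b, hb, m, ⟨⟨h1, h2⟩, h3, h4⟩, rfl⟩
      have hbK := hB hb
      have hb0 : b ≠ 0 := Nat.ne_zero_of_mem_smoothNumbers hbK
      rw [sm_mul hbK h3, ro_mul hbK h3]
      have h5 : 0 < b * m := Nat.mul_pos (Nat.pos_of_ne_zero hb0) h1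
      refine ⟨⟨h5, ?_⟩, h5, hb, h4⟩
      rw [Nat.le_div_iff_mul_le (Nat.pos_of_ne_zero hb0)] at h2
      rw [mul_comm]; exact h2
  · intro b hb b' hb' hne
    rw [Function.onFun, Finset.disjoint_left]
    intro n hn hn'
    simp only [Finset.mem_image, Finset.mem_filter] at hn hn'
    obtain ⟨m, hm, rfl⟩ := hn
    obtain ⟨m', hm', h⟩ := hn'
    apply hne
    rw [← sm_mul (hB hb) hm.2.1, ← h, sm_mul (hB hb') hm'.2.1]

/-- Sum of reciprocals. -/
noncomputable def rs (B : Finset ℕ) : ℝ := ∑ b ∈ B, 1 / (b : ℝ)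

theorem rs_nonneg (B : Finset ℕ) : 0 ≤ rs B := Finset.sum_nonneg fun b _ => by positivity

open Classical in
/-- Asymptotic count of a level set with a class condition. -/
theorem cnt_Lev_class (K : ℕ) {L : ℕ} (hL : 0 < L) (c : ℕ → Prop) (B : Finset ℕ)
    (hB : (B : Set ℕ) ⊆ K.smoothNumbers) :
    ∃ C : ℝ, ∀ x : ℕ, |(cnt (Lev K B (fun m => c ((m / P K) % L))) x : ℝ) -
      phi K * ((Nat.count c L : ℝ) / L) * rs B * x| ≤ C := by
  set δ : ℝ := phi K * ((Nat.count c L : ℝ) / L) with hδ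
  have hδ0 : 0 ≤ δ := by
    have := (phi_pos K).le
    positivity
  have hδ1 : δ ≤ 1 := by
    have hL' : (0 : ℝ) < L := by exact_mod_cast hL
    have hc : (Nat.count c L : ℝ) / L ≤ 1 := by
      rw [div_le_one hL']
      exact_mod_cast (Nat.count_le c : Nat.count c L ≤ L)
    exact mul_le_one₀ (phi_le_one K) (by positivity) hc
  refine ⟨∑ b ∈ B, ((P K : ℝ) * L + 3), fun x => ?_⟩
  rw [cnt_Lev K B hB]
  unfold rs
  push_cast
  rw [Finset.mul_sum, Finset.sum_mul, ← Finset.sum_sub_distrib]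
  refine le_trans (Finset.abs_sum_le_sum_abs _ _) ?_
  apply Finset.sum_le_sum
  intro b hb
  have hb0 : 0 < b := Nat.pos_of_ne_zero (Nat.ne_zero_of_mem_smoothNumbers (hB hb))
  have hb0' : (0 : ℝ) < b := by exact_mod_cast hb0
  have h1 := cnt_class K hL c (x / b)
  rw [← hδ] at h1
  have h2 : ((x / b : ℕ) : ℝ) ≤ (x : ℝ) / b := Nat.cast_div_le
  have h3 : (x : ℝ) / b < ((x / b : ℕ) : ℝ) + 1 := by
    rw [div_lt_iff₀ hb0']
    have : x < (x / b + 1) * b := by
      have := Nat.lt_succ_self (x / b)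
      rw [Nat.div_lt_iff_lt_mul hb0] at this
      exact this
    exact_mod_cast this
  have h4 : δ * (1 / (b : ℝ)) * x = δ * ((x : ℝ) / b) := by ring
  rw [h4]
  rw [abs_le] at h1 ⊢
  constructor
  · nlinarith [h1.1, h1.2]
  · nlinarith [h1.1, h1.2]

/-- Multiples of a square of an integer `≥ K`. -/
def Sq (K : ℕ) : Set ℕ := {n | ∃ d, K ≤ d ∧ d ^ 2 ∣ n}

theorem cnt_Sq {K : ℕ} (hK : 2 ≤ K) (x : ℕ) : (cnt (Sq K) x : ℝ) ≤ x / (K - 1) := by
  classical
  have h1 : cnt (Sq K) x ≤ ∑ d ∈ Finset.Ioc (K - 1) (x + K), x / d ^ 2 := by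
    have h2 : ∀ d ∈ Finset.Ioc (K - 1) (x + K), x / d ^ 2 =
        ((Finset.Icc 1 x).filter (fun n => d ^ 2 ∣ n)).card := by
      intro d hd
      have : Finset.Icc 1 x = Finset.Ioc 0 x := rfl
      rw [this, Nat.Ioc_filter_dvd_card_eq_div]
    rw [Finset.sum_congr rfl h2, cnt_eq]
    refine le_trans (Finset.card_le_card ?_) Finset.card_biUnion_le
    intro n hn
    rw [Finset.mem_filter, Finset.mem_Icc] at hn
    obtain ⟨⟨h3, h4⟩, d, h5, h6⟩ := hn
    rw [Finset.mem_biUnion]
    refine ⟨d, Finset.mem_Ioc.2 ⟨by omega, ?_⟩, Finset.mem_filter.2 ⟨Finset.mem_Icc.2 ⟨h3, h4⟩, h6⟩⟩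
    have h7 : d ^ 2 ≤ n := Nat.le_of_dvd (by omega) h6
    have h8 : d ≤ d ^ 2 := Nat.le_self_pow (by norm_num) d
    omega
  have h3 : ((∑ d ∈ Finset.Ioc (K - 1) (x + K), x / d ^ 2 : ℕ) : ℝ) ≤
      x * ∑ d ∈ Finset.Ioc (K - 1) (x + K), ((d : ℝ) ^ 2)⁻¹ := by
    push_cast
    rw [Finset.mul_sum]
    apply Finset.sum_le_sum
    intro d _
    refine le_trans Nat.cast_div_le ?_
    push_cast
    rw [div_eq_mul_inv]
  have h4 := sum_Ioc_inv_sq_le_sub (α := ℝ) (k := K - 1) (n := x + K) (by omega) (by omega)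
  have h5 : ((K - 1 : ℕ) : ℝ) = (K : ℝ) - 1 := by
    rw [Nat.cast_sub (by omega)]; simp
  rw [h5] at h4
  have h6 : (0 : ℝ) ≤ (((x + K : ℕ) : ℝ))⁻¹ := by positivity
  calc (cnt (Sq K) x : ℝ) ≤ ((∑ d ∈ Finset.Ioc (K - 1) (x + K), x / d ^ 2 : ℕ) : ℝ) := by
        exact_mod_cast h1
    _ ≤ x * ∑ d ∈ Finset.Ioc (K - 1) (x + K), ((d : ℝ) ^ 2)⁻¹ := h3
    _ ≤ x * ((K : ℝ) - 1)⁻¹ := by
        apply mul_le_mul_of_nonneg_left _ (by positivity)
        linarith
    _ = x / (K - 1) := by rw [div_eq_mul_inv]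

end Pool.Agent.Lib.MP_f8fa1d_co
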