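import Pool.Agent.Lib.MP_f8fa1d_co.Statement

/-!
# Sets of positive integers without three-term geometric progressions: basic facts
-/

namespace Pool.Agent.Lib.MP_f8fa1d_co

open Filter Topology

theorem gpFree_iff {A : Set ℕ} :
    GPFree A ↔ (∀ n ∈ A, 0 < n) ∧ ∀ a ∈ A, ∀ b ∈ A, ∀ c ∈ A, a * c = b * b → a = b := by
  constructor
  · rintro ⟨h0, h⟩
    refine ⟨h0, ?_⟩
    -- a key special case
    have key : ∀ a ∈ A, ∀ b ∈ A, ∀ c ∈ A, a * c = b * b → ¬ a < b := by
      intro a ha b hb c hc habc hab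
      apply h
      have ha0 : (0 : ℝ) < a := by exact_mod_cast h0 a ha
      refine ⟨a, b, c, (b : ℝ) / a, ha, hb, hc, ?_, ?_, ?_⟩
      · rw [one_lt_div ha0]; exact_mod_cast hab
      · field_simp
      · have : (a : ℝ) * c = b * b := by exact_mod_cast habc
        field_simp
        linarith
    intro a ha b hb c hc habc
    rcases lt_trichotomy a b with h1 | h1 | h1
    · exact absurd h1 (key a ha b hb c hc habc)
    · exact h1
    · exfalso
      have hb0 := h0 b hb
      have hcb : c < b := by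
        by_contra hcb
        push Not at hcb
        have : b * b < a * c := by nlinarith
        omega
      exact key c hc b hb a ha (by rw [mul_comm]; exact habc) hcb
  · rintro ⟨h0, h⟩
    refine ⟨h0, ?_⟩
    rintro ⟨a, b, c, r, ha, hb, hc, hr, h1, h2⟩
    have ha0 : (0 : ℝ) < a := by exact_mod_cast h0 a ha
    have h3 : (a : ℝ) * c = b * b := by rw [h1, h2]; ring
    have h4 : a = b := h a ha b hb c hc (by exact_mod_cast h3)
    subst h4
    have : (a : ℝ) * r = a * 1 := by rw [← h1]; ring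
    have := mul_left_cancel₀ ha0.ne' this
    linarith

theorem GPFree.pos {A : Set ℕ} (h : GPFree A) {n : ℕ} (hn : n ∈ A) : 0 < n := h.1 n hn

theorem GPFree.eq {A : Set ℕ} (h : GPFree A) {a b c : ℕ} (ha : a ∈ A) (hb : b ∈ A) (hc : c ∈ A)
    (habc : a * c = b * b) : a = b := (gpFree_iff.1 h).2 a ha b hb c hc habc

theorem GPFree.mono {A B : Set ℕ} (h : GPFree A) (hBA : B ⊆ A) : GPFree B := by
  rw [gpFree_iff] at h ⊢
  exact ⟨fun n hn => h.1 n (hBA hn), fun a ha b hb c hc => h.2 a (hBA ha) b (hBA hb) c (hBA hc)⟩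

/-- The number of elements of `A` in `{1, …, x}`. -/
noncomputable def cnt (A : Set ℕ) (x : ℕ) : ℕ := (A ∩ Set.Icc 1 x).ncard

open Classical in
theorem cnt_eq (A : Set ℕ) (x : ℕ) : cnt A x = ((Finset.Icc 1 x).filter (· ∈ A)).card := by
  unfold cnt
  rw [← Set.ncard_coe_finset]
  congr 1
  ext n
  simp only [Set.mem_inter_iff, Set.mem_Icc, Finset.coe_filter, Finset.mem_Icc,
    Set.mem_ofPred_eq]
  tauto

theorem cnt_finite (A : Set ℕ) (x : ℕ) : (A ∩ Set.Icc 1 x).Finite :=
  (Set.finite_Icc 1 x).subset Set.inter_subset_right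

theorem cnt_mono {A B : Set ℕ} (h : ∀ n, 0 < n → n ∈ A → n ∈ B) (x : ℕ) :
    cnt A x ≤ cnt B x := by
  unfold cnt
  apply Set.ncard_le_ncard _ (cnt_finite B x)
  intro n hn
  exact ⟨h n (by have := hn.2.1; omega) hn.1, hn.2⟩

theorem cnt_congr {A B : Set ℕ} (h : ∀ n, 0 < n → (n ∈ A ↔ n ∈ B)) (x : ℕ) :
    cnt A x = cnt B x :=
  le_antisymm (cnt_mono (fun n hn => (h n hn).1) x) (cnt_mono (fun n hn => (h n hn).2) x)

theorem cnt_union_le (A B : Set ℕ) (x : ℕ) : cnt (A ∪ B) x ≤ cnt A x + cnt B x := by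
  unfold cnt
  rw [Set.union_inter_distrib_right]
  exact Set.ncard_union_le _ _

theorem cnt_union {A B : Set ℕ} (h : Disjoint A B) (x : ℕ) :
    cnt (A ∪ B) x = cnt A x + cnt B x := by
  unfold cnt
  rw [Set.union_inter_distrib_right]
  exact Set.ncard_union_eq (h.mono Set.inter_subset_left Set.inter_subset_left)
    (cnt_finite A x) (cnt_finite B x)

theorem cnt_le (A : Set ℕ) (x : ℕ) : cnt A x ≤ x := by
  calc cnt A x ≤ (Set.Icc 1 x).ncard := Set.ncard_le_ncard Set.inter_subset_right (Set.finite_Icc 1 x)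
    _ = x := by
      rw [← Finset.coe_Icc, Set.ncard_coe_finset]
      simp

/-- If `A` is contained in `B ∪ E` on positive integers then the count of `A` is at most the
count of `B` plus the count of `E`. -/
theorem cnt_le_add {A B E : Set ℕ} (h : ∀ n, 0 < n → n ∈ A → n ∉ E → n ∈ B) (x : ℕ) :
    cnt A x ≤ cnt B x + cnt E x := by
  refine le_trans (cnt_mono (B := B ∪ E) ?_ x) (cnt_union_le B E x)
  intro n hn hA
  by_cases hE : n ∈ E
  · exact Or.inr hE
  · exact Or.inl (h n hn hA hE)

theorem ncard_Ico_eq (A : Set ℕ) (n : ℕ) : (A ∩ Set.Ico 1 (n + 1)).ncard = cnt A n := by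
  unfold cnt
  congr 1
  ext m
  simp

/-- `A` has density `d` up to an error `ε`. -/
def Approx (A : Set ℕ) (d ε : ℝ) : Prop :=
  ∀ᶠ x : ℕ in atTop, |(cnt A x : ℝ) - d * x| ≤ ε * x

theorem hasDensity_iff {A : Set ℕ} {d : ℝ} :
    HasDensity A d ↔ ∀ ε > 0, Approx A d ε := by
  unfold HasDensity
  rw [← tendsto_add_atTop_iff_nat 1]
  simp only [ncard_Ico_eq]
  have h1 : Tendsto (fun n : ℕ => ((n : ℝ) + 1) / n) atTop (𝓝 1) := by
    have : Tendsto (fun n : ℕ => 1 + 1 / (n : ℝ)) atTop (𝓝 (1 + 0)) :=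
      tendsto_const_nhds.add tendsto_one_div_atTop_nhds_zero_nat
    rw [add_zero] at this
    refine this.congr' ?_
    filter_upwards [eventually_gt_atTop 0] with n hn
    have : (n : ℝ) ≠ 0 := by exact_mod_cast hn.ne'
    field_simp
  have h2 : Tendsto (fun n : ℕ => (n : ℝ) / ((n : ℝ) + 1)) atTop (𝓝 1) :=
    tendsto_natCast_div_add_atTop 1
  have h3 : Tendsto (fun n : ℕ => (cnt A n : ℝ) / ((n + 1 : ℕ) : ℝ)) atTop (𝓝 d) ↔
      Tendsto (fun n : ℕ => (cnt A n : ℝ) / n) atTop (𝓝 d) := by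
    constructor
    · intro h
      have := h.mul h1
      rw [mul_one] at this
      refine this.congr' ?_
      filter_upwards [eventually_gt_atTop 0] with n hn
      have h0 : (n : ℝ) ≠ 0 := by exact_mod_cast hn.ne'
      have h0' : (n : ℝ) + 1 ≠ 0 := by positivity
      push_cast
      field_simp
    · intro h
      have := h.mul h2
      rw [mul_one] at this
      refine this.congr' ?_
      filter_upwards [eventually_gt_atTop 0] with n hn
      have h0 : (n : ℝ) ≠ 0 := by exact_mod_cast hn.ne'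
      have h0' : (n : ℝ) + 1 ≠ 0 := by positivity
      push_cast
      field_simp
  rw [h3, Metric.tendsto_atTop]
  constructor
  · intro h ε hε
    obtain ⟨N, hN⟩ := h ε hε
    filter_upwards [eventually_ge_atTop N, eventually_gt_atTop 0] with n hn hn0
    have := hN n hn
    rw [Real.dist_eq] at this
    have h0 : (0 : ℝ) < n := by exact_mod_cast hn0
    have h4 : (cnt A n : ℝ) - d * n = ((cnt A n : ℝ) / n - d) * n := by field_simp
    rw [h4, abs_mul, abs_of_pos h0]
    exact mul_le_mul_of_nonneg_right this.le h0.le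
  · intro h ε hε
    have := h (ε / 2) (by positivity)
    unfold Approx at this
    obtain ⟨N, hN⟩ := eventually_atTop.1 this
    refine ⟨max N 1, fun n hn => ?_⟩
    have h5 := hN n (le_trans (le_max_left _ _) hn)
    have h0 : (0 : ℝ) < n := by
      have : 1 ≤ n := le_trans (le_max_right _ _) hn
      exact_mod_cast this
    rw [Real.dist_eq]
    have h4 : (cnt A n : ℝ) - d * n = ((cnt A n : ℝ) / n - d) * n := by field_simp
    rw [h4, abs_mul, abs_of_pos h0] at h5
    have := le_of_mul_le_mul_right h5 h0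
    linarith

end Pool.Agent.Lib.MP_f8fa1d_co
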