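import Pool.Agent.Lib.MP_f8fa1d_co.Thin

/-!
# Finite two-sided approximations of the extremal density
-/

namespace Pool.Agent.Lib.MP_f8fa1d_co

open Filter Topology

theorem optDensity_eq (k N : ℕ) : optDensity k N =
    sSup {x : ℝ | ∃ B : Finset ℕ, B ⊆ Nat.smoothNumbersUpTo N k ∧ GPFree (B : Set ℕ) ∧
    x = phi k * rs B} := rfl

theorem tailDensity_eq (k N : ℕ) : tailDensity k N =
    1 - phi k * rs (Nat.smoothNumbersUpTo N k) := rfl

theorem upTo_sub (k N : ℕ) : ((Nat.smoothNumbersUpTo N k : Finset ℕ) : Set ℕ) ⊆ k.smoothNumbers := by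
  intro n hn
  exact (Nat.mem_smoothNumbersUpTo.1 hn).2

theorem sub_trans {k N : ℕ} {B : Finset ℕ} (h : B ⊆ Nat.smoothNumbersUpTo N k) :
    (B : Set ℕ) ⊆ k.smoothNumbers := fun _ hn => upTo_sub k N (h hn)

theorem le_optDensity {k N : ℕ} {B : Finset ℕ} (hB : B ⊆ Nat.smoothNumbersUpTo N k)
    (hG : GPFree (B : Set ℕ)) : phi k * rs B ≤ optDensity k N := by
  rw [optDensity_eq]
  apply le_csSup
  · refine ⟨sK k, ?_⟩
    rintro x ⟨B, hB, hG, rfl⟩
    exact mul_le_mul_of_nonneg_left (rs_le_W (sub_trans hB) hG) (phi_pos k).le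
  · exact ⟨B, hB, hG, rfl⟩

theorem optDensity_lower {k : ℕ} (hk : 2 ≤ k) (N : ℕ) :
    optDensity k N - 1 / ((k : ℝ) - 1) ≤ supDensity := by
  rw [supDensity_eq, optDensity_eq]
  have h : sSup {x : ℝ | ∃ B : Finset ℕ, B ⊆ Nat.smoothNumbersUpTo N k ∧ GPFree (B : Set ℕ) ∧
    x = phi k * rs B} ≤ sigma + 1 / ((k : ℝ) - 1) := by
    apply csSup_le
    · exact ⟨phi k * rs ∅, ∅, by simp, by simpa using gpFree_empty, rfl⟩
    · rintro x ⟨B, hB, hG, rfl⟩
      have := le_sigma hk B (sub_trans hB) hG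
      linarith
  linarith

theorem optDensity_upper (k N : ℕ) : supDensity ≤ optDensity k N + tailDensity k N := by
  classical
  rw [supDensity_eq]
  refine le_trans (sigma_le k) ?_
  have hp := phi_pos k
  have h : W k ≤ (optDensity k N + tailDensity k N) / phi k := by
    apply csSup_le (Wset_nonempty k)
    rintro x ⟨B, hB, hG, rfl⟩
    rw [le_div_iff₀ hp, mul_comm]
    -- split B
    have h1 : rs B = rs (B.filter (· ≤ N)) + rs (B.filter (fun n => ¬ n ≤ N)) := by
      unfold rs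
      rw [Finset.sum_filter_add_sum_filter_not]
    have h2 : B.filter (· ≤ N) ⊆ Nat.smoothNumbersUpTo N k := by
      intro n hn
      rw [Finset.mem_filter] at hn
      exact Nat.mem_smoothNumbersUpTo.2 ⟨hn.2, hB hn.1⟩
    have h3 : GPFree ((B.filter (· ≤ N) : Finset ℕ) : Set ℕ) :=
      hG.mono (by intro n hn; exact Finset.mem_of_mem_filter n hn)
    have h4 := le_optDensity h2 h3
    have h5 : rs (B.filter (fun n => ¬ n ≤ N)) + rs (Nat.smoothNumbersUpTo N k) ≤ (phi k)⁻¹ := by
      have hd : Disjoint (B.filter (fun n => ¬ n ≤ N)) (Nat.smoothNumbersUpTo N k) := by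
        rw [Finset.disjoint_left]
        intro n hn hn'
        rw [Finset.mem_filter] at hn
        exact hn.2 (Nat.mem_smoothNumbersUpTo.1 hn').1
      have h6 : rs (B.filter (fun n => ¬ n ≤ N)) + rs (Nat.smoothNumbersUpTo N k) =
          rs (B.filter (fun n => ¬ n ≤ N) ∪ Nat.smoothNumbersUpTo N k) := by
        unfold rs
        rw [Finset.sum_union hd]
      rw [h6]
      apply rs_le
      intro n hn
      rw [Finset.mem_coe, Finset.mem_union] at hn
      rcases hn with hn | hn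
      · exact hB (Finset.mem_of_mem_filter n hn)
      · exact upTo_sub k N hn
    have h7 := mul_le_mul_of_nonneg_left h5 hp.le
    rw [mul_inv_cancel₀ hp.ne'] at h7
    rw [h1, tailDensity_eq]
    linarith
  rw [le_div_iff₀ hp] at h
  unfold sK
  linarith

theorem tail_small {ε : ℝ} (hε : 0 < ε) (k : ℕ) : ∃ N : ℕ, tailDensity k N < ε := by
  classical
  have hp := phi_pos k
  have h1 := (hasSum_smooth k).tendsto_sum_nat
  have h2 : (phi k)⁻¹ - ε / phi k < (phi k)⁻¹ := by
    have : 0 < ε / phi k := by positivity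
    linarith
  obtain ⟨N, hN⟩ := (h1.eventually_const_lt h2).exists
  refine ⟨N, ?_⟩
  have h3 : ∑ i ∈ Finset.range N, (k.smoothNumbers).indicator (fun n : ℕ => 1 / (n : ℝ)) i ≤
      rs (Nat.smoothNumbersUpTo N k) := by
    unfold rs
    rw [← Finset.sum_filter_add_sum_filter_not (Finset.range N) (fun n => n ∈ k.smoothNumbers)]
    have h4 : ∑ i ∈ (Finset.range N).filter (fun n => ¬ n ∈ k.smoothNumbers),
        (k.smoothNumbers).indicator (fun n : ℕ => 1 / (n : ℝ)) i = 0 := by
      apply Finset.sum_eq_zero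
      intro i hi
      rw [Finset.mem_filter] at hi
      exact Set.indicator_of_notMem hi.2 _
    rw [h4, add_zero]
    have h5 : ∑ i ∈ (Finset.range N).filter (fun n => n ∈ k.smoothNumbers),
        (k.smoothNumbers).indicator (fun n : ℕ => 1 / (n : ℝ)) i =
        ∑ i ∈ (Finset.range N).filter (fun n => n ∈ k.smoothNumbers), 1 / (i : ℝ) := by
      apply Finset.sum_congr rfl
      intro i hi
      rw [Finset.mem_filter] at hi
      exact Set.indicator_of_mem hi.2 _
    rw [h5]
    apply Finset.sum_le_sum_of_subset_of_nonneg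
    · intro i hi
      rw [Finset.mem_filter, Finset.mem_range] at hi
      exact Nat.mem_smoothNumbersUpTo.2 ⟨hi.1.le, hi.2⟩
    · intro i _ _
      positivity
  rw [tailDensity_eq]
  have h6 : (phi k)⁻¹ - ε / phi k < rs (Nat.smoothNumbersUpTo N k) := lt_of_lt_of_le hN h3
  have h7 := mul_lt_mul_of_pos_left h6 hp
  have h8 : phi k * ((phi k)⁻¹ - ε / phi k) = 1 - ε := by field_simp
  rw [h8] at h7
  linarith

theorem tailDensity_nonneg (k N : ℕ) : 0 ≤ tailDensity k N := by
  rw [tailDensity_eq]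
  have hp := phi_pos k
  have h := mul_le_mul_of_nonneg_left (rs_le (upTo_sub k N)) hp.le
  rw [mul_inv_cancel₀ hp.ne'] at h
  linarith

theorem gap_small {ε : ℝ} (hε : 0 < ε) : ∃ k N : ℕ, 2 ≤ k ∧
    1 / ((k : ℝ) - 1) + tailDensity k N < ε := by
  obtain ⟨m, hm⟩ := exists_nat_one_div_lt (show (0 : ℝ) < ε / 2 by positivity)
  obtain ⟨N, hN⟩ := tail_small (show (0 : ℝ) < ε / 2 by positivity) (m + 2)
  refine ⟨m + 2, N, by omega, ?_⟩
  have h1 : (((m + 2 : ℕ) : ℝ) - 1) = (m : ℝ) + 1 := by push_cast; ring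
  rw [h1]
  linarith

end Pool.Agent.Lib.MP_f8fa1d_co
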