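import Pool.Agent.Lib.MP_f8fa1d_co.Rankin

/-!
# The modified set has larger reciprocal sum
-/

namespace Pool.Agent.Lib.MP_f8fa1d_co

open Filter Topology

open Classical in
/-- `1/n` if no exponent of `n` equals `1`, and `0` otherwise. -/
noncomputable def fpow (n : ℕ) : ℝ :=
  if ∀ p, p.Prime → n.factorization p ≠ 1 then 1 / (n : ℝ) else 0

theorem fpow_nonneg (n : ℕ) : 0 ≤ fpow n := by
  unfold fpow; split_ifs <;> positivity

theorem fpow_one : fpow 1 = 1 := by
  unfold fpow
  rw [if_pos]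
  · simp
  · intro p _; simp

theorem fpow_mul {m n : ℕ} (h : Nat.Coprime m n) : fpow (m * n) = fpow m * fpow n := by
  by_cases hm : m = 0
  · subst hm
    rw [Nat.coprime_zero_left] at h
    subst h
    simp [fpow_one]
  by_cases hn : n = 0
  · subst hn
    rw [Nat.coprime_zero_right] at h
    subst h
    simp [fpow_one]
  have hfac : ∀ p, p.Prime → (m * n).factorization p = m.factorization p + n.factorization p := by
    intro p _
    rw [Nat.factorization_mul hm hn, Finsupp.add_apply]
  have hzero : ∀ p, p.Prime → m.factorization p = 0 ∨ n.factorization p = 0 := by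
    intro p hp
    by_contra hcon
    push Not at hcon
    have h1 : p ∣ m := (hp.dvd_iff_one_le_factorization hm).2 (by omega)
    have h2 : p ∣ n := (hp.dvd_iff_one_le_factorization hn).2 (by omega)
    exact Nat.not_coprime_of_dvd_of_dvd hp.one_lt h1 h2 h
  have hiff : (∀ p, p.Prime → (m * n).factorization p ≠ 1) ↔
      (∀ p, p.Prime → m.factorization p ≠ 1) ∧ (∀ p, p.Prime → n.factorization p ≠ 1) := by
    constructor
    · intro h1
      constructor
      · intro p hp h2
        have h3 := h1 p hp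
        rw [hfac p hp] at h3
        rcases hzero p hp with h4 | h4 <;> omega
      · intro p hp h2
        have h3 := h1 p hp
        rw [hfac p hp] at h3
        rcases hzero p hp with h4 | h4 <;> omega
    · rintro ⟨h1, h2⟩ p hp
      rw [hfac p hp]
      have := h1 p hp
      have := h2 p hp
      rcases hzero p hp with h4 | h4 <;> omega
  unfold fpow
  by_cases h1 : ∀ p, p.Prime → m.factorization p ≠ 1
  · by_cases h2 : ∀ p, p.Prime → n.factorization p ≠ 1
    · rw [if_pos (hiff.2 ⟨h1, h2⟩), if_pos h1, if_pos h2]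
      push_cast
      rw [one_div, one_div, one_div, mul_inv]
    · rw [if_neg (fun h => h2 (hiff.1 h).2), if_neg h2, mul_zero]
  · rw [if_neg (fun h => h1 (hiff.1 h).1), if_neg h1, zero_mul]

theorem fpow_prime_pow {p : ℕ} (hp : p.Prime) (n : ℕ) :
    fpow (p ^ n) = if n = 1 then 0 else (1 / (p : ℝ)) ^ n := by
  unfold fpow
  by_cases hn : n = 1
  · subst hn
    rw [if_neg, if_pos rfl]
    intro h
    apply h p hp
    simp [hp.factorization_self]
  · rw [if_pos, if_neg hn]
    · push_cast
      rw [one_div_pow]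
    · intro q _
      rw [hp.factorization_pow, Finsupp.single_apply]
      split_ifs
      · exact hn
      · norm_num

theorem fpow_hasSum {p : ℕ} (hp : p.Prime) :
    HasSum (fun n : ℕ => fpow (p ^ n)) (1 + 1 / ((p : ℝ) * (p - 1))) := by
  have hp1 : (1 : ℝ) < p := by exact_mod_cast hp.one_lt
  have h1 : HasSum (fun n : ℕ => (1 / (p : ℝ)) ^ n) (1 - 1 / (p : ℝ))⁻¹ :=
    hasSum_geometric_of_lt_one (by positivity) (by rw [div_lt_one (by linarith)]; exact hp1)
  have h2 : HasSum (fun n : ℕ => if n = 1 then 1 / (p : ℝ) else 0) (1 / (p : ℝ)) :=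
    hasSum_ite_eq 1 (1 / (p : ℝ))
  have h3 := h1.sub h2
  have h4 : (1 - 1 / (p : ℝ))⁻¹ - 1 / (p : ℝ) = 1 + 1 / ((p : ℝ) * (p - 1)) := by
    have e1 : (p : ℝ) ≠ 0 := by linarith
    have e2 : (p : ℝ) - 1 ≠ 0 := by linarith
    have e3 : (1 - 1 / (p : ℝ)) = ((p : ℝ) - 1) / p := by field_simp
    rw [e3, inv_div]
    field_simp
    ring
  rw [h4] at h3
  refine h3.congr_fun (fun n => ?_)
  rw [fpow_prime_pow hp]
  split_ifs with h
  · subst h; simp
  · simp

theorem sum_prime_recip_le (k : ℕ) :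
    ∑ p ∈ k.primesBelow, 1 / ((p : ℝ) * (p - 1)) ≤ 1 := by
  have h1 : ∑ p ∈ k.primesBelow, 1 / ((p : ℝ) * (p - 1)) ≤
      ∑ n ∈ Finset.Ico 2 (k + 2), 1 / ((n : ℝ) * (n - 1)) := by
    apply Finset.sum_le_sum_of_subset_of_nonneg
    · intro p hp
      have h2 := Nat.lt_of_mem_primesBelow hp
      have h3 := (Nat.prime_of_mem_primesBelow hp).two_le
      rw [Finset.mem_Ico]
      omega
    · intro n hn _
      rw [Finset.mem_Ico] at hn
      have : (2 : ℝ) ≤ n := by exact_mod_cast hn.1
      have : (0 : ℝ) < (n : ℝ) - 1 := by linarith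
      positivity
  have h2 : ∀ m : ℕ, ∑ n ∈ Finset.Ico 2 (m + 2), 1 / ((n : ℝ) * (n - 1)) = 1 - 1 / ((m : ℝ) + 1) := by
    intro m
    induction m with
    | zero => simp
    | succ m ih =>
      rw [Finset.sum_Ico_succ_top (by omega), ih]
      push_cast
      have e1 : (m : ℝ) + 1 ≠ 0 := by positivity
      have e2 : (m : ℝ) + 2 ≠ 0 := by positivity
      have e3 : (m : ℝ) + 2 - 1 = m + 1 := by ring
      have e4 : (m : ℝ) + 1 + 1 = m + 2 := by ring
      rw [e3, e4]
      field_simp
      ring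
  rw [h2] at h1
  have : (0 : ℝ) ≤ 1 / ((k : ℝ) + 1) := by positivity
  linarith

/-- The reciprocal sum over integers without exponent `1` is at most `3`. -/
theorem rs_powerful {k : ℕ} {G : Finset ℕ} (hG : (G : Set ℕ) ⊆ k.smoothNumbers)
    (hG1 : ∀ n ∈ G, ∀ p, p.Prime → n.factorization p ≠ 1) : rs G ≤ 3 := by
  have h1 := (EulerProduct.summable_and_hasSum_smoothNumbers_prod_primesBelow_tsum
    (f := fpow) fpow_one (fun h => fpow_mul h) (fun hp => by
      have := (fpow_hasSum hp).summable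
      simpa [Real.norm_eq_abs, abs_of_nonneg (fpow_nonneg _)] using this) k).2
  have h2 := (hasSum_subtype_iff_indicator (s := k.smoothNumbers) (f := fpow)).1 h1
  have h3 := sum_le_hasSum G (fun i _ => Set.indicator_nonneg (fun n _ => fpow_nonneg n) i) h2
  have h4 : ∑ i ∈ G, (k.smoothNumbers).indicator fpow i = rs G := by
    unfold rs
    apply Finset.sum_congr rfl
    intro n hn
    rw [Set.indicator_of_mem (hG hn)]
    unfold fpow
    rw [if_pos (hG1 n hn)]
  rw [h4] at h3
  refine le_trans h3 ?_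
  have h5 : ∏ p ∈ k.primesBelow, ∑' n : ℕ, fpow (p ^ n) =
      ∏ p ∈ k.primesBelow, (1 + 1 / ((p : ℝ) * (p - 1))) := by
    apply Finset.prod_congr rfl
    intro p hp
    exact (fpow_hasSum (Nat.prime_of_mem_primesBelow hp)).tsum_eq
  rw [h5]
  have h6 : ∏ p ∈ k.primesBelow, (1 + 1 / ((p : ℝ) * (p - 1))) ≤
      ∏ p ∈ k.primesBelow, Real.exp (1 / ((p : ℝ) * (p - 1))) := by
    apply Finset.prod_le_prod
    · intro p hp
      have : (2 : ℝ) ≤ p := by exact_mod_cast (Nat.prime_of_mem_primesBelow hp).two_le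
      have : (0 : ℝ) < (p : ℝ) - 1 := by linarith
      positivity
    · intro p _
      have := Real.add_one_le_exp (1 / ((p : ℝ) * (p - 1)))
      linarith
  rw [← Real.exp_sum] at h6
  have h7 := Real.exp_le_exp.2 (sum_prime_recip_le k)
  have h8 := Real.exp_one_lt_d9
  linarith

/-- The removed multiples of `P k` have small weight. -/
theorem loss_mult {k : ℕ} {F : Finset ℕ} (hF : ∀ n ∈ F, n ∈ RankinSet ∧ n ∈ k.smoothNumbers ∧ P k ∣ n) :
    rs F ≤ 3 / P k := by
  have hP := P_pos k
  have hP' : (0 : ℝ) < P k := by exact_mod_cast hP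
  set G := F.image (fun n => n / P k) with hG
  have hinj : Set.InjOn (fun n => n / P k) (F : Set ℕ) := by
    intro a ha b hb hab
    simp only at hab
    rw [← Nat.div_mul_cancel (hF a ha).2.2, ← Nat.div_mul_cancel (hF b hb).2.2, hab]
  have h1 : rs F = 1 / (P k : ℝ) * rs G := by
    unfold rs
    rw [hG, Finset.sum_image (fun a ha b hb h => hinj ha hb h), Finset.mul_sum]
    apply Finset.sum_congr rfl
    intro n hn
    have h2 : (n : ℝ) = P k * ((n / P k : ℕ) : ℝ) := by
      exact_mod_cast (Nat.mul_div_cancel' (hF n hn).2.2).symm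
    conv_lhs => rw [h2]
    rw [one_div, one_div, one_div, mul_inv]
  have h2 : rs G ≤ 3 := by
    apply rs_powerful (k := k)
    · intro m hm
      rw [hG, Finset.mem_coe, Finset.mem_image] at hm
      obtain ⟨n, hn, rfl⟩ := hm
      exact Nat.mem_smoothNumbers_of_dvd (hF n hn).2.1 (Nat.div_dvd_of_dvd (hF n hn).2.2)
    · intro m hm p hp
      rw [hG, Finset.mem_image] at hm
      obtain ⟨n, hn, rfl⟩ := hm
      obtain ⟨h3, h4, h5⟩ := hF n hn
      rw [Nat.factorization_div h5, Finsupp.tsub_apply, factorization_P]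
      by_cases hpk : p < k
      · rw [if_pos ⟨hp, hpk⟩]
        intro h6
        have h7 : n.factorization p = 2 := by omega
        have := h3.2 p hp
        rw [h7] at this
        exact not_good_two this
      · rw [if_neg (fun h => hpk h.2), smooth_factorization_of_le h4 (by omega)]
        omega
  rw [h1]
  calc 1 / (P k : ℝ) * rs G ≤ 1 / (P k : ℝ) * 3 := mul_le_mul_of_nonneg_left h2 (by positivity)
    _ = 3 / P k := by ring

/-- Odd primes below `k`. -/
def oddPr (k : ℕ) : Finset ℕ := k.primesBelow.filter (fun q => 3 ≤ q)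

theorem two_dvd_P {k : ℕ} (hk : 2 < k) : 2 ∣ P k :=
  Finset.dvd_prod_of_mem _ (Nat.mem_primesBelow.2 ⟨hk, Nat.prime_two⟩)

open Classical in
theorem loss_Z {k : ℕ} {F : Finset ℕ} (hF : ∀ n ∈ F, 0 < n ∧ n ∈ Zold k) : rs F ≤ 2 / P k := by
  have hP := P_pos k
  have hP' : (0 : ℝ) < P k := by exact_mod_cast hP
  -- choose q for each n
  have hch : ∀ n ∈ F, ∃ q ∈ oddPr k, 2 * n = q ^ 3 * P k := by
    intro n hn
    obtain ⟨_, q, hq, hq3, hqk, h⟩ := hF n hn
    exact ⟨q, Finset.mem_filter.2 ⟨Nat.mem_primesBelow.2 ⟨hqk, hq⟩, hq3⟩, h⟩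
  choose! q hq1 hq2 using hch
  have hinj : Set.InjOn q (F : Set ℕ) := by
    intro a ha b hb hab
    have h1 := hq2 a ha
    have h2 := hq2 b hb
    rw [hab] at h1
    omega
  have h1 : rs F ≤ ∑ r ∈ oddPr k, 2 / ((r : ℝ) ^ 3 * P k) := by
    unfold rs
    have h2 : ∑ n ∈ F, 1 / (n : ℝ) = ∑ n ∈ F, 2 / ((q n : ℝ) ^ 3 * P k) := by
      apply Finset.sum_congr rfl
      intro n hn
      have h3 : 2 * (n : ℝ) = (q n : ℝ) ^ 3 * P k := by exact_mod_cast hq2 n hn
      have h4 : (n : ℝ) ≠ 0 := by exact_mod_cast (hF n hn).1.ne'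
      rw [← h3]
      field_simp
    rw [h2, ← Finset.sum_image (f := fun r : ℕ => 2 / ((r : ℝ) ^ 3 * P k))
      (fun a ha b hb h => hinj ha hb h)]
    apply Finset.sum_le_sum_of_subset_of_nonneg
    · intro r hr
      rw [Finset.mem_image] at hr
      obtain ⟨n, hn, rfl⟩ := hr
      exact hq1 n hn
    · intro r _ _
      positivity
  have h2 : ∑ r ∈ oddPr k, 2 / ((r : ℝ) ^ 3 * P k) ≤ 2 / P k * ∑ r ∈ k.primesBelow, 1 / ((r : ℝ) * (r - 1)) := by
    rw [Finset.mul_sum]
    calc ∑ r ∈ oddPr k, 2 / ((r : ℝ) ^ 3 * P k) ≤ ∑ r ∈ k.primesBelow, 2 / ((r : ℝ) ^ 3 * P k) := by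
          apply Finset.sum_le_sum_of_subset_of_nonneg (Finset.filter_subset _ _)
          intro r _ _
          positivity
      _ ≤ ∑ r ∈ k.primesBelow, 2 / P k * (1 / ((r : ℝ) * (r - 1))) := by
          apply Finset.sum_le_sum
          intro r hr
          have h3 : (2 : ℝ) ≤ r := by exact_mod_cast (Nat.prime_of_mem_primesBelow hr).two_le
          have h4 : (0 : ℝ) < (r : ℝ) - 1 := by linarith
          have h5 : 2 / (P k : ℝ) * (1 / ((r : ℝ) * (r - 1))) = 2 / ((r : ℝ) * (r - 1) * P k) := by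
            field_simp
          rw [h5]
          apply div_le_div_of_nonneg_left (by norm_num) (by positivity)
          apply mul_le_mul_of_nonneg_right _ hP'.le
          have h6 : (0 : ℝ) ≤ (r : ℝ) * r * (r - 1) := by positivity
          nlinarith
  have h3 := sum_prime_recip_le k
  calc rs F ≤ 2 / P k * ∑ r ∈ k.primesBelow, 1 / ((r : ℝ) * (r - 1)) := le_trans h1 h2
    _ ≤ 2 / P k * 1 := mul_le_mul_of_nonneg_left h3 (by positivity)
    _ = 2 / P k := mul_one _

/-- The new elements as a finite set. -/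
def YF (k : ℕ) : Finset ℕ := insert (2 * P k) ((oddPr k).image (fun q => 2 * q * P k))

theorem YF_sub {k n : ℕ} (hn : n ∈ YF k) : n ∈ Ynew k := by
  unfold YF at hn
  rw [Finset.mem_insert, Finset.mem_image] at hn
  rcases hn with h | ⟨q, hq, h⟩
  · exact Or.inl h
  · rw [oddPr, Finset.mem_filter] at hq
    exact Or.inr ⟨q, Nat.prime_of_mem_primesBelow hq.1, hq.2, Nat.lt_of_mem_primesBelow hq.1, h.symm⟩

theorem rs_YF (k : ℕ) : rs (YF k) = (1 / 2 + 1 / 2 * ∑ q ∈ oddPr k, 1 / (q : ℝ)) / P k := by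
  have hP := P_pos k
  have hP' : (P k : ℝ) ≠ 0 := by exact_mod_cast hP.ne'
  unfold rs YF
  rw [Finset.sum_insert, Finset.sum_image]
  · rw [add_div, Finset.mul_sum, Finset.sum_div]
    congr 1
    · push_cast
      field_simp
    · apply Finset.sum_congr rfl
      intro q hq
      rw [oddPr, Finset.mem_filter] at hq
      have : (q : ℝ) ≠ 0 := by
        have := hq.2
        exact_mod_cast (by omega : q ≠ 0)
      push_cast
      field_simp
  · intro a _ b _ h
    simp only at h
    have h1 := Nat.eq_of_mul_eq_mul_right hP h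
    omega
  · intro h
    rw [Finset.mem_image] at h
    obtain ⟨q, hq, h1⟩ := h
    rw [oddPr, Finset.mem_filter] at hq
    have h2 := Nat.eq_of_mul_eq_mul_right hP h1
    omega

theorem exists_large_sum (T : ℝ) : ∃ k : ℕ, 2 < k ∧ T ≤ ∑ q ∈ oddPr k, 1 / (q : ℝ) := by
  have h1 := not_summable_one_div_on_primes
  rw [not_summable_iff_tendsto_nat_atTop_of_nonneg] at h1
  · obtain ⟨k, hk1, hk2⟩ := ((h1.eventually_ge_atTop (T + 1)).and (eventually_gt_atTop 2)).exists
    refine ⟨k, hk2, ?_⟩
    have h2 : ∑ i ∈ Finset.range k, ({p : ℕ | p.Prime}).indicator (fun n : ℕ => (1 : ℝ) / n) i ≤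
        ∑ q ∈ k.primesBelow, 1 / (q : ℝ) := by
      unfold Nat.primesBelow
      rw [Finset.sum_filter]
      apply Finset.sum_le_sum
      intro i _
      by_cases hi : i.Prime
      · rw [if_pos hi, Set.indicator_of_mem (by exact hi)]
      · rw [if_neg hi, Set.indicator_of_notMem (by exact hi)]
    have h3 : ∑ q ∈ k.primesBelow, 1 / (q : ℝ) ≤ 1 + ∑ q ∈ oddPr k, 1 / (q : ℝ) := by
      have h4 : k.primesBelow ⊆ insert 2 (oddPr k) := by
        intro q hq
        rw [Finset.mem_insert, oddPr, Finset.mem_filter]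
        have := (Nat.prime_of_mem_primesBelow hq).two_le
        by_cases h5 : q = 2
        · exact Or.inl h5
        · exact Or.inr ⟨hq, by omega⟩
      refine le_trans (Finset.sum_le_sum_of_subset_of_nonneg h4 (fun i _ _ => by positivity)) ?_
      rw [Finset.sum_insert (by simp [oddPr])]
      norm_num
    linarith
  · intro n
    exact Set.indicator_nonneg (fun m _ => by positivity) n

/-- Reciprocal sums of finite subsets of Rankin's set of `K`-smooth numbers. -/
def WRset (K : ℕ) : Set ℝ :=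
  {x | ∃ B : Finset ℕ, (B : Set ℕ) ⊆ K.smoothNumbers ∧ (B : Set ℕ) ⊆ RankinSet ∧ x = rs B}

theorem WRset_nonempty (K : ℕ) : (WRset K).Nonempty := ⟨rs ∅, ∅, by simp, by simp, rfl⟩

theorem WRset_bddAbove (K : ℕ) : BddAbove (WRset K) := by
  refine ⟨(phi K)⁻¹, ?_⟩
  rintro x ⟨B, hB, _, rfl⟩
  exact rs_le hB

/-- Supremum of the reciprocal sums of finite subsets of Rankin's set of `K`-smooth numbers. -/
noncomputable def WR (K : ℕ) : ℝ := sSup (WRset K)

theorem rs_le_WR {K : ℕ} {B : Finset ℕ} (hB : (B : Set ℕ) ⊆ K.smoothNumbers)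
    (hR : (B : Set ℕ) ⊆ RankinSet) : rs B ≤ WR K := le_csSup (WRset_bddAbove K) ⟨B, hB, hR, rfl⟩

open Classical in
/-- For some `k` there is a finite GP-free set of `k`-smooth numbers with reciprocal sum larger
than that of the `k`-smooth part of Rankin's set. -/
theorem exists_better : ∃ (k : ℕ) (B : Finset ℕ), 2 < k ∧ (B : Set ℕ) ⊆ k.smoothNumbers ∧
    GPFree (B : Set ℕ) ∧ WR k < rs B := by
  obtain ⟨k, hk, hT⟩ := exists_large_sum 11
  have hP := P_pos k
  have hP' : (0 : ℝ) < P k := by exact_mod_cast hP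
  have h1 : WR k - 1 / (2 * P k) < WR k := by
    have : (0 : ℝ) < 1 / (2 * P k) := by positivity
    linarith
  obtain ⟨x, ⟨F, hF, hFR, rfl⟩, hx⟩ := exists_lt_of_lt_csSup (WRset_nonempty k) h1
  set F0 := F.filter (fun n => ¬ P k ∣ n ∧ n ∉ Zold k) with hF0
  refine ⟨k, F0 ∪ YF k, hk, ?_, ?_, ?_⟩
  · intro n hn
    rw [Finset.mem_coe, Finset.mem_union] at hn
    rcases hn with hn | hn
    · exact hF (Finset.mem_of_mem_filter n hn)
    · exact Ynew_smooth hk (YF_sub hn)
  · apply (Modif_free hk).mono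
    intro n hn
    rw [Finset.mem_coe, Finset.mem_union] at hn
    rcases hn with hn | hn
    · rw [hF0, Finset.mem_filter] at hn
      exact Or.inl ⟨hFR hn.1, hF hn.1, hn.2.1, hn.2.2⟩
    · exact Or.inr (YF_sub hn)
  · have hdisj : Disjoint F0 (YF k) := by
      rw [Finset.disjoint_left]
      intro n h2 h3
      rw [hF0, Finset.mem_filter] at h2
      exact h2.2.1 (Ynew_dvd (YF_sub h3))
    have h2 : rs (F0 ∪ YF k) = rs F0 + rs (YF k) := by
      unfold rs; rw [Finset.sum_union hdisj]
    have h3 : rs F ≤ rs F0 + rs (F.filter (fun n => P k ∣ n)) + rs (F.filter (fun n => n ∈ Zold k)) := by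
      unfold rs
      rw [hF0, Finset.sum_filter, Finset.sum_filter, Finset.sum_filter, ← Finset.sum_add_distrib,
        ← Finset.sum_add_distrib]
      apply Finset.sum_le_sum
      intro n _
      have : (0 : ℝ) ≤ 1 / (n : ℝ) := by positivity
      by_cases h4 : P k ∣ n
      · by_cases h5 : n ∈ Zold k
        · simp only [h4, h5, not_true_eq_false, false_and, if_false, if_true]; linarith
        · simp only [h4, h5, not_true_eq_false, false_and, if_false, if_true]; linarith
      · by_cases h5 : n ∈ Zold k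
        · simp only [h4, h5, not_true_eq_false, and_false, if_false, if_true]; linarith
        · simp only [h4, h5, not_false_eq_true, and_self, if_false, if_true]; linarith
    have h4 : rs (F.filter (fun n => P k ∣ n)) ≤ 3 / P k := by
      apply loss_mult
      intro n hn
      rw [Finset.mem_filter] at hn
      exact ⟨hFR hn.1, hF hn.1, hn.2⟩
    have h5 : rs (F.filter (fun n => n ∈ Zold k)) ≤ 2 / P k := by
      apply loss_Z
      intro n hn
      rw [Finset.mem_filter] at hn
      exact ⟨(hFR hn.1).1, hn.2⟩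
    have h6 : 6 / (P k : ℝ) ≤ rs (YF k) := by
      rw [rs_YF]
      apply div_le_div_of_nonneg_right _ hP'.le
      linarith
    have h7 : (1 : ℝ) / (2 * P k) = 1 / 2 * (1 / P k) := by field_simp
    have h8 : (3 : ℝ) / P k = 3 * (1 / P k) := by ring
    have h9 : (2 : ℝ) / P k = 2 * (1 / P k) := by ring
    have h10 : (6 : ℝ) / P k = 6 * (1 / P k) := by ring
    have h11 : (0 : ℝ) < 1 / P k := by positivity
    rw [h2]
    rw [h7] at hx
    rw [h8] at h4
    rw [h9] at h5
    rw [h10] at h6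
    linarith

end Pool.Agent.Lib.MP_f8fa1d_co
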