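import Pool.Agent.Lib.MP_f8fa1d_co.Nice

/-!
# Gluing a slowly varying sequence of GP-free sets
-/

namespace Pool.Agent.Lib.MP_f8fa1d_co

open Filter Topology

theorem cnt_mono' {A B : Set ℕ} {x : ℕ} (h : ∀ n, 0 < n → n ≤ x → n ∈ A → n ∈ B) :
    cnt A x ≤ cnt B x := by
  unfold cnt
  apply Set.ncard_le_ncard _ (cnt_finite B x)
  intro n hn
  exact ⟨h n (by have := hn.2.1; omega) hn.2.2 hn.1, hn.2⟩

/-- Integers with bounded rough part have density zero. -/
theorem cnt_ro_le (K M : ℕ) {ε : ℝ} (hε : 0 < ε) :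
    ∀ᶠ x : ℕ in atTop, (cnt {n | ro K n ≤ M} x : ℝ) ≤ ε * x := by
  classical
  have h1 : ∀ x : ℕ, cnt {n | ro K n ≤ M} x ≤ 2 ^ (K + M + 1).primesBelow.card * x.sqrt := by
    intro x
    refine le_trans ?_ (Nat.smoothNumbersUpTo_card_le x (K + M + 1))
    rw [cnt_eq]
    apply Finset.card_le_card
    intro n hn
    simp only [Finset.mem_filter, Finset.mem_Icc, Set.mem_ofPred_eq] at hn
    rw [Nat.mem_smoothNumbersUpTo]
    refine ⟨hn.1.2, ?_⟩
    rw [Nat.mem_smoothNumbers']
    intro p hp hpd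
    by_contra hcon
    push Not at hcon
    have h2 : n ≠ 0 := by omega
    have h3 : 1 ≤ n.factorization p := (hp.dvd_iff_one_le_factorization h2).1 hpd
    rw [← factorization_ro_of_le (K := K) (n := n) (p := p) (by omega)] at h3
    have h4 : p ∣ ro K n := (hp.dvd_iff_one_le_factorization (ro_pos K n).ne').2 h3
    have := Nat.le_of_dvd (ro_pos K n) h4
    omega
  set C : ℝ := 2 ^ (K + M + 1).primesBelow.card with hC
  have hCpos : 0 < C := by positivity
  have h5 : Tendsto (fun x : ℕ => ε * Real.sqrt x) atTop atTop :=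
    (Real.tendsto_sqrt_atTop.comp tendsto_natCast_atTop_atTop).const_mul_atTop hε
  filter_upwards [h5.eventually_ge_atTop C] with x hx
  have h6 : (cnt {n | ro K n ≤ M} x : ℝ) ≤ C * (x.sqrt : ℝ) := by
    have := h1 x
    have h7 : ((cnt {n | ro K n ≤ M} x : ℕ) : ℝ) ≤ ((2 ^ (K + M + 1).primesBelow.card * x.sqrt : ℕ) : ℝ) := by
      exact_mod_cast this
    refine le_trans h7 ?_
    push_cast
    rfl
  have h8 : (x.sqrt : ℝ) ≤ Real.sqrt x := Real.nat_sqrt_le_real_sqrt
  calc (cnt {n | ro K n ≤ M} x : ℝ) ≤ C * (x.sqrt : ℝ) := h6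
    _ ≤ (ε * Real.sqrt x) * Real.sqrt x := by
        apply mul_le_mul hx h8 (by positivity)
        positivity
    _ = ε * x := by rw [mul_assoc, Real.mul_self_sqrt (by positivity)]

theorem ro_le_max (K n : ℕ) : ro K n ≤ max n 1 := by
  by_cases hn : n = 0
  · subst hn
    unfold ro
    rw [Nat.factorization_zero, Finsupp.filter_zero, Finsupp.prod_zero_index]
    exact le_max_right _ _
  · exact le_trans (ro_le hn) (le_max_left _ _)

/-- The gluing lemma. -/
theorem glue {A : ℕ → Set ℕ} {K : ℕ → ℕ} {η : ℕ → ℝ} {σ : ℝ} (hK : Monotone K)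
    (hfree : ∀ j, GPFree (A j)) (hsq : ∀ j, ∀ n ∈ A j, n ∉ Sq (K j))
    (happ : ∀ j, Approx (A j) σ (η j))
    (hstep : ∀ j, ∀ᶠ x : ℕ in atTop, (cnt (symmDiff (A j) (A (j + 1))) x : ℝ) ≤ η j * x)
    (hη : Tendsto η atTop (𝓝 0)) : ∃ S : Set ℕ, GPFree S ∧ HasDensity S σ := by
  classical
  -- thresholds
  have hX : ∀ j M : ℕ, ∃ X : ℕ, ∀ x, X ≤ x → |(cnt (A j) x : ℝ) - σ * x| ≤ η j * x ∧
      (cnt (symmDiff (A j) (A (j + 1))) x : ℝ) ≤ η j * x ∧
      (cnt {n | ro (K j) n ≤ M} x : ℝ) ≤ (1 / ((j : ℝ) + 1)) * x := by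
    intro j M
    have h := ((happ j).and (hstep j)).and (cnt_ro_le (K j) M (ε := 1 / ((j : ℝ) + 1)) (by positivity))
    obtain ⟨X, hX⟩ := eventually_atTop.1 h
    exact ⟨X, fun x hx => ⟨(hX x hx).1.1, (hX x hx).1.2, (hX x hx).2⟩⟩
  choose X hX using hX
  obtain ⟨M, hM0, hMs⟩ : ∃ M : ℕ → ℕ, M 0 = X 0 0 ∧
      ∀ j, M (j + 1) = max (M j + 1) (X (j + 1) (M j)) :=
    ⟨fun j => Nat.rec (X 0 0) (fun j m => max (m + 1) (X (j + 1) m)) j, rfl, fun _ => rfl⟩
  have hMlt : ∀ j, M j < M (j + 1) := by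
    intro j; rw [hMs]; exact lt_of_lt_of_le (Nat.lt_succ_self _) (le_max_left _ _)
  have hMmono : StrictMono M := strictMono_nat_of_lt_succ hMlt
  have hMge : ∀ j, j ≤ M j := hMmono.id_le
  have hstage : ∀ n, ∃ j, ro (K (j + 1)) n ≤ M j := by
    intro n
    exact ⟨max n 1, le_trans (ro_le_max _ _) (hMge _)⟩
  let stage : ℕ → ℕ := fun n => Nat.find (hstage n)
  have hst1 : ∀ n, ro (K (stage n + 1)) n ≤ M (stage n) := fun n => Nat.find_spec (hstage n)
  have hst2 : ∀ n i, i < stage n → M i < ro (K (i + 1)) n := by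
    intro n i hi
    exact not_le.1 (Nat.find_min (hstage n) hi)
  have hst3 : ∀ n i, ro (K (i + 1)) n ≤ M i → stage n ≤ i := by
    intro n i hi
    exact Nat.find_min' (hstage n) hi
  refine ⟨{n | n ∈ A (stage n)}, ?_, ?_⟩
  · rw [gpFree_iff]
    refine ⟨fun n hn => (hfree _).pos hn, ?_⟩
    intro a ha b hb c hc h
    simp only [Set.mem_ofPred_eq] at ha hb hc
    have ha0 := ((hfree _).pos ha).ne'
    have hb0 := ((hfree _).pos hb).ne'
    have hc0 := ((hfree _).pos hc).ne'
    set J := max (stage a) (max (stage b) (stage c)) with hJ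
    have haJ : stage a ≤ J := le_max_left _ _
    have hbJ : stage b ≤ J := le_trans (le_max_left _ _) (le_max_right _ _)
    have hcJ : stage c ≤ J := le_trans (le_max_right _ _) (le_max_right _ _)
    obtain ⟨h1, h2⟩ := ro_eq_of_gp (K := K J) ha0 hb0 hc0 h
      (not_sq (not_sq_mono (hK haJ) (hsq _ _ ha))) (not_sq (not_sq_mono (hK hbJ) (hsq _ _ hb)))
      (not_sq (not_sq_mono (hK hcJ) (hsq _ _ hc)))
    have key : ∀ u v, ro (K J) u = ro (K J) v → stage u = J → stage v ≤ J → stage v = J := by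
      intro u v huv hu hv
      by_contra hne
      have hlt : stage v < J := lt_of_le_of_ne hv hne
      obtain ⟨J', hJ'⟩ : ∃ J', J = J' + 1 := ⟨J - 1, by omega⟩
      have h3 := hst2 u J' (by omega)
      rw [← hJ'] at h3
      have h4 := hst1 v
      have h5 : ro (K J) v ≤ ro (K (stage v + 1)) v := ro_anti (hK (by omega))
      have h6 : M (stage v) ≤ M J' := hMmono.monotone (by omega)
      omega
    have hall : stage a = J ∧ stage b = J ∧ stage c = J := by
      have hcases : stage a = J ∨ stage b = J ∨ stage c = J := by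
        omega
      rcases hcases with h3 | h3 | h3
      · exact ⟨h3, key a b h1 h3 hbJ, key a c (h1.trans h2.symm) h3 hcJ⟩
      · exact ⟨key b a h1.symm h3 haJ, h3, key b c h2.symm h3 hcJ⟩
      · exact ⟨key c a (h2.trans h1.symm) h3 haJ, key c b h2 h3 hbJ, h3⟩
    rw [hall.1] at ha
    rw [hall.2.1] at hb
    rw [hall.2.2] at hc
    exact (hfree J).eq ha hb hc h
  · rw [hasDensity_iff]
    intro ε hε
    have hlim : Tendsto (fun j : ℕ => 2 * η j + 1 / ((j : ℝ) + 1)) atTop (𝓝 (2 * 0 + 0)) :=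
      (hη.const_mul 2).add tendsto_one_div_add_atTop_nhds_zero_nat
    have hev : ∀ᶠ j in atTop, 2 * η j + 1 / ((j : ℝ) + 1) < ε :=
      hlim.eventually_lt_const (by simpa using hε)
    obtain ⟨j0, hj0⟩ := eventually_atTop.1 hev
    unfold Approx
    refine eventually_atTop.2 ⟨M (j0 + 1), fun x hx => ?_⟩
    -- find j
    have hex : ∃ j, x < M (j + 1) := ⟨x, lt_of_lt_of_le (Nat.lt_succ_self x) (hMge (x + 1))⟩
    obtain ⟨j, hj1, hj2⟩ : ∃ j, x < M (j + 1) ∧ ∀ i < j, M (i + 1) ≤ x :=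
      ⟨Nat.find hex, Nat.find_spec hex, fun i hi => not_lt.1 (Nat.find_min hex hi)⟩
    have hjj : j0 + 1 ≤ j := by
      by_contra hcon
      push Not at hcon
      have : M (j + 1) ≤ M (j0 + 1) := hMmono.monotone (by omega)
      omega
    obtain ⟨i, rfl⟩ : ∃ i, j = i + 1 := ⟨j - 1, by omega⟩
    have hMi : M (i + 1) ≤ x := hj2 i (Nat.lt_succ_self i)
    have hXi : X (i + 1) (M i) ≤ x := le_trans (by rw [hMs]; exact le_max_right _ _) hMi
    obtain ⟨h1, h2, h3⟩ := hX (i + 1) (M i) x hXi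
    have hε2 := hj0 (i + 1) (by omega)
    -- comparison
    have hst_le : ∀ n, 0 < n → n ≤ x → stage n ≤ i + 2 := by
      intro n hn hnx
      apply hst3
      have : ro (K (i + 2 + 1)) n ≤ n := ro_le hn.ne'
      have hj1' : x < M (i + 2) := hj1
      omega
    have hE : ∀ n, stage n ≤ i → ro (K (i + 1)) n ≤ M i := by
      intro n hn
      have h4 := hst1 n
      have h5 : ro (K (i + 1)) n ≤ ro (K (stage n + 1)) n := ro_anti (hK (by omega))
      have h6 : M (stage n) ≤ M i := hMmono.monotone hn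
      omega
    have hc1 : cnt {n | n ∈ A (stage n)} x ≤ cnt (A (i + 1)) x +
        (cnt (symmDiff (A (i + 1)) (A (i + 1 + 1))) x + cnt {n | ro (K (i + 1)) n ≤ M i} x) := by
      refine le_trans (cnt_mono' (B := A (i + 1) ∪ (symmDiff (A (i + 1)) (A (i + 1 + 1)) ∪
        {n | ro (K (i + 1)) n ≤ M i})) ?_) (le_trans (cnt_union_le _ _ _)
          (Nat.add_le_add_left (cnt_union_le _ _ _) _))
      intro n hn hnx hnA
      have hs := hst_le n hn hnx
      by_cases hs1 : stage n ≤ i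
      · right; right; exact hE n hs1
      · by_cases hs2 : stage n = i + 1
        · left
          simp only [Set.mem_ofPred_eq] at hnA
          rwa [hs2] at hnA
        · have hs3 : stage n = i + 1 + 1 := by omega
          simp only [Set.mem_ofPred_eq] at hnA
          rw [hs3] at hnA
          by_cases hnA' : n ∈ A (i + 1)
          · left; exact hnA'
          · right; left
            exact Or.inr ⟨hnA, hnA'⟩
    have hc2 : cnt (A (i + 1)) x ≤ cnt {n | n ∈ A (stage n)} x +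
        (cnt (symmDiff (A (i + 1)) (A (i + 1 + 1))) x + cnt {n | ro (K (i + 1)) n ≤ M i} x) := by
      refine le_trans (cnt_mono' (B := {n | n ∈ A (stage n)} ∪
        (symmDiff (A (i + 1)) (A (i + 1 + 1)) ∪
        {n | ro (K (i + 1)) n ≤ M i})) ?_) (le_trans (cnt_union_le _ _ _)
          (Nat.add_le_add_left (cnt_union_le _ _ _) _))
      intro n hn hnx hnA
      have hs := hst_le n hn hnx
      by_cases hs1 : stage n ≤ i
      · right; right; exact hE n hs1
      · by_cases hs2 : stage n = i + 1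
        · left
          simp only [Set.mem_ofPred_eq]
          rwa [hs2]
        · have hs3 : stage n = i + 1 + 1 := by omega
          by_cases hnA' : n ∈ A (i + 1 + 1)
          · left
            simp only [Set.mem_ofPred_eq]
            rw [hs3]
            exact hnA'
          · right; left
            exact Or.inl ⟨hnA, hnA'⟩
    have hc1' : (cnt {n | n ∈ A (stage n)} x : ℝ) ≤ cnt (A (i + 1)) x +
        (cnt (symmDiff (A (i + 1)) (A (i + 1 + 1))) x + cnt {n | ro (K (i + 1)) n ≤ M i} x) := by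
      exact_mod_cast hc1
    have hc2' : (cnt (A (i + 1)) x : ℝ) ≤ cnt {n | n ∈ A (stage n)} x +
        (cnt (symmDiff (A (i + 1)) (A (i + 1 + 1))) x + cnt {n | ro (K (i + 1)) n ≤ M i} x) := by
      exact_mod_cast hc2
    have hxnn : (0 : ℝ) ≤ x := by positivity
    have hε3 := mul_le_mul_of_nonneg_right hε2.le hxnn
    rw [abs_le] at h1 ⊢
    constructor
    · nlinarith [h1.1, h1.2]
    · nlinarith [h1.1, h1.2]

end Pool.Agent.Lib.MP_f8fa1d_co
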