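import Pool.Agent.Lib.MP_f8fa1d_co.Finite

/-!
# Logarithmic densities of sets without 3-term geometric progressions, the set of all densities, and
an explicit rate for the finite approximations
-/

namespace Pool.Agent.Lib.MP_f8fa1d_co

open Filter Topology

theorem cnt_rough_le (K : ℕ) (x : ℕ) :
    (cnt {m | Rough K m} x : ℝ) ≤ phi K * x + (P K * 1 + 2) := by
  have h1 := cnt_class K (L := 1) (by norm_num) (fun _ => True) x
  have h2 : {m | Rough K m ∧ (fun _ : ℕ => True) (m / P K % 1)} = {m | Rough K m} := by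
    ext m; simp
  rw [h2] at h1
  have h3 : ∀ inst : DecidablePred (fun _ : ℕ => True),
      @Nat.count (fun _ : ℕ => True) inst 1 = 1 := by
    intro inst
    simp [Nat.count_succ]
  rw [abs_le] at h1
  have h4 := h1.2
  rw [h3] at h4
  push_cast at h4
  linarith

theorem Har_eq (N : ℕ) : Har N = ((harmonic N : ℚ) : ℝ) := by
  unfold Har harmonic
  push_cast
  apply Finset.sum_congr rfl
  intro i _
  rw [one_div]

theorem Har_le (N : ℕ) : Har N ≤ 1 + Real.log N := by
  rw [Har_eq]
  exact harmonic_le_one_add_log N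

/-- the logarithmic sums of a set without geometric progressions -/
theorem lsum_le_sK {A : Set ℕ} (hA : GPFree A) (K : ℕ) :
    ∃ C : ℝ, ∀ N : ℕ, lsum A N ≤ sK K * Real.log N + C := by
  have hW := W_nonneg K
  refine ⟨sK K + W K * (phi K + 2 * (P K * 1 + 2)), fun N => ?_⟩
  have h1 := lsum_slice hA (K := K) (C := W K) (fun _ hB hG => rs_le_W hB hG) N
  have h2 := lsum_upper (phi_pos K).le (C := (P K : ℝ) * 1 + 2) (by positivity) (cnt_rough_le K) N
  have h3 := mul_le_mul_of_nonneg_left h2 hW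
  have h4 := mul_le_mul_of_nonneg_left (Har_le N) (sK_nonneg K)
  have h5 : sK K = phi K * W K := rfl
  calc lsum A N ≤ W K * lsum {m | Rough K m} N := h1
    _ ≤ W K * (phi K * Har N + (phi K + 2 * (P K * 1 + 2))) := h3
    _ = sK K * Har N + W K * (phi K + 2 * (P K * 1 + 2)) := by rw [h5]; ring
    _ ≤ sK K * (1 + Real.log N) + W K * (phi K + 2 * (P K * 1 + 2)) := by linarith
    _ = sK K * Real.log N + (sK K + W K * (phi K + 2 * (P K * 1 + 2))) := by ring

open Classical in
/-- the upper logarithmic density of a set without geometric progressions is at most `s` -/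
theorem log_density_le {A : Set ℕ} (hA : GPFree A) {ε : ℝ} (hε : 0 < ε) :
    ∀ᶠ N : ℕ in atTop, ∑ n ∈ (Finset.Icc 1 N).filter (· ∈ A), 1 / (n : ℝ) ≤
      (supDensity + ε) * Real.log N := by
  rw [supDensity_eq]
  have h1 : ∃ K, sK K < sigma + ε / 2 := by
    apply exists_lt_of_ciInf_lt
    have : sigma = ⨅ K : ℕ, sK K := rfl
    rw [← this]
    linarith
  obtain ⟨K, hK⟩ := h1
  obtain ⟨C, hC⟩ := lsum_le_sK hA K
  have h2 : Tendsto (fun N : ℕ => ε / 2 * Real.log N) atTop atTop :=
    (Real.tendsto_log_atTop.comp tendsto_natCast_atTop_atTop).const_mul_atTop (by positivity)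
  filter_upwards [h2.eventually_ge_atTop C, eventually_ge_atTop 1] with N hN hN1
  have h3 := hC N
  rw [lsum_eq] at h3
  have h4 : 0 ≤ Real.log N := Real.log_nonneg (by exact_mod_cast hN1)
  nlinarith

theorem densities_eq : {d : ℝ | ∃ A : Set ℕ, GPFree A ∧ HasDensity A d} = Set.Icc 0 supDensity := by
  rw [supDensity_eq]
  ext d
  constructor
  · rintro ⟨A, hA, hd⟩
    refine ⟨?_, density_le_sigma hA hd⟩
    exact ge_of_tendsto' hd fun n => div_nonneg (Nat.cast_nonneg _) (Nat.cast_nonneg _)
  · rintro ⟨h0, h1⟩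
    obtain ⟨A, hA, hd⟩ := attained
    obtain ⟨B, hBA, hB⟩ := thin hd h0 h1
    exact ⟨B, hA.mono hBA, hB⟩

/-- `n ↦ 1/√n` as a monoid homomorphism. -/
noncomputable def sqHom : ℕ →* ℝ where
  toFun n := (Real.sqrt n)⁻¹
  map_one' := by simp
  map_mul' := by intro a b; push_cast; rw [Real.sqrt_mul (Nat.cast_nonneg _), mul_inv]

theorem hasSum_smooth_sqrt (K : ℕ) :
    HasSum ((K.smoothNumbers).indicator (fun n : ℕ => (Real.sqrt n)⁻¹))
      (∏ p ∈ K.primesBelow, (1 - (Real.sqrt p)⁻¹)⁻¹) := by
  have h := (EulerProduct.summable_and_hasSum_smoothNumbers_prod_primesBelow_geometric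
    (f := sqHom) (by
      intro p hp
      change ‖(Real.sqrt (p : ℝ))⁻¹‖ < 1
      rw [norm_inv, Real.norm_of_nonneg (Real.sqrt_nonneg _)]
      apply inv_lt_one_of_one_lt₀
      rw [Real.lt_sqrt (by norm_num)]
      have : (1 : ℝ) < p := by exact_mod_cast hp.one_lt
      linarith) K).2
  refine (hasSum_subtype_iff_indicator (s := K.smoothNumbers)
    (f := fun n : ℕ => (Real.sqrt n)⁻¹) (a := _)).1 (h.congr_fun (fun x => ?_))
  simp [sqHom]

theorem sum_sqrt_le {K : ℕ} {B : Finset ℕ} (hB : (B : Set ℕ) ⊆ K.smoothNumbers) :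
    ∑ b ∈ B, (Real.sqrt b)⁻¹ ≤ ∏ p ∈ K.primesBelow, (1 - (Real.sqrt p)⁻¹)⁻¹ := by
  have h := sum_le_hasSum B (fun i _ => ?_) (hasSum_smooth_sqrt K)
  · refine le_trans (le_of_eq ?_) h
    apply Finset.sum_congr rfl
    intro b hb
    rw [Set.indicator_of_mem (hB hb)]
  · apply Set.indicator_nonneg
    intro n _
    positivity

/-- explicit bound for the tail -/
theorem tailDensity_le (k N : ℕ) :
    tailDensity k N ≤ (∏ p ∈ k.primesBelow, (1 + 1 / Real.sqrt p)) / Real.sqrt (N + 1) := by
  classical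
  have hp := phi_pos k
  set Z : ℝ := ∏ p ∈ k.primesBelow, (1 - (Real.sqrt p)⁻¹)⁻¹ with hZ
  have hN : 0 < Real.sqrt ((N : ℝ) + 1) := Real.sqrt_pos.2 (by positivity)
  have h1 : (phi k)⁻¹ ≤ rs (Nat.smoothNumbersUpTo N k) + Z / Real.sqrt (N + 1) := by
    refine hasSum_le_of_sum_le (hasSum_smooth k) fun s => ?_
    have h2 : ∑ i ∈ s, (k.smoothNumbers).indicator (fun n : ℕ => 1 / (n : ℝ)) i =
        rs (s.filter (fun n => n ∈ k.smoothNumbers)) := by
      unfold rs
      rw [Finset.sum_filter]
      apply Finset.sum_congr rfl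
      intro i _
      by_cases hi : i ∈ k.smoothNumbers
      · rw [Set.indicator_of_mem hi, if_pos hi]
      · rw [Set.indicator_of_notMem hi, if_neg hi]
    rw [h2]
    set B := s.filter (fun n => n ∈ k.smoothNumbers) with hBdef
    have hBs : (B : Set ℕ) ⊆ k.smoothNumbers := by
      intro n hn
      exact (Finset.mem_filter.1 hn).2
    have h3 : rs B = rs (B.filter (· ≤ N)) + rs (B.filter (fun n => ¬ n ≤ N)) := by
      unfold rs
      rw [Finset.sum_filter_add_sum_filter_not]
    have h4 : rs (B.filter (· ≤ N)) ≤ rs (Nat.smoothNumbersUpTo N k) := by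
      unfold rs
      apply Finset.sum_le_sum_of_subset_of_nonneg
      · intro n hn
        rw [Finset.mem_filter] at hn
        exact Nat.mem_smoothNumbersUpTo.2 ⟨hn.2, hBs hn.1⟩
      · intro i _ _
        positivity
    have h5 : rs (B.filter (fun n => ¬ n ≤ N)) ≤ Z / Real.sqrt (N + 1) := by
      have h6 : rs (B.filter (fun n => ¬ n ≤ N)) ≤
          ∑ b ∈ B.filter (fun n => ¬ n ≤ N), (Real.sqrt b)⁻¹ * (Real.sqrt (N + 1))⁻¹ := by
        unfold rs
        apply Finset.sum_le_sum
        intro b hb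
        rw [Finset.mem_filter] at hb
        have hb1 : ((N : ℝ) + 1) ≤ b := by
          have : N + 1 ≤ b := by omega
          exact_mod_cast this
        have hb0 : (0 : ℝ) < b := by
          have : (0 : ℝ) ≤ N := Nat.cast_nonneg _
          linarith
        have hsq : Real.sqrt ((N : ℝ) + 1) ≤ Real.sqrt b := Real.sqrt_le_sqrt hb1
        have hbs : 0 < Real.sqrt (b : ℝ) := Real.sqrt_pos.2 hb0
        rw [← mul_inv, one_div]
        apply inv_anti₀ (by positivity)
        calc Real.sqrt (b : ℝ) * Real.sqrt (N + 1) ≤ Real.sqrt (b : ℝ) * Real.sqrt b :=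
              mul_le_mul_of_nonneg_left hsq hbs.le
          _ = b := Real.mul_self_sqrt hb0.le
      refine h6.trans ?_
      rw [← Finset.sum_mul, div_eq_mul_inv]
      apply mul_le_mul_of_nonneg_right _ (by positivity)
      apply sum_sqrt_le
      intro n hn
      exact hBs (Finset.mem_filter.1 hn).1
    rw [h3]
    linarith
  have h7 := mul_le_mul_of_nonneg_left h1 hp.le
  rw [mul_inv_cancel₀ hp.ne'] at h7
  have h8 : phi k * Z = ∏ p ∈ k.primesBelow, (1 + 1 / Real.sqrt p) := by
    rw [hZ]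
    unfold phi
    rw [← Finset.prod_mul_distrib]
    apply Finset.prod_congr rfl
    intro p hpp
    have hpr : p.Prime := Nat.prime_of_mem_primesBelow hpp
    have h9 : (1 : ℝ) < p := by exact_mod_cast hpr.one_lt
    have h10 : 1 < Real.sqrt (p : ℝ) := by
      rw [Real.lt_sqrt (by norm_num)]
      linarith
    have h11 : (p : ℝ) = Real.sqrt p * Real.sqrt p := (Real.mul_self_sqrt (by linarith)).symm
    have h12 : Real.sqrt (p : ℝ) - 1 ≠ 0 := by linarith
    have h13 : Real.sqrt (p : ℝ) ≠ 0 := by linarith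
    have h14 : (1 : ℝ) - (Real.sqrt p)⁻¹ ≠ 0 := by
      have : (Real.sqrt (p : ℝ))⁻¹ < 1 := inv_lt_one_of_one_lt₀ h10
      linarith
    have h15 : (1 : ℝ) - 1 / (p : ℝ) = (1 - (Real.sqrt p)⁻¹) * (1 + 1 / Real.sqrt p) := by
      conv_lhs => rw [h11]
      field_simp
      ring
    rw [h15]
    field_simp
  rw [tailDensity_eq]
  have h16 : phi k * (rs (Nat.smoothNumbersUpTo N k) + Z / Real.sqrt (N + 1)) =
      phi k * rs (Nat.smoothNumbersUpTo N k) + (phi k * Z) / Real.sqrt (N + 1) := by ring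
  rw [h16, h8] at h7
  linarith

open Classical in
/-- `A` has logarithmic density `d`: `(∑ 1/n over n ∈ A, n ≤ N) / log N → d`. -/
def HasLogDensity (A : Set ℕ) (d : ℝ) : Prop :=
  Tendsto (fun N : ℕ => (∑ n ∈ (Finset.Icc 1 N).filter (· ∈ A), 1 / (n : ℝ)) / Real.log N) atTop (𝓝 d)

theorem le_Har (N : ℕ) : Real.log N ≤ Har N := by
  rcases Nat.eq_zero_or_pos N with rfl | hN
  · simp [Har]
  · rw [Har_eq]
    refine le_trans ?_ (log_add_one_le_harmonic N)
    apply Real.log_le_log (by exact_mod_cast hN)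
    push_cast
    linarith

theorem hasLogDensity_of {A : Set ℕ} {d : ℝ} (hd : HasDensity A d) : HasLogDensity A d := by
  have hd0 : 0 ≤ d := ge_of_tendsto' hd fun n => div_nonneg (Nat.cast_nonneg _) (Nat.cast_nonneg _)
  unfold HasLogDensity
  rw [Metric.tendsto_atTop]
  intro ε hε
  have h1 := hasDensity_iff.1 hd (ε / 4) (by positivity)
  obtain ⟨X, hX⟩ := eventually_atTop.1 h1
  -- upper bound for all `x`
  have hup : ∀ x : ℕ, (cnt A x : ℝ) ≤ (d + ε / 4) * x + X := by
    intro x
    rcases le_total X x with h | h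
    · have := (abs_le.1 (hX x h)).2
      have hX0 : (0 : ℝ) ≤ X := Nat.cast_nonneg _
      nlinarith
    · have h2 : (cnt A x : ℝ) ≤ x := by exact_mod_cast cnt_le A x
      have h3 : (x : ℝ) ≤ X := by exact_mod_cast h
      have h4 : (0 : ℝ) ≤ (d + ε / 4) * x := by positivity
      linarith
  have hlow : ∀ N, X ≤ N → (d - ε / 4) * (Har N - Har X) ≤ lsum A N := by
    intro N hN
    by_cases hneg : d - ε / 4 < 0
    · have h2 : 0 ≤ Har N - Har X := by linarith [Har_mono hN]
      have h3 : 0 ≤ lsum A N := by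
        rw [lsum_eq]
        exact Finset.sum_nonneg fun i _ => by positivity
      nlinarith
    · push Not at hneg
      refine lsum_lower hneg (X := X) ?_ N hN
      intro x hx
      have := (abs_le.1 (hX x hx)).1
      linarith
  have hlogt : Tendsto (fun N : ℕ => ε / 4 * Real.log N) atTop atTop :=
    (Real.tendsto_log_atTop.comp tendsto_natCast_atTop_atTop).const_mul_atTop (by positivity)
  have hC1 := hlogt.eventually_ge_atTop ((d + ε / 4) + ((d + ε / 4) + 2 * X))
  have hC2 := hlogt.eventually_ge_atTop ((d + ε / 4) * Har X)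
  have hlog1 : ∀ᶠ N : ℕ in atTop, 0 < Real.log N := by
    filter_upwards [eventually_ge_atTop 2] with N hN
    exact Real.log_pos (by exact_mod_cast hN)
  obtain ⟨M, hM⟩ := eventually_atTop.1 (hC1.and (hC2.and (hlog1.and (eventually_ge_atTop X))))
  refine ⟨M, fun N hN => ?_⟩
  obtain ⟨h2, h3, h4, h5⟩ := hM N hN
  rw [← lsum_eq, Real.dist_eq]
  have hA1 := lsum_upper (A := A) (δ := d + ε / 4) (C := X) (by positivity) (Nat.cast_nonneg _) hup N
  have hA2 := hlow N h5
  have hH1 := Har_le N
  have hH2 := le_Har N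
  have hHX : 0 ≤ Har X := Har_nonneg X
  have key : |lsum A N - d * Real.log N| ≤ 3 * (ε / 4) * Real.log N := by
    rw [abs_le]
    constructor
    · by_cases hneg : d - ε / 4 < 0
      · have h6 : 0 ≤ lsum A N := by
          rw [lsum_eq]
          exact Finset.sum_nonneg fun i _ => by positivity
        nlinarith
      · push Not at hneg
        have h6 : (d - ε / 4) * (Real.log N - Har X) ≤ (d - ε / 4) * (Har N - Har X) :=
          mul_le_mul_of_nonneg_left (by linarith) hneg
        have h7 : (d - ε / 4) * Har X ≤ (d + ε / 4) * Har X :=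
          mul_le_mul_of_nonneg_right (by linarith) hHX
        nlinarith
    · have h6 : (d + ε / 4) * Har N ≤ (d + ε / 4) * (1 + Real.log N) :=
        mul_le_mul_of_nonneg_left hH1 (by positivity)
      nlinarith
  have h8 : lsum A N / Real.log N - d = (lsum A N - d * Real.log N) / Real.log N := by
    field_simp
  rw [h8, abs_div, abs_of_pos h4, div_lt_iff₀ h4]
  nlinarith

theorem log_density_le_sup {A : Set ℕ} (hA : GPFree A) {d : ℝ} (hd : HasLogDensity A d) :
    d ≤ supDensity := by
  classical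
  apply le_of_forall_pos_le_add
  intro ε hε
  have h1 := log_density_le hA hε
  refine le_of_tendsto hd ?_
  filter_upwards [h1, eventually_ge_atTop 2] with N hN hN2
  have h2 : 0 < Real.log N := Real.log_pos (by exact_mod_cast hN2)
  rw [div_le_iff₀ h2]
  convert hN

theorem logDensities_eq :
    {d : ℝ | ∃ A : Set ℕ, GPFree A ∧ HasLogDensity A d} = Set.Icc 0 supDensity := by
  ext d
  constructor
  · rintro ⟨A, hA, hd⟩
    refine ⟨?_, log_density_le_sup hA hd⟩
    refine ge_of_tendsto' hd fun n => div_nonneg (Finset.sum_nonneg fun i _ => by positivity) ?_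
    exact Real.log_natCast_nonneg n
  · intro hd
    rw [← densities_eq] at hd
    obtain ⟨A, hA, hd⟩ := hd
    exact ⟨A, hA, hasLogDensity_of hd⟩

end Pool.Agent.Lib.MP_f8fa1d_co
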