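import Pool.Agent.Lib.MP_f8fa1d_co.Upper

/-!
# The constants `sK K` and their infimum
-/

namespace Pool.Agent.Lib.MP_f8fa1d_co

open Filter Topology

/-- `n ↦ 1/n` as a monoid homomorphism. -/
noncomputable def invHom : ℕ →* ℝ where
  toFun n := (n : ℝ)⁻¹
  map_one' := by simp
  map_mul' := by intro a b; push_cast; rw [mul_inv]

theorem hasSum_smooth (K : ℕ) :
    HasSum ((K.smoothNumbers).indicator (fun n : ℕ => 1 / (n : ℝ))) (phi K)⁻¹ := by
  have h := (EulerProduct.summable_and_hasSum_smoothNumbers_prod_primesBelow_geometric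
    (f := invHom) (by
      intro p hp
      change ‖((p : ℝ))⁻¹‖ < 1
      rw [norm_inv, Real.norm_natCast]
      apply inv_lt_one_of_one_lt₀
      exact_mod_cast hp.one_lt) K).2
  have h2 : (∏ p ∈ K.primesBelow, (1 - invHom p)⁻¹) = (phi K)⁻¹ := by
    unfold phi
    rw [← Finset.prod_inv_distrib]
    apply Finset.prod_congr rfl
    intro p _
    change (1 - (p : ℝ)⁻¹)⁻¹ = _
    rw [one_div]
  rw [h2] at h
  refine (hasSum_subtype_iff_indicator (s := K.smoothNumbers) (f := fun n : ℕ => 1 / (n : ℝ))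
    (a := (phi K)⁻¹)).1 (h.congr_fun (fun x => ?_))
  simp [invHom]

theorem rs_le {K : ℕ} {B : Finset ℕ} (hB : (B : Set ℕ) ⊆ K.smoothNumbers) : rs B ≤ (phi K)⁻¹ := by
  have h := sum_le_hasSum B (fun i _ => ?_) (hasSum_smooth K)
  · refine le_trans (le_of_eq ?_) h
    unfold rs
    apply Finset.sum_congr rfl
    intro b hb
    rw [Set.indicator_of_mem (hB hb)]
  · apply Set.indicator_nonneg
    intro n _
    positivity

/-- The set of reciprocal sums of the finite GP-free sets of `K`-smooth numbers. -/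
def Wset (K : ℕ) : Set ℝ :=
  {x | ∃ B : Finset ℕ, (B : Set ℕ) ⊆ K.smoothNumbers ∧ GPFree (B : Set ℕ) ∧ x = rs B}

theorem gpFree_empty : GPFree (∅ : Set ℕ) := by rw [gpFree_iff]; simp

theorem Wset_nonempty (K : ℕ) : (Wset K).Nonempty := ⟨rs ∅, ∅, by simp, by simpa using gpFree_empty, rfl⟩

theorem Wset_bddAbove (K : ℕ) : BddAbove (Wset K) := by
  refine ⟨(phi K)⁻¹, ?_⟩
  rintro x ⟨B, hB, _, rfl⟩
  exact rs_le hB

/-- The supremum of the reciprocal sums of finite GP-free sets of `K`-smooth numbers. -/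
noncomputable def W (K : ℕ) : ℝ := sSup (Wset K)

theorem rs_le_W {K : ℕ} {B : Finset ℕ} (hB : (B : Set ℕ) ⊆ K.smoothNumbers)
    (hG : GPFree (B : Set ℕ)) : rs B ≤ W K := le_csSup (Wset_bddAbove K) ⟨B, hB, hG, rfl⟩

theorem W_nonneg (K : ℕ) : 0 ≤ W K :=
  le_trans (rs_nonneg ∅) (rs_le_W (K := K) (by simp) (by simpa using gpFree_empty))

/-- `sK K = ∏_{p<K}(1-1/p) · W K`. -/
noncomputable def sK (K : ℕ) : ℝ := phi K * W K

theorem sK_nonneg (K : ℕ) : 0 ≤ sK K := mul_nonneg (phi_pos K).le (W_nonneg K)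

/-- The extremal density. -/
noncomputable def sigma : ℝ := ⨅ K : ℕ, sK K

theorem sigma_bdd : BddBelow (Set.range sK) := ⟨0, by rintro x ⟨K, rfl⟩; exact sK_nonneg K⟩

theorem sigma_le (K : ℕ) : sigma ≤ sK K := ciInf_le sigma_bdd K

theorem sigma_nonneg : 0 ≤ sigma := le_ciInf sK_nonneg

/-- Any lower density of a GP-free set is at most `sK K`. -/
theorem lower_le_sK {A : Set ℕ} (hA : GPFree A) {β : ℝ} (hβ : ∀ᶠ x : ℕ in atTop, β * x ≤ cnt A x)
    (K : ℕ) : β ≤ sK K :=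
  density_le hA hβ (fun _ hB hG => rs_le_W hB hG)

theorem lower_le_sigma {A : Set ℕ} (hA : GPFree A) {β : ℝ}
    (hβ : ∀ᶠ x : ℕ in atTop, β * x ≤ cnt A x) : β ≤ sigma :=
  le_ciInf (lower_le_sK hA hβ)

/-- The set of `n` whose `K`-smooth part is in `B` and which are divisible by no square `d ^ 2`
with `d ≥ K`. -/
def Nice (K : ℕ) (B : Set ℕ) : Set ℕ := {n | 0 < n ∧ sm K n ∈ B ∧ n ∉ Sq K}

theorem not_sq {K n : ℕ} (h : n ∉ Sq K) : ∀ d, K ≤ d → ¬ d ^ 2 ∣ n := by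
  intro d hd h2
  exact h ⟨d, hd, h2⟩

theorem not_sq_mono {K L n : ℕ} (hKL : K ≤ L) (h : n ∉ Sq K) : n ∉ Sq L := by
  rintro ⟨d, hd, h2⟩
  exact h ⟨d, le_trans hKL hd, h2⟩

theorem Nice_free {K : ℕ} {B : Set ℕ} (hB : GPFree B) : GPFree (Nice K B) := by
  rw [gpFree_iff]
  refine ⟨fun n hn => hn.1, ?_⟩
  intro a ha b hb c hc h
  obtain ⟨h1, h2⟩ := ro_eq_of_gp ha.1.ne' hb.1.ne' hc.1.ne' h (not_sq ha.2.2) (not_sq hb.2.2)
    (not_sq hc.2.2)
  exact eq_of_sm_ro ha.1.ne' hb.1.ne'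
    (hB.eq ha.2.1 hb.2.1 hc.2.1 (sm_gp ha.1.ne' hb.1.ne' hc.1.ne' h)) h1

/-- Lower bound for the counting function of `Nice K B`. -/
theorem cnt_Nice {K : ℕ} (hK : 2 ≤ K) (B : Finset ℕ) (hB : (B : Set ℕ) ⊆ K.smoothNumbers) :
    ∃ C : ℝ, ∀ x : ℕ, (phi K * rs B - 1 / (K - 1)) * x - C ≤ cnt (Nice K B) x := by
  classical
  obtain ⟨C, hC⟩ := cnt_Lev_class K (L := 1) (by norm_num) (fun _ => True) B hB
  refine ⟨C, fun x => ?_⟩
  have h1 := hC x
  have h3 : ∀ inst : DecidablePred (fun _ : ℕ => True),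
      @Nat.count (fun _ : ℕ => True) inst 1 = 1 := by
    intro inst
    simp [Nat.count_succ]
  rw [h3, abs_le] at h1
  have h2 : cnt (Lev K B (fun m => (fun _ : ℕ => True) ((m / P K) % 1))) x ≤
      cnt (Nice K B) x + cnt (Sq K) x := by
    apply cnt_le_add
    intro n hn hA hE
    exact ⟨hn, hA.2.1, hE⟩
  have h4 := cnt_Sq hK x
  have h5 : (cnt (Lev K B (fun m => (fun _ : ℕ => True) ((m / P K) % 1))) x : ℝ) ≤
      cnt (Nice K B) x + cnt (Sq K) x := by exact_mod_cast h2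
  have h6 := h1.1
  push_cast at h6
  have h7 : (x : ℝ) / (K - 1) = 1 / (K - 1) * x := by ring
  rw [h7] at h4
  nlinarith

theorem eventually_of_cnt {A : Set ℕ} {δ C : ℝ} (h : ∀ x : ℕ, δ * x - C ≤ cnt A x) {ε : ℝ}
    (hε : 0 < ε) : ∀ᶠ x : ℕ in atTop, (δ - ε) * x ≤ cnt A x := by
  have h1 : Tendsto (fun x : ℕ => ε * (x : ℝ)) atTop atTop :=
    tendsto_natCast_atTop_atTop.const_mul_atTop hε
  filter_upwards [h1.eventually_ge_atTop C] with x hx
  have := h x
  linarith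

/-- The two-sided bound for `sigma`: the lower half. -/
theorem le_sigma {K : ℕ} (hK : 2 ≤ K) (B : Finset ℕ) (hB : (B : Set ℕ) ⊆ K.smoothNumbers)
    (hG : GPFree (B : Set ℕ)) : phi K * rs B - 1 / (K - 1) ≤ sigma := by
  obtain ⟨C, hC⟩ := cnt_Nice hK B hB
  apply le_of_forall_pos_lt_add
  intro ε hε
  have h1 := lower_le_sigma (Nice_free (K := K) hG) (eventually_of_cnt hC (ε := ε / 2) (by positivity))
  linarith

theorem sK_sub_le_sigma {K : ℕ} (hK : 2 ≤ K) : sK K - 1 / (K - 1) ≤ sigma := by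
  have hp := phi_pos K
  have h : W K ≤ (sigma + 1 / (K - 1)) / phi K := by
    apply csSup_le (Wset_nonempty K)
    rintro x ⟨B, hB, hG, rfl⟩
    rw [le_div_iff₀ hp]
    have := le_sigma hK B hB hG
    linarith
  rw [le_div_iff₀ hp] at h
  unfold sK
  linarith

/-- The densities of GP-free sets are at most `sigma`. -/
theorem density_le_sigma {A : Set ℕ} (hA : GPFree A) {d : ℝ} (hd : HasDensity A d) : d ≤ sigma := by
  apply le_of_forall_pos_lt_add
  intro ε hε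
  have h1 := hasDensity_iff.1 hd (ε / 2) (by positivity)
  have h2 : ∀ᶠ x : ℕ in atTop, (d - ε / 2) * x ≤ cnt A x := by
    filter_upwards [h1] with x hx
    rw [abs_le] at hx
    linarith [hx.1]
  have := lower_le_sigma hA h2
  linarith

end Pool.Agent.Lib.MP_f8fa1d_co
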