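import Pool.Agent.Lib.MP_f8fa1d_co.Finite

/-!
# Rankin's greedy set and a local improvement
-/

namespace Pool.Agent.Lib.MP_f8fa1d_co

open Filter Topology

/-- The base-3 digits of `e` lie in `{0, 1}`. -/
def Good (e : ℕ) : Prop := 2 ∉ Nat.digits 3 e

theorem good_zero : Good 0 := by unfold Good; simp

theorem good_iff {e : ℕ} : Good e ↔ e % 3 ≠ 2 ∧ Good (e / 3) := by
  by_cases h : e = 0
  · subst h; simp [Good]
  · unfold Good
    rw [Nat.digits_def' (by norm_num) (Nat.pos_of_ne_zero h), List.mem_cons, not_or]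
    constructor
    · rintro ⟨h1, h2⟩; exact ⟨fun h3 => h1 h3.symm, h2⟩
    · rintro ⟨h1, h2⟩; exact ⟨fun h3 => h1 h3.symm, h2⟩

theorem good_ap : ∀ n x y z : ℕ, x + z = n → Good x → Good y → Good z → x + z = 2 * y → x = y := by
  intro n
  induction n using Nat.strong_induction_on with
  | _ n ih =>
    intro x y z hn hx hy hz h
    by_cases h0 : n = 0
    · omega
    rw [good_iff] at hx hy hz
    obtain ⟨hx1, hx2⟩ := hx
    obtain ⟨hy1, hy2⟩ := hy
    obtain ⟨hz1, hz2⟩ := hz
    have h1 : x % 3 = z % 3 := by omega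
    have h2 : x % 3 = y % 3 := by omega
    have h3 := ih (x / 3 + z / 3) (by omega) (x / 3) (y / 3) (z / 3) rfl hx2 hy2 hz2 (by omega)
    omega

theorem good_one : Good 1 := by unfold Good; norm_num

theorem not_good_two : ¬ Good 2 := by unfold Good; norm_num

theorem good_four : Good 4 := by unfold Good; norm_num

theorem good_of_le_one {e : ℕ} (h : e ≤ 1) : Good e := by
  interval_cases e
  · exact good_zero
  · exact good_one

theorem Rankin_free : GPFree RankinSet := by
  rw [gpFree_iff]
  refine ⟨fun n hn => hn.1, ?_⟩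
  intro a ha b hb c hc h
  apply Nat.eq_of_factorization_eq ha.1.ne' hb.1.ne'
  intro p
  have h1 := gp_factorization ha.1.ne' hb.1.ne' hc.1.ne' h p
  by_cases hp : p.Prime
  · exact good_ap _ _ _ _ rfl (ha.2 p hp) (hb.2 p hp) (hc.2 p hp) h1
  · rw [Nat.factorization_eq_zero_of_not_prime _ hp, Nat.factorization_eq_zero_of_not_prime _ hp]

theorem factorization_P (k p : ℕ) : (P k).factorization p = if p.Prime ∧ p < k then 1 else 0 := by
  unfold P
  rw [Nat.factorization_prod (fun q hq => (Nat.prime_of_mem_primesBelow hq).ne_zero)]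
  rw [Finsupp.finsetSum_apply]
  have h1 : ∀ q ∈ k.primesBelow, (q.factorization) p = if p = q then 1 else 0 := by
    intro q hq
    rw [(Nat.prime_of_mem_primesBelow hq).factorization, Finsupp.single_apply]
    by_cases h : q = p
    · rw [if_pos h, if_pos h.symm]
    · rw [if_neg h, if_neg (fun h' => h h'.symm)]
  rw [Finset.sum_congr rfl h1, Finset.sum_ite_eq]
  congr 1
  rw [Nat.mem_primesBelow]
  simp only [and_comm]

theorem P_dvd_iff {k n : ℕ} (hn : n ≠ 0) : P k ∣ n ↔ ∀ p, p.Prime → p < k → 1 ≤ n.factorization p := by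
  rw [← Nat.factorization_le_iff_dvd (P_pos k).ne' hn]
  constructor
  · intro h p hp hpk
    have := h p
    rw [factorization_P, if_pos ⟨hp, hpk⟩] at this
    exact this
  · intro h p
    rw [factorization_P]
    split_ifs with h1
    · exact h p h1.1 h1.2
    · exact Nat.zero_le _

/-- The new elements. -/
def Ynew (k : ℕ) : Set ℕ := {n | n = 2 * P k ∨ ∃ q, q.Prime ∧ 3 ≤ q ∧ q < k ∧ n = 2 * q * P k}

/-- The removed elements not divisible by `P k`. -/
def Zold (k : ℕ) : Set ℕ := {n | ∃ q, q.Prime ∧ 3 ≤ q ∧ q < k ∧ 2 * n = q ^ 3 * P k}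

/-- The modified set. -/
def Modif (k : ℕ) : Set ℕ :=
  {n | n ∈ RankinSet ∧ n ∈ k.smoothNumbers ∧ ¬ P k ∣ n ∧ n ∉ Zold k} ∪ Ynew k

theorem Ynew_pos {k n : ℕ} (hn : n ∈ Ynew k) : 0 < n := by
  have h0 := P_pos k
  rcases hn with rfl | ⟨q, hq, _, _, rfl⟩
  · omega
  · have := hq.pos
    positivity

theorem Ynew_dvd {k n : ℕ} (hn : n ∈ Ynew k) : P k ∣ n := by
  rcases hn with rfl | ⟨q, hq, _, _, rfl⟩
  · exact Dvd.intro_left _ rfl
  · exact Dvd.intro_left _ rfl

theorem Ynew_two {k n : ℕ} (hk : 2 < k) (hn : n ∈ Ynew k) : n.factorization 2 = 2 := by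
  have h0 := (P_pos k).ne'
  rcases hn with rfl | ⟨q, hq, hq3, _, rfl⟩
  · rw [Nat.factorization_mul (by norm_num) h0, Finsupp.add_apply, factorization_P,
      if_pos ⟨Nat.prime_two, hk⟩, Nat.prime_two.factorization_self]
  · rw [Nat.factorization_mul (mul_ne_zero (by norm_num) hq.ne_zero) h0,
      Nat.factorization_mul (by norm_num) hq.ne_zero, Finsupp.add_apply, Finsupp.add_apply,
      factorization_P, if_pos ⟨Nat.prime_two, hk⟩, Nat.prime_two.factorization_self,
      hq.factorization, Finsupp.single_apply, if_neg (by omega)]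
    norm_num

/-- Description of the exponents of the new elements. -/
theorem Ynew_exp {k n : ℕ} (_hk : 2 < k) (hn : n ∈ Ynew k) :
    (∀ p, p.Prime → p ≠ 2 → p < k → n.factorization p = 1) ∨
      ∃ q, q.Prime ∧ 3 ≤ q ∧ q < k ∧ n.factorization q = 2 ∧
        ∀ p, p.Prime → p ≠ 2 → p ≠ q → p < k → n.factorization p = 1 := by
  have h0 := (P_pos k).ne'
  rcases hn with rfl | ⟨q, hq, hq3, hqk, rfl⟩
  · left
    intro p hp hp2 hpk
    rw [Nat.factorization_mul (by norm_num) h0, Finsupp.add_apply, factorization_P,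
      if_pos ⟨hp, hpk⟩, Nat.prime_two.factorization, Finsupp.single_apply, if_neg (Ne.symm hp2)]
  · right
    refine ⟨q, hq, hq3, hqk, ?_, ?_⟩
    · rw [Nat.factorization_mul (mul_ne_zero (by norm_num) hq.ne_zero) h0,
        Nat.factorization_mul (by norm_num) hq.ne_zero, Finsupp.add_apply, Finsupp.add_apply,
        factorization_P, if_pos ⟨hq, hqk⟩, hq.factorization_self, Nat.prime_two.factorization,
        Finsupp.single_apply, if_neg (by omega)]
    · intro p hp hp2 hpq hpk
      rw [Nat.factorization_mul (mul_ne_zero (by norm_num) hq.ne_zero) h0,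
        Nat.factorization_mul (by norm_num) hq.ne_zero, Finsupp.add_apply, Finsupp.add_apply,
        factorization_P, if_pos ⟨hp, hpk⟩, hq.factorization, Nat.prime_two.factorization,
        Finsupp.single_apply, if_neg (Ne.symm hp2), Finsupp.single_apply, if_neg (Ne.symm hpq)]
      norm_num

theorem Ynew_ge {k n p : ℕ} (hk : 2 < k) (hn : n ∈ Ynew k) (hp : k ≤ p) : n.factorization p = 0 := by
  have h0 := (P_pos k).ne'
  rcases hn with rfl | ⟨q, hq, hq3, hqk, rfl⟩
  · rw [Nat.factorization_mul (by norm_num) h0, Finsupp.add_apply, factorization_P,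
      if_neg (by omega), Nat.prime_two.factorization, Finsupp.single_apply, if_neg (by omega)]
  · rw [Nat.factorization_mul (mul_ne_zero (by norm_num) hq.ne_zero) h0,
      Nat.factorization_mul (by norm_num) hq.ne_zero, Finsupp.add_apply, Finsupp.add_apply,
      factorization_P, if_neg (by omega), hq.factorization, Nat.prime_two.factorization,
      Finsupp.single_apply, if_neg (by omega), Finsupp.single_apply, if_neg (by omega)]
    norm_num

theorem Ynew_smooth {k n : ℕ} (hk : 2 < k) (hn : n ∈ Ynew k) : n ∈ k.smoothNumbers := by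
  rw [Nat.mem_smoothNumbers']
  intro p hp hpd
  by_contra h
  push Not at h
  have h1 := Ynew_ge hk hn h
  have h2 := (hp.dvd_iff_one_le_factorization (Ynew_pos hn).ne').1 hpd
  omega

theorem Modif_pos {k n : ℕ} (hn : n ∈ Modif k) : 0 < n := by
  rcases hn with h | h
  · exact h.1.1
  · exact Ynew_pos h

theorem Modif_smooth {k n : ℕ} (hk : 2 < k) (hn : n ∈ Modif k) : n ∈ k.smoothNumbers := by
  rcases hn with h | h
  · exact h.2.1
  · exact Ynew_smooth hk h

theorem mem_Ynew_of_dvd {k n : ℕ} (hn : n ∈ Modif k) (h : P k ∣ n) : n ∈ Ynew k := by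
  rcases hn with h1 | h1
  · exact absurd h h1.2.2.1
  · exact h1

/-- All three in `Ynew`. -/
theorem Ynew_gp {k a b c : ℕ} (hk : 2 < k) (ha : a ∈ Ynew k) (hb : b ∈ Ynew k) (hc : c ∈ Ynew k)
    (h : a * c = b * b) : a = b := by
  have key : ∀ n ∈ Ynew k, ∀ p, p.Prime → p < k → 1 ≤ n.factorization p ∧ n.factorization p ≤ 2 := by
    intro n hn p hp hpk
    by_cases hp2 : p = 2
    · subst hp2
      rw [Ynew_two hk hn]
      omega
    · rcases Ynew_exp hk hn with h1 | ⟨q, hq, _, _, h2, h3⟩
      · rw [h1 p hp hp2 hpk]; omega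
      · by_cases hpq : p = q
        · subst hpq; omega
        · rw [h3 p hp hp2 hpq hpk]; omega
  apply Nat.eq_of_factorization_eq (Ynew_pos ha).ne' (Ynew_pos hb).ne'
  intro p
  have h1 := gp_factorization (Ynew_pos ha).ne' (Ynew_pos hb).ne' (Ynew_pos hc).ne' h p
  by_cases hp : p.Prime
  · by_cases hpk : p < k
    · have h2 := key a ha p hp hpk
      have h3 := key b hb p hp hpk
      have h4 := key c hc p hp hpk
      omega
    · rw [Ynew_ge hk ha (by omega), Ynew_ge hk hb (by omega)]
  · rw [Nat.factorization_eq_zero_of_not_prime _ hp, Nat.factorization_eq_zero_of_not_prime _ hp]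

/-- The main case. -/
theorem no_mid {k a b c : ℕ} (hk : 2 < k) (ha : a ∈ RankinSet) (haP : ¬ P k ∣ a) (haZ : a ∉ Zold k)
    (hc : c ∈ RankinSet) (hcP : ¬ P k ∣ c) (hcZ : c ∉ Zold k) (hb : b ∈ Ynew k)
    (h : a * c = b * b) : False := by
  have hexp := gp_factorization ha.1.ne' (Ynew_pos hb).ne' hc.1.ne' h
  have hb2 := Ynew_two hk hb
  rw [P_dvd_iff ha.1.ne'] at haP
  rw [P_dvd_iff hc.1.ne'] at hcP
  push Not at haP hcP
  obtain ⟨p0, hp0, hp0k, h0⟩ := haP
  obtain ⟨p1, hp1, hp1k, h1⟩ := hcP
  -- helper: exponents of `b` at most 2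
  have hble : ∀ p, p.Prime → p < k → b.factorization p ≤ 2 := by
    intro p hp hpk
    by_cases hp2 : p = 2
    · subst hp2; omega
    · rcases Ynew_exp hk hb with h1 | ⟨q, hq, _, _, h2, h3⟩
      · rw [h1 p hp hp2 hpk]; omega
      · by_cases hpq : p = q
        · subst hpq; omega
        · rw [h3 p hp hp2 hpq hpk]; omega
  have hbge : ∀ p, p.Prime → p < k → 1 ≤ b.factorization p :=
    (P_dvd_iff (Ynew_pos hb).ne').1 (Ynew_dvd hb)
  -- at p0
  have e0 : b.factorization p0 = 2 := by
    have h2 := hexp p0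
    have h3 := hble p0 hp0 hp0k
    have h4 := hbge p0 hp0 hp0k
    by_contra hne
    have h5 : c.factorization p0 = 2 := by omega
    have := hc.2 p0 hp0
    rw [h5] at this
    exact not_good_two this
  have e1 : b.factorization p1 = 2 := by
    have h2 := hexp p1
    have h3 := hble p1 hp1 hp1k
    have h4 := hbge p1 hp1 hp1k
    by_contra hne
    have h5 : a.factorization p1 = 2 := by omega
    have := ha.2 p1 hp1
    rw [h5] at this
    exact not_good_two this
  have hne : p0 ≠ p1 := by
    rintro rfl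
    have := hexp p0
    omega
  have one : ∀ p, p.Prime → b.factorization p = 1 → a.factorization p = 1 ∧ c.factorization p = 1 := by
    intro p hp hbp
    have h2 := hexp p
    have h3 := good_ap _ _ _ _ rfl (ha.2 p hp) (by rw [hbp]; exact good_one) (hc.2 p hp) h2
    omega
  rcases Ynew_exp hk hb with hall | ⟨q, hq, hq3, hqk, hq2, hall⟩
  · have f0 : p0 = 2 := by
      by_contra hcon
      have := hall p0 hp0 hcon hp0k
      omega
    have f1 : p1 = 2 := by
      by_contra hcon
      have := hall p1 hp1 hcon hp1k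
      omega
    exact hne (f0.trans f1.symm)
  · have f0 : p0 = 2 ∨ p0 = q := by
      by_contra hcon
      push Not at hcon
      have := hall p0 hp0 hcon.1 hcon.2 hp0k
      omega
    have f1 : p1 = 2 ∨ p1 = q := by
      by_contra hcon
      push Not at hcon
      have := hall p1 hp1 hcon.1 hcon.2 hp1k
      omega
    -- a general statement
    have gen : ∀ u : ℕ, 0 < u → u.factorization 2 = 0 → u.factorization q = 4 →
        (∀ p, p.Prime → b.factorization p = 1 → u.factorization p = 1) →
        (∀ p, k ≤ p → u.factorization p = 0) → u ∈ Zold k := by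
      intro u hu hu2 huq hu1 huk
      refine ⟨q, hq, hq3, hqk, ?_⟩
      have hP0 := (P_pos k).ne'
      apply Nat.eq_of_factorization_eq (by positivity)
        (mul_ne_zero (pow_ne_zero _ hq.ne_zero) hP0)
      intro p
      rw [Nat.factorization_mul (by norm_num) hu.ne', Finsupp.add_apply,
        Nat.factorization_mul (pow_ne_zero _ hq.ne_zero) hP0, Finsupp.add_apply,
        Nat.factorization_pow, Finsupp.smul_apply, hq.factorization, Nat.prime_two.factorization,
        factorization_P, Finsupp.single_apply, Finsupp.single_apply]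
      by_cases hp : p.Prime
      · by_cases hpk : p < k
        · rw [if_pos (⟨hp, hpk⟩ : p.Prime ∧ p < k)]
          by_cases hp2 : p = 2
          · subst hp2
            rw [hu2, if_pos rfl, if_neg (by omega)]
            simp
          · by_cases hpq : p = q
            · subst hpq
              rw [huq, if_neg (by omega), if_pos rfl]
              simp
            · rw [hu1 p hp (hall p hp hp2 hpq hpk), if_neg (Ne.symm hp2), if_neg (Ne.symm hpq)]
              simp
        · have e2 : ¬ (2 = p) := by omega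
          have e3 : ¬ (q = p) := by omega
          have e4 : ¬ (p.Prime ∧ p < k) := fun h => hpk h.2
          rw [huk p (by omega), if_neg e2, if_neg e3, if_neg e4]
          simp
      · have e2 : ¬ (2 = p) := by rintro rfl; exact hp Nat.prime_two
        have e3 : ¬ (q = p) := by rintro rfl; exact hp hq
        have e4 : ¬ (p.Prime ∧ p < k) := fun h => hp h.1
        rw [Nat.factorization_eq_zero_of_not_prime _ hp, if_neg e2, if_neg e3, if_neg e4]
        simp
    have hka : ∀ p, k ≤ p → a.factorization p = 0 := by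
      intro p hp
      have h2 := hexp p
      have h3 := Ynew_ge hk hb hp
      omega
    have hkc : ∀ p, k ≤ p → c.factorization p = 0 := by
      intro p hp
      have h2 := hexp p
      have h3 := Ynew_ge hk hb hp
      omega
    rcases f0 with rfl | rfl
    · rcases f1 with rfl | rfl
      · exact hne rfl
      · apply haZ
        refine gen a ha.1 (by omega) ?_ (fun p hp h => (one p hp h).1) hka
        have := hexp p1
        omega
    · rcases f1 with rfl | rfl
      · apply hcZ
        refine gen c hc.1 (by omega) ?_ (fun p hp h => (one p hp h).2) hkc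
        have := hexp p0
        omega
      · exact hne rfl

theorem Modif_free {k : ℕ} (hk : 2 < k) : GPFree (Modif k) := by
  rw [gpFree_iff]
  refine ⟨fun n hn => Modif_pos hn, ?_⟩
  -- if an end is new then everything is new
  have key : ∀ a ∈ Modif k, ∀ b ∈ Modif k, ∀ c ∈ Modif k, a * c = b * b → a ∈ Ynew k →
      b ∈ Ynew k ∧ c ∈ Ynew k := by
    intro a ha b hb c hc h haY
    have hexp := gp_factorization (Modif_pos ha).ne' (Modif_pos hb).ne' (Modif_pos hc).ne' h
    have hbY : b ∈ Ynew k := by
      apply mem_Ynew_of_dvd hb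
      rw [P_dvd_iff (Modif_pos hb).ne']
      intro p hp hpk
      have h1 := (P_dvd_iff (Ynew_pos haY).ne').1 (Ynew_dvd haY) p hp hpk
      have := hexp p
      omega
    refine ⟨hbY, ?_⟩
    have h2 : c.factorization 2 = 2 := by
      have h1 := hexp 2
      have h3 := Ynew_two hk haY
      have h4 := Ynew_two hk hbY
      omega
    rcases hc with hc | hc
    · exfalso
      have := hc.1.2 2 Nat.prime_two
      rw [h2] at this
      exact not_good_two this
    · exact hc
  intro a ha b hb c hc h
  by_cases haY : a ∈ Ynew k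
  · obtain ⟨h1, h2⟩ := key a ha b hb c hc h haY
    exact Ynew_gp hk haY h1 h2 h
  by_cases hcY : c ∈ Ynew k
  · obtain ⟨h1, h2⟩ := key c hc b hb a ha (by rw [mul_comm]; exact h) hcY
    exact absurd h2 haY
  have ha' : a ∈ RankinSet ∧ a ∈ k.smoothNumbers ∧ ¬ P k ∣ a ∧ a ∉ Zold k := by
    rcases ha with ha | ha
    · exact ha
    · exact absurd ha haY
  have hc' : c ∈ RankinSet ∧ c ∈ k.smoothNumbers ∧ ¬ P k ∣ c ∧ c ∉ Zold k := by
    rcases hc with hc | hc
    · exact hc
    · exact absurd hc hcY
  rcases hb with hb | hb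
  · exact Rankin_free.eq ha'.1 hb.1 hc'.1 h
  · exact absurd (no_mid hk ha'.1 ha'.2.2.1 ha'.2.2.2 hc'.1 hc'.2.2.1 hc'.2.2.2 hb h) id

end Pool.Agent.Lib.MP_f8fa1d_co
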