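import Pool.Agent.Lib.MP_f8fa1d_co.Chain

/-!
# Subsets of prescribed smaller density, and the set of guaranteeing densities
-/

namespace Pool.Agent.Lib.MP_f8fa1d_co

open Filter Topology

open Classical in
theorem thin {A : Set ℕ} {d : ℝ} (hd : HasDensity A d) {α : ℝ} (h0 : 0 ≤ α) (hα : α ≤ d) :
    ∃ B : Set ℕ, B ⊆ A ∧ HasDensity B α := by
  by_cases hd0 : d ≤ 0
  · have h1 : α = d := by linarith
    exact ⟨A, subset_rfl, h1 ▸ hd⟩
  push Not at hd0
  set t : ℝ := α / d with ht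
  have ht0 : 0 ≤ t := by positivity
  have ht1 : t ≤ 1 := by rw [ht, div_le_one hd0]; exact hα
  have htd : t * d = α := by rw [ht]; field_simp
  refine ⟨{n | n ∈ A ∧ ⌊t * (cnt A (n - 1) : ℝ)⌋₊ < ⌊t * (cnt A n : ℝ)⌋₊}, fun n hn => hn.1, ?_⟩
  have hcnt : ∀ x, cnt {n | n ∈ A ∧ ⌊t * (cnt A (n - 1) : ℝ)⌋₊ < ⌊t * (cnt A n : ℝ)⌋₊} x =
      ⌊t * (cnt A x : ℝ)⌋₊ := by
    intro x
    induction x with
    | zero => simp [cnt_zero]
    | succ x ih =>
      rw [cnt_succ, ih]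
      simp only [Set.mem_ofPred_eq, Nat.add_sub_cancel]
      by_cases hx : x + 1 ∈ A
      · have h1 : cnt A (x + 1) = cnt A x + 1 := by rw [cnt_succ, if_pos hx]
        rw [h1]
        push_cast
        have h2 : ⌊t * (cnt A x : ℝ)⌋₊ ≤ ⌊t * ((cnt A x : ℝ) + 1)⌋₊ := by
          apply Nat.floor_le_floor
          nlinarith
        have h3 : ⌊t * ((cnt A x : ℝ) + 1)⌋₊ ≤ ⌊t * (cnt A x : ℝ)⌋₊ + 1 := by
          have h4 : ⌊t * (cnt A x : ℝ) + 1⌋₊ = ⌊t * (cnt A x : ℝ)⌋₊ + 1 :=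
            Nat.floor_add_one (by positivity)
          rw [← h4]
          apply Nat.floor_le_floor
          nlinarith
        by_cases h5 : ⌊t * (cnt A x : ℝ)⌋₊ < ⌊t * ((cnt A x : ℝ) + 1)⌋₊
        · rw [if_pos ⟨hx, h5⟩]
          omega
        · rw [if_neg (fun h => h5 h.2)]
          omega
      · have h1 : cnt A (x + 1) = cnt A x := by rw [cnt_succ, if_neg hx, add_zero]
        rw [h1, if_neg (fun h => hx h.1), add_zero]
  rw [hasDensity_iff] at hd ⊢
  intro ε hε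
  unfold Approx
  have h1 := hd (ε / 2) (by positivity)
  unfold Approx at h1
  filter_upwards [h1, eventually_const_le (C := 1) (ε := ε / 2) (by positivity)] with x hx1 hx2
  rw [hcnt]
  have h3 : (⌊t * (cnt A x : ℝ)⌋₊ : ℝ) ≤ t * (cnt A x : ℝ) := Nat.floor_le (by positivity)
  have h4 : t * (cnt A x : ℝ) < (⌊t * (cnt A x : ℝ)⌋₊ : ℝ) + 1 := Nat.lt_floor_add_one _
  have h5 : |t * (cnt A x : ℝ) - α * x| ≤ ε / 2 * x := by
    have h6 : t * (cnt A x : ℝ) - α * x = t * ((cnt A x : ℝ) - d * x) := by rw [← htd]; ring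
    rw [h6, abs_mul, abs_of_nonneg ht0]
    have h7 : (0 : ℝ) ≤ |(cnt A x : ℝ) - d * x| := abs_nonneg _
    calc t * |(cnt A x : ℝ) - d * x| ≤ 1 * |(cnt A x : ℝ) - d * x| :=
          mul_le_mul_of_nonneg_right ht1 h7
      _ ≤ ε / 2 * x := by rw [one_mul]; exact hx1
  rw [abs_le] at h5 ⊢
  constructor
  · linarith [h5.1, h5.2]
  · linarith [h5.1, h5.2]

theorem isGreatest_sigma : IsGreatest {d : ℝ | ∃ A : Set ℕ, GPFree A ∧ HasDensity A d} sigma :=
  ⟨attained, by rintro d ⟨A, hA, hd⟩; exact density_le_sigma hA hd⟩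

theorem supDensity_eq : supDensity = sigma := isGreatest_sigma.csSup_eq

theorem guarantees_iff {α : ℝ} (h0 : 0 ≤ α) : Guarantees α ↔ supDensity < α := by
  rw [supDensity_eq]
  constructor
  · intro h
    by_contra hcon
    push Not at hcon
    obtain ⟨A, hA, hd⟩ := attained
    obtain ⟨B, hBA, hB⟩ := thin hd h0 hcon
    have hBf := hA.mono hBA
    exact hBf.2 (h B hBf.1 hB)
  · intro h A hA hd
    by_contra hcon
    have := density_le_sigma ⟨hA, hcon⟩ hd
    linarith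

end Pool.Agent.Lib.MP_f8fa1d_co
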