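import Pool.Agent.Lib.MP_f8fa1d_co.Gain

/-!
# The density of Rankin's set exists and is smaller than the extremal density
-/

namespace Pool.Agent.Lib.MP_f8fa1d_co

open Filter Topology

/-- The level-`K` approximation to the density of Rankin's set. -/
noncomputable def dR (K : ℕ) : ℝ := phi K * WR K

theorem WR_nonneg (K : ℕ) : 0 ≤ WR K :=
  le_trans (rs_nonneg ∅) (rs_le_WR (K := K) (by simp) (by simp))

theorem dR_nonneg (K : ℕ) : 0 ≤ dR K := mul_nonneg (phi_pos K).le (WR_nonneg K)

/-- The asymptotic count of `Lev K B True`. -/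
theorem cnt_Lev_true (K : ℕ) (B : Finset ℕ) (hB : (B : Set ℕ) ⊆ K.smoothNumbers) :
    ∃ C : ℝ, ∀ x : ℕ, |(cnt (Lev K B (fun _ => True)) x : ℝ) - phi K * rs B * x| ≤ C := by
  classical
  obtain ⟨C, hC⟩ := cnt_Lev_class K (L := 1) (by norm_num) (fun _ => True) B hB
  refine ⟨C, fun x => ?_⟩
  have h1 := hC x
  have h3 : ∀ inst : DecidablePred (fun _ : ℕ => True),
      @Nat.count (fun _ : ℕ => True) inst 1 = 1 := by
    intro inst
    simp [Nat.count_succ]
  rw [h3] at h1
  have h4 : phi K * (((1 : ℕ) : ℝ) / ((1 : ℕ) : ℝ)) * rs B * x = phi K * rs B * x := by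
    push_cast; ring
  rw [h4] at h1
  exact h1

theorem cnt_univ (x : ℕ) : cnt Set.univ x = x := by
  unfold cnt
  rw [Set.univ_inter, ← Finset.coe_Icc, Set.ncard_coe_finset]
  simp

theorem Rankin_upper (K : ℕ) {ε : ℝ} (hε : 0 < ε) :
    ∀ᶠ x : ℕ in atTop, (cnt RankinSet x : ℝ) ≤ (dR K + ε) * x := by
  classical
  obtain ⟨N, hN⟩ := tail_small (show (0 : ℝ) < ε / 2 by positivity) K
  rw [tailDensity_eq] at hN
  set F := Nat.smoothNumbersUpTo N K with hF
  have hFs : (F : Set ℕ) ⊆ K.smoothNumbers := upTo_sub K N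
  set B := F.filter (· ∈ RankinSet) with hB
  have hBs : (B : Set ℕ) ⊆ K.smoothNumbers := fun n hn => hFs (Finset.mem_of_mem_filter n hn)
  have hBR : (B : Set ℕ) ⊆ RankinSet := by
    intro n hn
    rw [hB, Finset.mem_coe, Finset.mem_filter] at hn
    exact hn.2
  obtain ⟨C1, hC1⟩ := cnt_Lev_true K F hFs
  obtain ⟨C2, hC2⟩ := cnt_Lev_true K B hBs
  have hle : ∀ x, cnt RankinSet x + cnt (Lev K F (fun _ => True)) x ≤
      cnt (Lev K B (fun _ => True)) x + x := by
    intro x
    have h1 : cnt RankinSet x ≤ cnt (Lev K B (fun _ => True)) x +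
        cnt {n | n ∉ Lev K (F : Set ℕ) (fun _ => True)} x := by
      apply cnt_le_add
      intro n hn hR hE
      have hE' : n ∈ Lev K (F : Set ℕ) (fun _ => True) := by
        by_contra h; exact hE h
      refine ⟨hn, ?_, trivial⟩
      rw [hB, Finset.mem_coe, Finset.mem_filter]
      refine ⟨hE'.2.1, sm_pos _ _, ?_⟩
      intro p hp
      by_cases hpK : p < K
      · rw [factorization_sm_of_lt hpK]; exact hR.2 p hp
      · rw [factorization_sm_of_le (by omega)]; simp
    have h2 : cnt (Lev K (F : Set ℕ) (fun _ => True)) x +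
        cnt {n | n ∉ Lev K (F : Set ℕ) (fun _ => True)} x = x := by
      have h3 : Disjoint (Lev K (F : Set ℕ) (fun _ => True))
          {n | n ∉ Lev K (F : Set ℕ) (fun _ => True)} := by
        rw [Set.disjoint_left]
        intro n h4 h5
        exact h5 h4
      rw [← cnt_union h3]
      have h4 : Lev K (F : Set ℕ) (fun _ => True) ∪ {n | n ∉ Lev K (F : Set ℕ) (fun _ => True)} =
          Set.univ := by
        ext n
        simp only [Set.mem_union, Set.mem_ofPred_eq, Set.mem_univ, iff_true]
        exact Classical.em _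
      rw [h4, cnt_univ]
    omega
  have hBW : phi K * rs B ≤ dR K := mul_le_mul_of_nonneg_left (rs_le_WR hBs hBR) (phi_pos K).le
  filter_upwards [eventually_const_le (C := C1 + C2) (ε := ε / 2) (by positivity)] with x hx
  have h1 := hC1 x
  have h2 := hC2 x
  rw [abs_le] at h1 h2
  have h3 : (cnt RankinSet x : ℝ) + cnt (Lev K F (fun _ => True)) x ≤
      cnt (Lev K B (fun _ => True)) x + x := by exact_mod_cast hle x
  have hxnn : (0 : ℝ) ≤ x := by positivity
  have h4 := mul_le_mul_of_nonneg_right hBW hxnn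
  have h5 : (1 - phi K * rs F) * x ≤ ε / 2 * x := mul_le_mul_of_nonneg_right hN.le hxnn
  linarith [h1.1, h2.2]

theorem Nice_sub_Rankin {K : ℕ} {B : Set ℕ} (hB : B ⊆ RankinSet) : Nice K B ⊆ RankinSet := by
  intro n hn
  refine ⟨hn.1, fun p hp => ?_⟩
  by_cases hpK : p < K
  · have := (hB hn.2.1).2 p hp
    rwa [factorization_sm_of_lt hpK] at this
  · have h1 : ¬ p ^ 2 ∣ n := not_sq hn.2.2 p (by omega)
    have h2 : n.factorization p ≤ 1 := by
      by_contra h3
      push Not at h3
      exact h1 ((hp.pow_dvd_iff_le_factorization hn.1.ne').2 h3)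
    exact good_of_le_one h2

theorem Rankin_lower {K : ℕ} (hK : 2 ≤ K) {ε : ℝ} (hε : 0 < ε) :
    ∀ᶠ x : ℕ in atTop, (dR K - 1 / (K - 1) - ε) * x ≤ cnt RankinSet x := by
  have hp := phi_pos K
  have h1 : WR K - ε / 2 / phi K < WR K := by
    have : 0 < ε / 2 / phi K := by positivity
    linarith
  obtain ⟨y, ⟨B, hB, hBR, rfl⟩, hx⟩ := exists_lt_of_lt_csSup (WRset_nonempty K) h1
  have h2 : dR K - ε / 2 < phi K * rs B := by
    have h3 := mul_lt_mul_of_pos_left hx hp
    have h4 : phi K * (WR K - ε / 2 / phi K) = dR K - ε / 2 := by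
      unfold dR; field_simp
    rw [h4] at h3
    exact h3
  obtain ⟨C, hC⟩ := cnt_Nice hK B hB
  filter_upwards [eventually_of_cnt hC (ε := ε / 2) (by positivity)] with x hx1
  have h5 : (cnt (Nice K B) x : ℝ) ≤ cnt RankinSet x := by
    exact_mod_cast cnt_mono (fun n _ hn => Nice_sub_Rankin hBR hn) x
  have hxnn : (0 : ℝ) ≤ x := by positivity
  nlinarith

theorem dR_le {K J : ℕ} (hK : 2 ≤ K) : dR K - 1 / (K - 1) ≤ dR J := by
  apply le_of_forall_pos_lt_add
  intro ε hε
  have h1 := Rankin_lower hK (ε := ε / 4) (by positivity)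
  have h2 := Rankin_upper J (ε := ε / 4) (by positivity)
  obtain ⟨x, ⟨h3, h4⟩, h5⟩ := ((h1.and h2).and (eventually_gt_atTop 0)).exists
  have h6 : (0 : ℝ) < x := by exact_mod_cast h5
  have h7 := le_of_mul_le_mul_right (h3.trans h4) h6
  linarith

/-- The density of Rankin's set. -/
noncomputable def rho : ℝ := ⨅ K : ℕ, dR K

theorem rho_le (K : ℕ) : rho ≤ dR K :=
  ciInf_le ⟨0, by rintro x ⟨K, rfl⟩; exact dR_nonneg K⟩ K

theorem le_rho {K : ℕ} (hK : 2 ≤ K) : dR K - 1 / (K - 1) ≤ rho := le_ciInf (fun _ => dR_le hK)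

theorem Rankin_density : HasDensity RankinSet rho := by
  rw [hasDensity_iff]
  intro ε hε
  obtain ⟨m, hm⟩ := exists_nat_one_div_lt (show (0 : ℝ) < ε / 2 by positivity)
  have hK : 2 ≤ m + 2 := by omega
  have h0 : (((m + 2 : ℕ) : ℝ) - 1) = (m : ℝ) + 1 := by push_cast; ring
  have h1 := Rankin_lower hK (ε := ε / 2) (by positivity)
  have h2 := Rankin_upper (m + 2) (ε := ε / 2) (by positivity)
  have h3 := rho_le (m + 2)
  have h4 := le_rho hK
  rw [h0] at h1 h4
  unfold Approx
  filter_upwards [h1, h2] with x hx1 hx2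
  have hxnn : (0 : ℝ) ≤ x := by positivity
  rw [abs_le]
  constructor
  · nlinarith
  · nlinarith

theorem rho_pos : 0 < rho := by
  have h1 := le_rho (K := 3) (by norm_num)
  have h2 : (3 : ℝ) / 2 ≤ WR 3 := by
    have h3 : rs {1, 2} ≤ WR 3 := by
      apply rs_le_WR
      · intro n hn
        simp only [Finset.coe_insert, Finset.coe_singleton, Set.mem_insert_iff,
          Set.mem_singleton_iff] at hn
        apply Nat.mem_smoothNumbers_of_lt <;> omega
      · intro n hn
        simp only [Finset.coe_insert, Finset.coe_singleton, Set.mem_insert_iff,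
          Set.mem_singleton_iff] at hn
        rcases hn with rfl | rfl
        · exact ⟨by norm_num, fun p _ => by simp⟩
        · refine ⟨by norm_num, fun p hp => ?_⟩
          rw [Nat.prime_two.factorization, Finsupp.single_apply]
          split_ifs
          · exact good_one
          · exact good_zero
    have h4 : rs {1, 2} = 3 / 2 := by
      unfold rs
      rw [Finset.sum_insert (by simp), Finset.sum_singleton]
      norm_num
    linarith
  have h5 : phi 3 = 1 / 2 := by
    unfold phi
    have : Nat.primesBelow 3 = {2} := by decide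
    rw [this, Finset.prod_singleton]
    norm_num
  unfold dR at h1
  rw [h5] at h1
  push_cast at h1
  linarith

open Classical in
/-- Lifting a better set to all higher levels. -/
theorem lift_better {k : ℕ} {B : Finset ℕ} (hB : (B : Set ℕ) ⊆ k.smoothNumbers)
    (hG : GPFree (B : Set ℕ)) {K : ℕ} (hkK : k ≤ K) : rs B * WR K ≤ W K * WR k := by
  have hWk := WR_nonneg k
  -- it suffices to bound each finite subset
  have key : ∀ F : Finset ℕ, (F : Set ℕ) ⊆ K.smoothNumbers → (F : Set ℕ) ⊆ RankinSet →
      rs B * rs F ≤ W K * WR k := by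
    intro F hF hFR
    set F1 := F.image (sm k) with hF1
    set T := F.image (ro k) with hT
    have hF1s : (F1 : Set ℕ) ⊆ k.smoothNumbers := by
      intro n hn
      rw [hF1, Finset.mem_coe, Finset.mem_image] at hn
      obtain ⟨m, _, rfl⟩ := hn
      exact sm_mem k m
    have hF1R : (F1 : Set ℕ) ⊆ RankinSet := by
      intro n hn
      rw [hF1, Finset.mem_coe, Finset.mem_image] at hn
      obtain ⟨m, hm, rfl⟩ := hn
      refine ⟨sm_pos _ _, fun p hp => ?_⟩
      by_cases hpk : p < k
      · rw [factorization_sm_of_lt hpk]; exact (hFR hm).2 p hp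
      · rw [factorization_sm_of_le (by omega)]; simp
    have hTr : ∀ t ∈ T, Rough k t := by
      intro t ht
      rw [hT, Finset.mem_image] at ht
      obtain ⟨m, _, rfl⟩ := ht
      exact ro_rough k m
    have hTR : ∀ t ∈ T, t ∈ RankinSet := by
      intro t ht
      rw [hT, Finset.mem_image] at ht
      obtain ⟨m, hm, rfl⟩ := ht
      refine ⟨ro_pos _ _, fun p hp => ?_⟩
      by_cases hpk : p < k
      · rw [factorization_ro_of_lt hpk]; simp
      · rw [factorization_ro_of_le (by omega)]; exact (hFR hm).2 p hp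
    have hTK : ∀ t ∈ T, t ∈ K.smoothNumbers := by
      intro t ht
      rw [hT, Finset.mem_image] at ht
      obtain ⟨m, hm, rfl⟩ := ht
      exact Nat.mem_smoothNumbers_of_dvd (hF hm) (ro_dvd (hFR hm).1.ne')
    -- rs F ≤ rs F1 * rs T
    have h1 : rs F ≤ rs F1 * rs T := by
      unfold rs
      rw [Finset.sum_mul_sum, ← Finset.sum_product']
      have h2 : ∑ n ∈ F, 1 / (n : ℝ) = ∑ x ∈ F.image (fun n => (sm k n, ro k n)),
          1 / (x.1 : ℝ) * (1 / (x.2 : ℝ)) := by
        rw [Finset.sum_image]
        · apply Finset.sum_congr rfl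
          intro n hn
          have h3 : (n : ℝ) = sm k n * ro k n := by
            exact_mod_cast (sm_mul_ro (hFR hn).1.ne').symm
          conv_lhs => rw [h3]
          rw [one_div, one_div, one_div, mul_inv]
        · intro a ha b hb h
          simp only [Prod.mk.injEq] at h
          exact eq_of_sm_ro (hFR ha).1.ne' (hFR hb).1.ne' h.1 h.2
      rw [h2]
      apply Finset.sum_le_sum_of_subset_of_nonneg
      · intro x hx
        rw [Finset.mem_image] at hx
        obtain ⟨n, hn, rfl⟩ := hx
        rw [Finset.mem_product]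
        exact ⟨Finset.mem_image_of_mem _ hn, Finset.mem_image_of_mem _ hn⟩
      · intro x _ _
        positivity
    -- the product set
    set Q := (B ×ˢ T).image (fun x => x.1 * x.2) with hQ
    have hQmem : ∀ n ∈ Q, sm k n ∈ B ∧ ro k n ∈ T := by
      intro n hn
      rw [hQ, Finset.mem_image] at hn
      obtain ⟨x, hx, rfl⟩ := hn
      rw [Finset.mem_product] at hx
      rw [sm_mul (hB hx.1) (hTr _ hx.2), ro_mul (hB hx.1) (hTr _ hx.2)]
      exact hx
    have hQ0 : ∀ n ∈ Q, n ≠ 0 := by
      intro n hn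
      rw [hQ, Finset.mem_image] at hn
      obtain ⟨x, hx, rfl⟩ := hn
      rw [Finset.mem_product] at hx
      exact mul_ne_zero (Nat.ne_zero_of_mem_smoothNumbers (hB hx.1)) (hTr _ hx.2).1
    have hQs : (Q : Set ℕ) ⊆ K.smoothNumbers := by
      intro n hn
      rw [hQ, Finset.mem_coe, Finset.mem_image] at hn
      obtain ⟨x, hx, rfl⟩ := hn
      rw [Finset.mem_product] at hx
      exact Nat.mul_mem_smoothNumbers (Nat.smoothNumbers_mono hkK (hB hx.1)) (hTK _ hx.2)
    have hQG : GPFree (Q : Set ℕ) := by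
      rw [gpFree_iff]
      refine ⟨fun n hn => Nat.pos_of_ne_zero (hQ0 n hn), ?_⟩
      intro a ha b hb c hc h
      have ha0 := hQ0 a ha
      have hb0 := hQ0 b hb
      have hc0 := hQ0 c hc
      have hro : ro k a = ro k b := by
        apply ro_congr
        intro p hp hkp
        have h2 := gp_factorization ha0 hb0 hc0 h p
        have g : ∀ n ∈ Q, Good (n.factorization p) := by
          intro n hn
          have := (hTR _ (hQmem n hn).2).2 p hp
          rwa [factorization_ro_of_le hkp] at this
        exact good_ap _ _ _ _ rfl (g a ha) (g b hb) (g c hc) h2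
      exact eq_of_sm_ro ha0 hb0
        (hG.eq (hQmem a ha).1 (hQmem b hb).1 (hQmem c hc).1 (sm_gp ha0 hb0 hc0 h)) hro
    have h3 : rs Q = rs B * rs T := by
      unfold rs
      rw [Finset.sum_mul_sum, ← Finset.sum_product', hQ, Finset.sum_image]
      · apply Finset.sum_congr rfl
        intro x _
        push_cast
        rw [one_div, one_div, one_div, mul_inv]
      · intro x hx y hy h
        rw [Finset.mem_coe, Finset.mem_product] at hx hy
        simp only at h
        have e1 : x.1 = y.1 := by
          rw [← sm_mul (hB hx.1) (hTr _ hx.2), h, sm_mul (hB hy.1) (hTr _ hy.2)]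
        have e2 : x.2 = y.2 := by
          rw [← ro_mul (hB hx.1) (hTr _ hx.2), h, ro_mul (hB hy.1) (hTr _ hy.2)]
        exact Prod.ext e1 e2
    have h4 := rs_le_W hQs hQG
    have h5 := rs_le_WR hF1s hF1R
    have h6 := rs_nonneg B
    have h7 := rs_nonneg T
    calc rs B * rs F ≤ rs B * (rs F1 * rs T) := mul_le_mul_of_nonneg_left h1 h6
      _ = rs Q * rs F1 := by rw [h3]; ring
      _ ≤ W K * WR k := mul_le_mul h4 h5 (rs_nonneg _) (W_nonneg K)
  by_cases hB0 : rs B = 0
  · rw [hB0, zero_mul]
    exact mul_nonneg (W_nonneg K) hWk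
  · have hBpos : 0 < rs B := lt_of_le_of_ne (rs_nonneg B) (Ne.symm hB0)
    have h1 : WR K ≤ W K * WR k / rs B := by
      apply csSup_le (WRset_nonempty K)
      rintro x ⟨F, hF, hFR, rfl⟩
      rw [le_div_iff₀ hBpos, mul_comm]
      exact key F hF hFR
    rw [le_div_iff₀ hBpos] at h1
    linarith

/-- **Rankin's set is not optimal.** -/
theorem rho_lt_sigma : rho < sigma := by
  obtain ⟨k, B, hk, hBs, hBG, hlt⟩ := exists_better
  have hWk : 0 < WR k := by
    have h1 : rs {1} ≤ WR k := by
      apply rs_le_WR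
      · intro n hn
        simp only [Finset.coe_singleton, Set.mem_singleton_iff] at hn
        subst hn
        apply Nat.mem_smoothNumbers_of_lt <;> omega
      · intro n hn
        simp only [Finset.coe_singleton, Set.mem_singleton_iff] at hn
        subst hn
        exact ⟨by norm_num, fun p _ => by simp⟩
    have h2 : rs {1} = 1 := by unfold rs; simp
    linarith
  set lam : ℝ := rs B / WR k with hlam
  have hlam1 : 1 < lam := by rw [hlam, one_lt_div hWk]; exact hlt
  have h1 : ∀ K, k ≤ K → lam * rho ≤ sK K := by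
    intro K hK
    have h2 := lift_better hBs hBG hK
    have h3 := rho_le K
    have h4 : lam * dR K ≤ sK K := by
      unfold dR sK
      rw [hlam]
      rw [div_mul_eq_mul_div, div_le_iff₀ hWk]
      have := mul_le_mul_of_nonneg_left h2 (phi_pos K).le
      nlinarith
    have h5 : lam * rho ≤ lam * dR K := mul_le_mul_of_nonneg_left h3 (by linarith)
    linarith
  have h2 : lam * rho ≤ sigma := by
    apply le_of_forall_pos_lt_add
    intro ε hε
    obtain ⟨m, hm⟩ := exists_nat_one_div_lt hε
    have h3 := h1 (m + k + 2) (by omega)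
    have h4 := sK_sub_le_sigma (K := m + k + 2) (by omega)
    have h5 : (1 : ℝ) / (((m + k + 2 : ℕ) : ℝ) - 1) ≤ 1 / ((m : ℝ) + 1) := by
      apply one_div_le_one_div_of_le (by positivity)
      push_cast
      have : (0 : ℝ) ≤ k := by positivity
      linarith
    linarith
  have h3 := rho_pos
  nlinarith

end Pool.Agent.Lib.MP_f8fa1d_co
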