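import Pool.Agent.Lib.MP_f8fa1d_co.Defs

/-!
# Smooth and rough parts of a positive integer
-/

namespace Pool.Agent.Lib.MP_f8fa1d_co

open Nat

/-- The `K`-smooth part of `n` (prime factors `< K`). -/
noncomputable def sm (K n : ℕ) : ℕ := (n.factorization.filter (· < K)).prod (· ^ ·)

/-- The `K`-rough part of `n` (prime factors `≥ K`). -/
noncomputable def ro (K n : ℕ) : ℕ := (n.factorization.filter (fun p => ¬ p < K)).prod (· ^ ·)

theorem factorization_sm (K n : ℕ) : (sm K n).factorization = n.factorization.filter (· < K) := by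
  unfold sm
  apply Nat.prod_pow_factorization_eq_self
  intro p hp
  rw [Finsupp.support_filter] at hp
  exact Nat.prime_of_mem_primeFactors (Finset.mem_of_mem_filter p hp)

theorem factorization_ro (K n : ℕ) :
    (ro K n).factorization = n.factorization.filter (fun p => ¬ p < K) := by
  unfold ro
  apply Nat.prod_pow_factorization_eq_self
  intro p hp
  rw [Finsupp.support_filter] at hp
  exact Nat.prime_of_mem_primeFactors (Finset.mem_of_mem_filter p hp)

theorem factorization_sm_of_lt {K n p : ℕ} (h : p < K) :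
    (sm K n).factorization p = n.factorization p := by
  rw [factorization_sm]; exact Finsupp.filter_apply_pos (fun q => q < K) _ h

theorem factorization_sm_of_le {K n p : ℕ} (h : K ≤ p) :
    (sm K n).factorization p = 0 := by
  rw [factorization_sm]; exact Finsupp.filter_apply_neg (fun q => q < K) _ (by omega)

theorem factorization_ro_of_lt {K n p : ℕ} (h : p < K) :
    (ro K n).factorization p = 0 := by
  rw [factorization_ro]; exact Finsupp.filter_apply_neg (fun q => ¬ q < K) _ (by omega)

theorem factorization_ro_of_le {K n p : ℕ} (h : K ≤ p) :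
    (ro K n).factorization p = n.factorization p := by
  rw [factorization_ro]; exact Finsupp.filter_apply_pos (fun q => ¬ q < K) _ (by omega)

theorem sm_mul_ro {K n : ℕ} (hn : n ≠ 0) : sm K n * ro K n = n := by
  unfold sm ro
  rw [Finsupp.prod_filter_mul_prod_filter_not]
  exact Nat.prod_factorization_pow_eq_self hn

theorem sm_pos (K n : ℕ) : 0 < sm K n := by
  unfold sm
  apply Finset.prod_pos
  intro p hp
  rw [Finsupp.support_filter] at hp
  have := Nat.prime_of_mem_primeFactors (Finset.mem_of_mem_filter p hp)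
  exact pow_pos this.pos _

theorem ro_pos (K n : ℕ) : 0 < ro K n := by
  unfold ro
  apply Finset.prod_pos
  intro p hp
  rw [Finsupp.support_filter] at hp
  have := Nat.prime_of_mem_primeFactors (Finset.mem_of_mem_filter p hp)
  exact pow_pos this.pos _

theorem sm_mem (K n : ℕ) : sm K n ∈ K.smoothNumbers := by
  rw [Nat.mem_smoothNumbers']
  intro p hp hpd
  by_contra h
  have h1 := factorization_sm_of_le (K := K) (n := n) (p := p) (by omega)
  have := (hp.dvd_iff_one_le_factorization (sm_pos K n).ne').1 hpd
  omega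

/-- `m` is `K`-rough: nonzero and without prime factor `< K`. -/
def Rough (K m : ℕ) : Prop := m ≠ 0 ∧ ∀ p, p.Prime → p ∣ m → K ≤ p

theorem ro_rough (K n : ℕ) : Rough K (ro K n) := by
  refine ⟨(ro_pos K n).ne', fun p hp hpd => ?_⟩
  by_contra h
  have h1 := factorization_ro_of_lt (K := K) (n := n) (p := p) (by omega)
  have := (hp.dvd_iff_one_le_factorization (ro_pos K n).ne').1 hpd
  omega

theorem Rough.factorization_of_lt {K m p : ℕ} (h : Rough K m) (hp : p < K) :
    m.factorization p = 0 := by
  by_cases hpp : p.Prime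
  · apply Nat.factorization_eq_zero_of_not_dvd
    intro hd
    have := h.2 p hpp hd
    omega
  · exact Nat.factorization_eq_zero_of_not_prime _ hpp

theorem smooth_factorization_of_le {K b p : ℕ} (h : b ∈ K.smoothNumbers) (hp : K ≤ p) :
    b.factorization p = 0 := by
  by_cases hpp : p.Prime
  · apply Nat.factorization_eq_zero_of_not_dvd
    intro hd
    have := Nat.mem_smoothNumbers'.1 h p hpp hd
    omega
  · exact Nat.factorization_eq_zero_of_not_prime _ hpp

theorem sm_mul {K b m : ℕ} (hb : b ∈ K.smoothNumbers) (hm : Rough K m) : sm K (b * m) = b := by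
  have hb0 : b ≠ 0 := Nat.ne_zero_of_mem_smoothNumbers hb
  apply Nat.eq_of_factorization_eq (sm_pos _ _).ne' hb0
  intro p
  by_cases hp : p < K
  · rw [factorization_sm_of_lt hp, Nat.factorization_mul hb0 hm.1, Finsupp.add_apply,
      hm.factorization_of_lt hp, add_zero]
  · push Not at hp
    rw [factorization_sm_of_le hp, smooth_factorization_of_le hb hp]

theorem ro_mul {K b m : ℕ} (hb : b ∈ K.smoothNumbers) (hm : Rough K m) : ro K (b * m) = m := by
  have hb0 : b ≠ 0 := Nat.ne_zero_of_mem_smoothNumbers hb
  apply Nat.eq_of_factorization_eq (ro_pos _ _).ne' hm.1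
  intro p
  by_cases hp : p < K
  · rw [factorization_ro_of_lt hp, hm.factorization_of_lt hp]
  · push Not at hp
    rw [factorization_ro_of_le hp, Nat.factorization_mul hb0 hm.1, Finsupp.add_apply,
      smooth_factorization_of_le hb hp, zero_add]

theorem ro_le {K n : ℕ} (hn : n ≠ 0) : ro K n ≤ n := by
  conv_rhs => rw [← sm_mul_ro (K := K) hn]
  exact Nat.le_mul_of_pos_left _ (sm_pos K n)

theorem sm_dvd {K n : ℕ} (hn : n ≠ 0) : sm K n ∣ n := ⟨_, (sm_mul_ro hn).symm⟩

theorem ro_dvd {K n : ℕ} (hn : n ≠ 0) : ro K n ∣ n := ⟨_, by rw [mul_comm]; exact (sm_mul_ro hn).symm⟩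

/-- The rough part is antitone in `K`. -/
theorem ro_anti {K L n : ℕ} (h : K ≤ L) : ro L n ≤ ro K n := by
  apply Nat.le_of_dvd (ro_pos _ _)
  rw [← Nat.factorization_le_iff_dvd (ro_pos _ _).ne' (ro_pos _ _).ne']
  intro p
  by_cases hp : p < L
  · rw [factorization_ro_of_lt hp]; exact Nat.zero_le _
  · push Not at hp
    rw [factorization_ro_of_le hp, factorization_ro_of_le (by omega)]

/-- If the factorizations of `a` and `b` agree at all primes `≥ K`, the rough parts agree. -/
theorem ro_congr {K a b : ℕ} (h : ∀ p, p.Prime → K ≤ p → a.factorization p = b.factorization p) :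
    ro K a = ro K b := by
  apply Nat.eq_of_factorization_eq (ro_pos _ _).ne' (ro_pos _ _).ne'
  intro p
  by_cases hp : p < K
  · rw [factorization_ro_of_lt hp, factorization_ro_of_lt hp]
  · push Not at hp
    rw [factorization_ro_of_le hp, factorization_ro_of_le hp]
    by_cases hpp : p.Prime
    · exact h p hpp hp
    · rw [Nat.factorization_eq_zero_of_not_prime _ hpp, Nat.factorization_eq_zero_of_not_prime _ hpp]

theorem sm_congr {K a b : ℕ} (h : ∀ p, p.Prime → p < K → a.factorization p = b.factorization p) :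
    sm K a = sm K b := by
  apply Nat.eq_of_factorization_eq (sm_pos _ _).ne' (sm_pos _ _).ne'
  intro p
  by_cases hp : p < K
  · rw [factorization_sm_of_lt hp, factorization_sm_of_lt hp]
    by_cases hpp : p.Prime
    · exact h p hpp hp
    · rw [Nat.factorization_eq_zero_of_not_prime _ hpp, Nat.factorization_eq_zero_of_not_prime _ hpp]
  · push Not at hp
    rw [factorization_sm_of_le hp, factorization_sm_of_le hp]

/-- The exponents of a geometric progression. -/
theorem gp_factorization {a b c : ℕ} (ha : a ≠ 0) (hb : b ≠ 0) (hc : c ≠ 0) (h : a * c = b * b)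
    (p : ℕ) : a.factorization p + c.factorization p = 2 * b.factorization p := by
  have := congrArg (fun n => n.factorization p) h
  simp only [Nat.factorization_mul ha hc, Nat.factorization_mul hb hb, Finsupp.add_apply] at this
  omega

/-- If `a, b, c` form a progression and none is divisible by `d ^ 2` with `d ≥ K`, then their
`K`-rough parts agree. -/
theorem ro_eq_of_gp {K a b c : ℕ} (ha : a ≠ 0) (hb : b ≠ 0) (hc : c ≠ 0) (h : a * c = b * b)
    (ha2 : ∀ d, K ≤ d → ¬ d ^ 2 ∣ a) (hb2 : ∀ d, K ≤ d → ¬ d ^ 2 ∣ b)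
    (hc2 : ∀ d, K ≤ d → ¬ d ^ 2 ∣ c) : ro K a = ro K b ∧ ro K c = ro K b := by
  have key : ∀ n, n ≠ 0 → (∀ d, K ≤ d → ¬ d ^ 2 ∣ n) → ∀ p, p.Prime → K ≤ p →
      n.factorization p ≤ 1 := by
    intro n hn h2 p hp hKp
    by_contra h3
    push Not at h3
    exact h2 p hKp ((hp.pow_dvd_iff_le_factorization hn).2 h3)
  constructor
  · apply ro_congr
    intro p hp hKp
    have h1 := gp_factorization ha hb hc h p
    have h2 := key a ha ha2 p hp hKp
    have h3 := key b hb hb2 p hp hKp
    have h4 := key c hc hc2 p hp hKp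
    omega
  · apply ro_congr
    intro p hp hKp
    have h1 := gp_factorization ha hb hc h p
    have h2 := key a ha ha2 p hp hKp
    have h3 := key b hb hb2 p hp hKp
    have h4 := key c hc hc2 p hp hKp
    omega

theorem sm_gp {K a b c : ℕ} (ha : a ≠ 0) (hb : b ≠ 0) (hc : c ≠ 0) (h : a * c = b * b)  :
    sm K a * sm K c = sm K b * sm K b := by
  apply Nat.eq_of_factorization_eq (mul_pos (sm_pos _ _) (sm_pos _ _)).ne'
    (mul_pos (sm_pos _ _) (sm_pos _ _)).ne'
  intro p
  rw [Nat.factorization_mul (sm_pos _ _).ne' (sm_pos _ _).ne',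
    Nat.factorization_mul (sm_pos _ _).ne' (sm_pos _ _).ne', Finsupp.add_apply, Finsupp.add_apply]
  have h1 := gp_factorization ha hb hc h p
  by_cases hp : p < K
  · simp only [factorization_sm_of_lt hp]; omega
  · push Not at hp
    simp only [factorization_sm_of_le hp]

/-- If smooth and rough parts agree then the numbers agree. -/
theorem eq_of_sm_ro {K a b : ℕ} (ha : a ≠ 0) (hb : b ≠ 0) (h1 : sm K a = sm K b)
    (h2 : ro K a = ro K b) : a = b := by
  rw [← sm_mul_ro (K := K) ha, ← sm_mul_ro (K := K) hb, h1, h2]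

end Pool.Agent.Lib.MP_f8fa1d_co
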