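import Mathlib

/-!
# Sets of positive integers without three-term geometric progressions: definitions
-/

namespace Pool.Agent.Lib.MP_f8fa1d_co

open Filter Topology

/-- `A` contains a 3-term geometric progression `a, a r, a r ^ 2` with a real ratio `r > 1`. -/
def HasGP (A : Set ℕ) : Prop :=
  ∃ (a b c : ℕ) (r : ℝ), a ∈ A ∧ b ∈ A ∧ c ∈ A ∧ 1 < r ∧ (b : ℝ) = a * r ∧ (c : ℝ) = a * r ^ 2

/-- `A` is a set of positive integers without 3-term geometric progressions. -/
def GPFree (A : Set ℕ) : Prop := (∀ n ∈ A, 0 < n) ∧ ¬ HasGP A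

/-- The set `A` has natural density `d`: `|A ∩ [1, n)| / n → d`. -/
def HasDensity (A : Set ℕ) (d : ℝ) : Prop :=
  Tendsto (fun n : ℕ => ((A ∩ Set.Ico 1 n).ncard : ℝ) / n) atTop (𝓝 d)

/-- The supremum of the natural densities of the sets of positive integers which have a natural
density and contain no 3-term geometric progression. -/
noncomputable def supDensity : ℝ := sSup {d : ℝ | ∃ A : Set ℕ, GPFree A ∧ HasDensity A d}

/-- `α` guarantees a 3-term geometric progression: every set of positive integers of natural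
density `α` contains one. -/
def Guarantees (α : ℝ) : Prop := ∀ A : Set ℕ, (∀ n ∈ A, 0 < n) → HasDensity A α → HasGP A

/-- Rankin's set: all exponents in the prime factorization have base-3 digits in `{0, 1}`. -/
def RankinSet : Set ℕ := {n | 0 < n ∧ ∀ p, p.Prime → 2 ∉ Nat.digits 3 (n.factorization p)}

/-- The largest value of `∏_{p < k} (1 - 1/p) · ∑_{b ∈ B} 1/b` over the (finitely many) GP-free
sets `B` of `k`-smooth integers `≤ N`. -/
noncomputable def optDensity (k N : ℕ) : ℝ :=
  sSup {x : ℝ | ∃ B : Finset ℕ, B ⊆ Nat.smoothNumbersUpTo N k ∧ GPFree (B : Set ℕ) ∧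
    x = (∏ p ∈ k.primesBelow, (1 - 1 / (p : ℝ))) * ∑ b ∈ B, 1 / (b : ℝ)}

/-- `1 - ∏_{p < k} (1 - 1/p) · ∑ 1/n`, the sum over the `k`-smooth integers `n ≤ N`. -/
noncomputable def tailDensity (k N : ℕ) : ℝ :=
  1 - (∏ p ∈ k.primesBelow, (1 - 1 / (p : ℝ))) * ∑ n ∈ Nat.smoothNumbersUpTo N k, 1 / (n : ℝ)

end Pool.Agent.Lib.MP_f8fa1d_co
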