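import Pool.Agent.Lib.MP_f8fa1d_co.Count

/-!
# Upper bound for the density through logarithmic sums
-/

namespace Pool.Agent.Lib.MP_f8fa1d_co

open Filter Topology

open Classical in
theorem cnt_succ (A : Set ℕ) (N : ℕ) : cnt A (N + 1) = cnt A N + if N + 1 ∈ A then 1 else 0 := by
  rw [cnt_eq, cnt_eq, Finset.card_filter, Finset.card_filter,
    Finset.sum_Icc_succ_top (by omega)]

theorem cnt_zero (A : Set ℕ) : cnt A 0 = 0 := by
  have := cnt_le A 0
  omega

open Classical in
/-- Logarithmic sum of `A` up to `N`. -/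
noncomputable def lsum (A : Set ℕ) (N : ℕ) : ℝ :=
  ∑ i ∈ Finset.range N, if i + 1 ∈ A then 1 / ((i : ℝ) + 1) else 0

/-- Harmonic number. -/
noncomputable def Har (N : ℕ) : ℝ := ∑ i ∈ Finset.range N, 1 / ((i : ℝ) + 1)

theorem Har_tendsto : Tendsto Har atTop atTop := Real.tendsto_sum_range_one_div_nat_succ_atTop

theorem Har_nonneg (N : ℕ) : 0 ≤ Har N := Finset.sum_nonneg fun i _ => by positivity

theorem Har_mono {M N : ℕ} (h : M ≤ N) : Har M ≤ Har N := by
  unfold Har
  apply Finset.sum_le_sum_of_subset_of_nonneg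
  · exact Finset.range_mono h
  · intro i _ _; positivity

open Classical in
theorem lsum_abel (A : Set ℕ) (N : ℕ) :
    lsum A N = ∑ i ∈ Finset.range N, (cnt A (i + 1) : ℝ) / (((i : ℝ) + 1) * ((i : ℝ) + 2)) +
      (cnt A N : ℝ) / ((N : ℝ) + 1) := by
  induction N with
  | zero => simp [lsum, cnt_zero]
  | succ N ih =>
    have h1 : lsum A (N + 1) = lsum A N + if N + 1 ∈ A then 1 / ((N : ℝ) + 1) else 0 := by
      unfold lsum
      rw [Finset.sum_range_succ]
    rw [h1, ih, Finset.sum_range_succ, cnt_succ]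
    have h2 : ((N : ℝ) + 1) ≠ 0 := by positivity
    have h3 : ((N : ℝ) + 2) ≠ 0 := by positivity
    have h4 : ((N + 1 : ℕ) : ℝ) + 1 = (N : ℝ) + 2 := by push_cast; ring
    rw [h4]
    split_ifs
    · push_cast
      field_simp
      ring
    · push_cast
      field_simp
      ring

theorem lsum_lower {A : Set ℕ} {β : ℝ} (hβ : 0 ≤ β) {X : ℕ}
    (hX : ∀ x, X ≤ x → β * x ≤ cnt A x) (N : ℕ) (hN : X ≤ N) :
    β * (Har N - Har X) ≤ lsum A N := by
  induction N, hN using Nat.le_induction with
  | base =>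
    simp only [sub_self, mul_zero]
    unfold lsum
    apply Finset.sum_nonneg
    intro i _
    split_ifs <;> positivity
  | succ N hN _ =>
    rw [lsum_abel]
    have h1 : ∑ i ∈ (Finset.range (N + 1)).filter (fun i => X ≤ i), β * (1 / ((i : ℝ) + 2)) ≤
        ∑ i ∈ Finset.range (N + 1), (cnt A (i + 1) : ℝ) / (((i : ℝ) + 1) * ((i : ℝ) + 2)) := by
      rw [Finset.sum_filter]
      apply Finset.sum_le_sum
      intro i _
      split_ifs with hi
      · have h2 := hX (i + 1) (by omega)
        have h3 : (0 : ℝ) < (i : ℝ) + 1 := by positivity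
        have h4 : (0 : ℝ) < (i : ℝ) + 2 := by positivity
        push_cast at h2
        rw [← mul_div_assoc, mul_one, div_le_div_iff₀ h4 (by positivity)]
        nlinarith
      · positivity
    have h5 : Har (N + 1) - Har X ≤
        ∑ i ∈ (Finset.range (N + 1)).filter (fun i => X ≤ i), (1 / ((i : ℝ) + 2)) + 
          ((N : ℝ) + 1) / ((N : ℝ) + 2) + (1 / ((X : ℝ) + 1) - 1) := by
      have key : ∀ M, X ≤ M → Har (M + 1) - Har X ≤
        ∑ i ∈ (Finset.range (M + 1)).filter (fun i => X ≤ i), (1 / ((i : ℝ) + 2)) + 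
          (1 - 1 / ((M : ℝ) + 2)) + (1 / ((X : ℝ) + 1) - 1) := by
        intro M hM
        induction M, hM using Nat.le_induction with
        | base =>
          have h6 : Har (X + 1) = Har X + 1 / ((X : ℝ) + 1) := by
            unfold Har; rw [Finset.sum_range_succ]
          have h7 : (Finset.range (X + 1)).filter (fun i => X ≤ i) = {X} := by
            ext i
            simp only [Finset.mem_filter, Finset.mem_range, Finset.mem_singleton]
            omega
          rw [h6, h7, Finset.sum_singleton]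
          linarith
        | succ M hM ih2 =>
          have h6 : Har (M + 1 + 1) = Har (M + 1) + 1 / ((M : ℝ) + 1 + 1) := by
            unfold Har; rw [Finset.sum_range_succ _ (M + 1)]; push_cast; rfl
          have h7 : (Finset.range (M + 1 + 1)).filter (fun i => X ≤ i) =
              insert (M + 1) ((Finset.range (M + 1)).filter (fun i => X ≤ i)) := by
            ext i
            simp only [Finset.mem_filter, Finset.mem_range, Finset.mem_insert]
            omega
          rw [h6, h7, Finset.sum_insert (by simp)]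
          push_cast
          have h8 : (M : ℝ) + 1 + 1 = (M : ℝ) + 2 := by ring
          rw [h8]
          have h9 : (M : ℝ) + 1 + 2 = (M : ℝ) + 3 := by ring
          rw [h9]
          linarith
      have := key N hN
      have h10 : ((N : ℝ) + 1) / ((N : ℝ) + 2) = 1 - 1 / ((N : ℝ) + 2) := by
        have : ((N : ℝ) + 2) ≠ 0 := by positivity
        field_simp
        ring
      rw [h10]
      exact this
    have h11 := hX (N + 1) (by omega)
    have h12 : β * (((N : ℝ) + 1) / ((N : ℝ) + 2)) ≤ (cnt A (N + 1) : ℝ) / (((N + 1 : ℕ) : ℝ) + 1) := by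
      have h4 : ((N + 1 : ℕ) : ℝ) + 1 = (N : ℝ) + 2 := by push_cast; ring
      rw [h4, ← mul_div_assoc]
      apply div_le_div_of_nonneg_right _ (by positivity)
      push_cast at h11
      exact h11
    have h13 : 1 / ((X : ℝ) + 1) - 1 ≤ 0 := by
      have : (1 : ℝ) / ((X : ℝ) + 1) ≤ 1 := by
        rw [div_le_one (by positivity)]
        have : (0 : ℝ) ≤ X := by positivity
        linarith
      linarith
    rw [← Finset.mul_sum] at h1
    calc β * (Har (N + 1) - Har X) ≤ β * (∑ i ∈ (Finset.range (N + 1)).filter (fun i => X ≤ i),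
          (1 / ((i : ℝ) + 2)) + ((N : ℝ) + 1) / ((N : ℝ) + 2)) := by
          apply mul_le_mul_of_nonneg_left _ hβ
          linarith
      _ ≤ _ := by
          rw [mul_add]
          exact add_le_add h1 h12

theorem lsum_upper {A : Set ℕ} {δ C : ℝ} (hδ : 0 ≤ δ) (hC : 0 ≤ C)
    (h : ∀ x : ℕ, (cnt A x : ℝ) ≤ δ * x + C) (N : ℕ) :
    lsum A N ≤ δ * Har N + (δ + 2 * C) := by
  rw [lsum_abel]
  have h1 : ∑ i ∈ Finset.range N, (cnt A (i + 1) : ℝ) / (((i : ℝ) + 1) * ((i : ℝ) + 2)) ≤
      ∑ i ∈ Finset.range N, (δ * (1 / ((i : ℝ) + 1)) + C * (1 / ((i : ℝ) + 1) - 1 / ((i : ℝ) + 2))) := by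
    apply Finset.sum_le_sum
    intro i _
    have h2 := h (i + 1)
    push_cast at h2
    have h3 : (0 : ℝ) < (i : ℝ) + 1 := by positivity
    have h4 : (0 : ℝ) < (i : ℝ) + 2 := by positivity
    calc (cnt A (i + 1) : ℝ) / (((i : ℝ) + 1) * ((i : ℝ) + 2))
        ≤ (δ * ((i : ℝ) + 1) + C) / (((i : ℝ) + 1) * ((i : ℝ) + 2)) := by
          apply div_le_div_of_nonneg_right h2 (by positivity)
      _ = δ * (1 / ((i : ℝ) + 2)) + C * (1 / ((i : ℝ) + 1) - 1 / ((i : ℝ) + 2)) := by
          field_simp
          ring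
      _ ≤ _ := by
          have h5 : 1 / ((i : ℝ) + 2) ≤ 1 / ((i : ℝ) + 1) := by
            apply one_div_le_one_div_of_le h3
            linarith
          have := mul_le_mul_of_nonneg_left h5 hδ
          linarith
  have h6 : ∑ i ∈ Finset.range N, (1 / ((i : ℝ) + 1) - 1 / ((i : ℝ) + 2)) ≤ 1 := by
    have h7 : ∀ M : ℕ, ∑ i ∈ Finset.range M, (1 / ((i : ℝ) + 1) - 1 / ((i : ℝ) + 2)) =
        1 - 1 / ((M : ℝ) + 1) := by
      intro M
      induction M with
      | zero => simp
      | succ M ih =>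
        rw [Finset.sum_range_succ, ih]
        push_cast
        ring
    rw [h7]
    have : (0 : ℝ) ≤ 1 / ((N : ℝ) + 1) := by positivity
    linarith
  rw [Finset.sum_add_distrib, ← Finset.mul_sum, ← Finset.mul_sum] at h1
  have h8 : (cnt A N : ℝ) / ((N : ℝ) + 1) ≤ δ + C := by
    rw [div_le_iff₀ (by positivity)]
    have := h N
    have h9 : (0 : ℝ) ≤ N := by positivity
    nlinarith
  have h10 := mul_le_mul_of_nonneg_left h6 hC
  unfold Har
  linarith

open Classical in
theorem lsum_eq (A : Set ℕ) (N : ℕ) :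
    lsum A N = ∑ n ∈ (Finset.Icc 1 N).filter (· ∈ A), 1 / (n : ℝ) := by
  rw [Finset.sum_filter]
  induction N with
  | zero => simp [lsum]
  | succ N ih =>
    rw [Finset.sum_Icc_succ_top (by omega), ← ih]
    unfold lsum
    rw [Finset.sum_range_succ]
    push_cast
    rfl

open Classical in
/-- The logarithmic sum of a set all of whose smooth slices have reciprocal sum at most `C` is at
most `C` times the logarithmic sum of the rough integers. -/
theorem lsum_slice {A : Set ℕ} (hA : GPFree A) {C : ℝ} {K : ℕ}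
    (hC : ∀ B : Finset ℕ, (B : Set ℕ) ⊆ K.smoothNumbers → GPFree (B : Set ℕ) → rs B ≤ C) (N : ℕ) :
    lsum A N ≤ C * lsum {m | Rough K m} N := by
  rw [lsum_eq, lsum_eq]
  set S := (Finset.Icc 1 N).filter (· ∈ A) with hS
  set T := (Finset.Icc 1 N).filter (· ∈ {m | Rough K m}) with hT
  have hmap : ∀ n ∈ S, ro K n ∈ T := by
    intro n hn
    simp only [hS, hT, Finset.mem_filter, Finset.mem_Icc, Set.mem_ofPred_eq] at hn ⊢
    exact ⟨⟨ro_pos _ _, le_trans (ro_le (by omega)) hn.1.2⟩, ro_rough K n⟩
  rw [← Finset.sum_fiberwise_of_maps_to hmap, Finset.mul_sum]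
  apply Finset.sum_le_sum
  intro m hm
  have hm0 : 0 < m := by
    simp only [hT, Finset.mem_filter, Finset.mem_Icc] at hm
    omega
  set B : Finset ℕ := (S.filter (fun n => ro K n = m)).image (sm K) with hB
  have hS0 : ∀ n ∈ S, n ≠ 0 := by
    intro n hn
    simp only [hS, Finset.mem_filter, Finset.mem_Icc] at hn
    omega
  have hinj : Set.InjOn (sm K) (S.filter (fun n => ro K n = m) : Finset ℕ) := by
    intro a ha b hb hab
    simp only [Finset.coe_filter, Set.mem_ofPred_eq] at ha hb
    exact eq_of_sm_ro (hS0 a ha.1) (hS0 b hb.1) hab (by rw [ha.2, hb.2])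
  have hBm : (B : Set ℕ) ⊆ K.smoothNumbers := by
    intro b hb
    simp only [hB, Finset.coe_image, Set.mem_image] at hb
    obtain ⟨n, _, rfl⟩ := hb
    exact sm_mem K n
  have hBA : ∀ b ∈ (B : Set ℕ), b * m ∈ A := by
    intro b hb
    simp only [hB, Finset.coe_image, Set.mem_image, Finset.coe_filter, Set.mem_ofPred_eq] at hb
    obtain ⟨n, ⟨hn1, hn2⟩, rfl⟩ := hb
    rw [← hn2, sm_mul_ro (hS0 n hn1)]
    simp only [hS, Finset.mem_filter] at hn1
    exact hn1.2
  have hBfree : GPFree (B : Set ℕ) := by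
    rw [gpFree_iff]
    refine ⟨fun b hb => Nat.pos_of_ne_zero (Nat.ne_zero_of_mem_smoothNumbers (hBm hb)), ?_⟩
    intro a ha b hb c hc habc
    have := hA.eq (hBA a ha) (hBA b hb) (hBA c hc)
      (by rw [show a * m * (c * m) = (a * c) * (m * m) by ring, habc]; ring)
    exact Nat.eq_of_mul_eq_mul_right hm0 this
  have h1 := hC B hBm hBfree
  have h2 : ∑ n ∈ S.filter (fun n => ro K n = m), 1 / (n : ℝ) = rs B * (1 / (m : ℝ)) := by
    unfold rs
    rw [hB, Finset.sum_image (fun a ha b hb h => hinj (by simpa using ha) (by simpa using hb) h),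
      Finset.sum_mul]
    apply Finset.sum_congr rfl
    intro n hn
    rw [Finset.mem_filter] at hn
    have h3 : (n : ℝ) = sm K n * m := by
      rw [← hn.2]
      exact_mod_cast (sm_mul_ro (hS0 n hn.1)).symm
    rw [h3, one_div, one_div, one_div, mul_inv]
  rw [h2]
  exact mul_le_mul_of_nonneg_right h1 (by positivity)

/-- If `A` has lower density at least `β`, then `β` is at most `phi K` times any bound for the
reciprocal sums of finite GP-free sets of `K`-smooth numbers. -/
theorem density_le {A : Set ℕ} (hA : GPFree A) {β C : ℝ} {K : ℕ}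
    (hβ : ∀ᶠ x : ℕ in atTop, β * x ≤ cnt A x)
    (hC : ∀ B : Finset ℕ, (B : Set ℕ) ⊆ K.smoothNumbers → GPFree (B : Set ℕ) → rs B ≤ C) :
    β ≤ phi K * C := by
  have hC0 : 0 ≤ C := by
    have := hC ∅ (by simp) (by rw [gpFree_iff]; simp)
    simpa [rs] using this
  by_cases hβ0 : β < 0
  · have := mul_nonneg (phi_pos K).le hC0
    linarith
  push Not at hβ0
  obtain ⟨X, hX⟩ := eventually_atTop.1 hβ
  -- upper bound for rough integers
  set C0 : ℝ := P K * 1 + 2 with hC0'
  have hC0nn : 0 ≤ C0 := by positivity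
  have hrough : ∀ x : ℕ, (cnt {m | Rough K m} x : ℝ) ≤ phi K * x + C0 := by
    intro x
    have h1 := cnt_class K (L := 1) (by norm_num) (fun _ => True) x
    have h2 : {m | Rough K m ∧ (fun _ : ℕ => True) (m / P K % 1)} = {m | Rough K m} := by
      ext m; simp
    rw [h2] at h1
    have h3 : ∀ inst : DecidablePred (fun _ : ℕ => True),
        @Nat.count (fun _ : ℕ => True) inst 1 = 1 := by
      intro inst
      simp [Nat.count_succ]
    rw [abs_le] at h1
    have h4 := h1.2
    rw [h3] at h4
    push_cast at h4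
    linarith
  by_contra hcon
  push Not at hcon
  have key : ∀ N, X ≤ N → (β - phi K * C) * Har N ≤ β * Har X + C * (phi K + 2 * C0) := by
    intro N hN
    have h1 := lsum_lower hβ0 hX N hN
    have h2 := lsum_slice hA hC N
    have h3 := lsum_upper (phi_pos K).le hC0nn hrough N
    have h4 := mul_le_mul_of_nonneg_left h3 hC0
    nlinarith
  have h5 : Tendsto (fun N => (β - phi K * C) * Har N) atTop atTop :=
    Har_tendsto.const_mul_atTop (by linarith)
  have h6 := (h5.eventually_gt_atTop (β * Har X + C * (phi K + 2 * C0))).and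
    (eventually_ge_atTop X)
  obtain ⟨N, h7, h8⟩ := h6.exists
  have := key N h8
  linarith

end Pool.Agent.Lib.MP_f8fa1d_co
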